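import Mathlib
import Pool.Agent.Lib.MP_2a816b_nt.Expo

/-!
# Shifts with a small exceptional set: definitions

`e x = exp (2 π i x)`. A family is a finite set of lists of natural numbers of the same length.
-/

set_option autoImplicit false

open Finset Real
open Pool.Agent.Lib.MP_2a816b_nt (e norm_e conj_e e_add e_neg)

namespace Pool.Agent.Lib.MP_570bef_ntWD

/-- `∑ (n + β)^d` over the members `n` of a list -/
noncomputable def Ps (d : ℕ) (β : ℝ) (x : List ℕ) : ℝ := (x.map fun n => ((n : ℝ) + β) ^ d).sum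

/-- concatenations of members of two families -/
def cat (A B : Finset (List ℕ)) : Finset (List ℕ) := (A ×ˢ B).image fun p => p.1 ++ p.2

/-- all members have length `s` -/
def Len (s : ℕ) (A : Finset (List ℕ)) : Prop := ∀ x ∈ A, x.length = s

/-- exponential sum of a family -/
noncomputable def Es (k : ℕ) (β : ℝ) (A : Finset (List ℕ)) (ξ : ℝ) : ℂ :=
  ∑ x ∈ A, e (ξ * Ps k β x)

/-- the lists with one member, from a set of natural numbers -/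
def one (I : Finset ℕ) : Finset (List ℕ) := I.image fun n => [n]

/-- the `u`-th power of a family -/
def pw (A : Finset (List ℕ)) : ℕ → Finset (List ℕ)
  | 0 => {[]}
  | u + 1 => cat (pw A u) A

/-- natural numbers in `[r Q, (r + η) Q]` -/
noncomputable def iv (r η Q : ℝ) : Finset ℕ := Finset.Icc ⌈r * Q⌉₊ ⌊(r + η) * Q⌋₊

/-- one level: `n` variables, the `i`-th in `[r i Q, (r i + η) Q]` -/
noncomputable def lev (n : ℕ) (r : ℕ → ℝ) (η Q : ℝ) : Finset (List ℕ) :=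
  (Fintype.piFinset fun i : Fin n => iv (r i) η Q).image List.ofFn

/-- exponents of the levels -/
noncomputable def la (K l : ℕ) : ℝ := (1 - 1 / (K : ℝ)) ^ l

/-- block: levels of `n 0, n 1, …` variables at the scales `P ^ la K 0, P ^ la K 1, …` -/
noncomputable def blk (K : ℕ) (n : ℕ → ℕ) (r : ℕ → ℝ) (η P : ℝ) : ℕ → Finset (List ℕ)
  | 0 => {[]}
  | v + 1 => cat (blk K n r η P v) (lev (n v) r η (P ^ la K v))

open Classical in
/-- number of members of `A` with `|Ps (k - i) β x - c i| ≤ T i` for all `i < j` -/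
noncomputable def Nm (k j : ℕ) (β : ℝ) (A : Finset (List ℕ)) (c T : ℕ → ℝ) : ℕ :=
  (A.filter fun x => ∀ i < j, |Ps (k - i) β x - c i| ≤ T i).card

/-- the maps `y ↦ (∑ y i ^ (k - a))_(a < n)`, `n ≤ j`, are bi-Lipschitz on the boxes
`∏ [r i, r i + 2 η]` -/
def Lips (k j : ℕ) (r : ℕ → ℝ) (η : ℝ) : Prop :=
  ∃ C : ℝ, 0 < C ∧ ∀ n ≤ j, ∀ y y' : Fin n → ℝ,
    (∀ i : Fin n, r i ≤ y i ∧ y i ≤ r i + 2 * η) → (∀ i : Fin n, r i ≤ y' i ∧ y' i ≤ r i + 2 * η) →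
    ∀ i, |y i - y' i| ≤ C * ∑ a : Fin n, |∑ l, y l ^ (k - (a : ℕ)) - ∑ l, y' l ^ (k - (a : ℕ))|

/-- conditions on a block -/
structure Bl (k j K : ℕ) (n : ℕ → ℕ) (r : ℕ → ℝ) (η : ℝ) : Prop where
  hj : 1 ≤ j
  hjk : j + 1 ≤ k
  hK : 2 ≤ K
  hKk : K + j ≤ k + 1
  hn : ∀ l, n l ≤ j
  hη : 0 < η
  hr : ∀ i, 0 < r i
  hr4 : ∀ i < j, r i + η ≤ 1 / 4
  hL : Lips k j r η

/-- exponent of the number of possibilities for one variable and one equation -/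
noncomputable def ex (k i : ℕ) (D x : ℝ) : ℝ := min x (max 0 (D - x * ((k : ℝ) - i - 1)))

/-- numbers of variables of the levels of the block `BB` -/
noncomputable def nB (j K l : ℕ) : ℕ := ⌈(j : ℝ) * la K l⌉₊

/-- the block for `j` equations -/
noncomputable def BB (k j : ℕ) (r : ℕ → ℝ) (η : ℝ) (v : ℕ) (P : ℝ) : Finset (List ℕ) :=
  blk (k + 1 - j) (nB j (k + 1 - j)) r η P v

/-- the block for the energy -/
noncomputable def HH (k : ℕ) (r : ℕ → ℝ) (η : ℝ) (t : ℕ) (P : ℝ) : Finset (List ℕ) :=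
  blk k (fun _ => 1) r η P t

/-- all the parameters -/
structure Cx (k j v t : ℕ) (r : ℕ → ℝ) (η ε κ : ℝ) : Prop where
  hj : 2 ≤ j
  hjk : 2 * j + 1 ≤ k
  hη : 0 < η
  hr : ∀ i, 0 < r i
  hr4 : ∀ i < j, r i + η ≤ 1 / 4
  hL : Lips k j r η
  hε : 0 < ε
  hε2 : ε ≤ 1 / (2 * j)
  hv : la (k + 1 - j) v ≤ ε
  hκ : 0 < κ
  hκ8 : κ ≤ 1 / 8
  ht : la k t ≤ κ
  hkκ : 4 ≤ k * κ

/-- the bad shifts at the scale `P` -/
def Bad (k j : ℕ) (r : ℕ → ℝ) (η : ℝ) (v : ℕ) (ω b₀ P : ℝ) : Set ℝ :=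
  {β | 0 ≤ β ∧ β ≤ 1 ∧ ∃ ξ : ℝ, P ^ (b₀ - k) ≤ |ξ| ∧ |ξ| ≤ P ^ (1 / 2 : ℝ) ∧
    2 * ((BB k j r η v P).card : ℝ) * (|ξ| * P ^ (k : ℝ)) ^ (-ω) < ‖Es k β (BB k j r η v P) ξ‖}

/-- the full family at the scale `2 ^ n` -/
noncomputable def GG (k j : ℕ) (r : ℕ → ℝ) (η : ℝ) (v t u n : ℕ) : Finset (List ℕ) :=
  cat (one (Finset.Icc (2 ^ (n - 1)) (2 ^ (n + 1))))
    (cat (pw (one (Finset.Ico (2 ^ (n - 4)) (2 * 2 ^ (n - 4)))) u)
      (cat (BB k j r η v ((2 : ℝ) ^ n))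
        (cat (HH k r η t ((2 : ℝ) ^ n)) (HH k r η t ((2 : ℝ) ^ n)))))

/-- number of terms -/
noncomputable def nt (k j v t u : ℕ) : ℕ :=
  1 + (u + (∑ l ∈ range v, nB j (k + 1 - j) l + (t + t)))

/-- number of representations, smoothed by a Gaussian of width `w` -/
noncomputable def Rw (k : ℕ) (β : ℝ) (G : Finset (List ℕ)) (w τ : ℝ) : ℝ :=
  ∑ x ∈ G, Real.exp (-π * ((Ps k β x - τ) / w) ^ 2)

/-- the integrand of the error -/
noncomputable def Jn (k : ℕ) (β : ℝ) (G : Finset (List ℕ)) (w W ξ : ℝ) : ℝ :=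
  w * min 1 (π * (W * ξ) ^ 2) * Real.exp (-π * (w * ξ) ^ 2) * ‖Es k β G ξ‖

/-- saving in the middle range -/
noncomputable def sg (b₀ : ℕ) : ℝ := 1 / (8 * ((b₀ : ℝ) + 1) * 2 ^ b₀)

end Pool.Agent.Lib.MP_570bef_ntWD
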