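import Mathlib
import Pool.Agent.Lib.MP_570bef_ntWD.Defs

/-!
# Bin: the binomial theorem for power sums (easy)

(n + β + τ)^k = ∑_(i ≤ k) binom(k,i) τ^i (n + β)^(k-i) (add_pow with the roles exchanged, Finset.sum_flip or add_comm), summed
over the list (induction on the list, or List.sum_map_sum).
-/

set_option autoImplicit false

open Finset Real MeasureTheory
open Pool.Agent.Lib.MP_2a816b_nt (e norm_e conj_e e_add e_neg)

namespace Pool.Agent.Lib.MP_570bef_ntWD

theorem Ps_shift (k : ℕ) (β τ : ℝ) (x : List ℕ) :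
    Ps k (β + τ) x = ∑ i : Fin (k + 1), τ ^ (i : ℕ) * ((k.choose i : ℝ) * Ps (k - i) β x) := by
  have hP : ∀ (d : ℕ) (γ : ℝ) (n : ℕ) (y : List ℕ), Ps d γ (n :: y) = ((n : ℝ) + γ) ^ d + Ps d γ y := by
    intro d γ n y
    unfold Ps
    simp
  induction x with
  | nil => simp [Ps]
  | cons n x ih =>
    rw [hP, ih]
    have h1 : ((n : ℝ) + (β + τ)) ^ k =
        ∑ i : Fin (k + 1), τ ^ (i : ℕ) * ((k.choose i : ℝ) * ((n : ℝ) + β) ^ (k - (i : ℕ))) := by
      have h2 : (n : ℝ) + (β + τ) = τ + ((n : ℝ) + β) := by ring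
      rw [h2, add_pow, Finset.sum_range]
      refine Finset.sum_congr rfl fun i _ => ?_
      ring
    rw [h1, ← Finset.sum_add_distrib]
    refine Finset.sum_congr rfl fun i _ => ?_
    rw [hP]
    ring

end Pool.Agent.Lib.MP_570bef_ntWD
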