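import Mathlib
import Pool.Agent.Lib.MP_570bef_ntWD.Defs

/-!
# Cat: concatenation of families (easy)

All members of the first family have the same length, so (x, y) ↦ x ++ y is injective on A × B
(List.append_inj); hence card_cat and sum_cat (Finset.sum_image, Finset.sum_product). Es_cat: e_add and
Ps_append. Es_norm_neg: Es k β A (-ξ) is the complex conjugate of Es k β A ξ (conj_e).
-/

set_option autoImplicit false

open Finset Real
open Pool.Agent.Lib.MP_2a816b_nt (e norm_e conj_e e_add e_neg)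

namespace Pool.Agent.Lib.MP_570bef_ntWD

theorem Ps_nil (d : ℕ) (β : ℝ) : Ps d β [] = 0 := by
  simp [Ps]

theorem Ps_append (d : ℕ) (β : ℝ) (x y : List ℕ) : Ps d β (x ++ y) = Ps d β x + Ps d β y := by
  simp [Ps]

theorem mem_cat {A B : Finset (List ℕ)} {z : List ℕ} :
    z ∈ cat A B ↔ ∃ x ∈ A, ∃ y ∈ B, z = x ++ y := by
  unfold cat
  rw [Finset.mem_image]
  constructor
  · rintro ⟨p, hp, rfl⟩
    exact ⟨p.1, (Finset.mem_product.1 hp).1, p.2, (Finset.mem_product.1 hp).2, rfl⟩
  · rintro ⟨x, hx, y, hy, rfl⟩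
    exact ⟨(x, y), Finset.mem_product.2 ⟨hx, hy⟩, rfl⟩

theorem Len_cat {s t : ℕ} {A B : Finset (List ℕ)} (hA : Len s A) (hB : Len t B) :
    Len (s + t) (cat A B) := by
  intro z hz
  obtain ⟨x, hx, y, hy, rfl⟩ := mem_cat.1 hz
  rw [List.length_append, hA x hx, hB y hy]

theorem sum_cat {M : Type} [AddCommMonoid M] {s : ℕ} {A B : Finset (List ℕ)} (hA : Len s A)
    (f : List ℕ → M) : ∑ z ∈ cat A B, f z = ∑ x ∈ A, ∑ y ∈ B, f (x ++ y) := by
  unfold cat
  rw [Finset.sum_image, Finset.sum_product]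
  intro p hp q hq h
  have hp1 := (Finset.mem_product.1 (Finset.mem_coe.1 hp)).1
  have hq1 := (Finset.mem_product.1 (Finset.mem_coe.1 hq)).1
  obtain ⟨h1, h2⟩ := List.append_inj h (by rw [hA _ hp1, hA _ hq1])
  exact Prod.ext h1 h2

theorem card_cat {s : ℕ} {A B : Finset (List ℕ)} (hA : Len s A) :
    (cat A B).card = A.card * B.card := by
  have h := sum_cat (B := B) hA (fun _ => (1 : ℕ))
  simp only [Finset.sum_const, smul_eq_mul, mul_one] at h
  exact h

theorem Es_cat {s : ℕ} {A B : Finset (List ℕ)} (hA : Len s A) (k : ℕ) (β ξ : ℝ) :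
    Es k β (cat A B) ξ = Es k β A ξ * Es k β B ξ := by
  unfold Es
  rw [sum_cat hA, Finset.sum_mul]
  refine Finset.sum_congr rfl fun x _ => ?_
  rw [Finset.mul_sum]
  refine Finset.sum_congr rfl fun y _ => ?_
  rw [Ps_append, mul_add, e_add]

theorem Es_norm_le (k : ℕ) (β : ℝ) (A : Finset (List ℕ)) (ξ : ℝ) : ‖Es k β A ξ‖ ≤ A.card := by
  unfold Es
  refine (norm_sum_le _ _).trans ?_
  simp only [norm_e, Finset.sum_const, nsmul_eq_mul, mul_one, le_refl]

theorem Es_norm_neg (k : ℕ) (β : ℝ) (A : Finset (List ℕ)) (ξ : ℝ) :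
    ‖Es k β A (-ξ)‖ = ‖Es k β A ξ‖ := by
  have h : Es k β A (-ξ) = (starRingEnd ℂ) (Es k β A ξ) := by
    unfold Es
    rw [map_sum]
    refine Finset.sum_congr rfl fun x _ => ?_
    rw [conj_e, neg_mul]
  rw [h, Complex.norm_conj]

theorem Es_cont (k : ℕ) (β : ℝ) (A : Finset (List ℕ)) : Continuous (Es k β A) := by
  unfold Es e
  fun_prop

theorem Len_one (I : Finset ℕ) : Len 1 (one I) := by
  intro x hx
  unfold one at hx
  obtain ⟨n, _, rfl⟩ := Finset.mem_image.1 hx
  rfl

theorem card_one (I : Finset ℕ) : (one I).card = I.card := by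
  unfold one
  refine Finset.card_image_of_injective _ fun a b h => ?_
  simpa using h

theorem Es_one (k : ℕ) (β : ℝ) (I : Finset ℕ) (ξ : ℝ) :
    Es k β (one I) ξ = ∑ n ∈ I, e (ξ * ((n : ℝ) + β) ^ k) := by
  unfold Es one
  rw [Finset.sum_image fun a _ b _ h => by simpa using h]
  refine Finset.sum_congr rfl fun n _ => ?_
  simp [Ps]

theorem Len_pw {A : Finset (List ℕ)} (hA : Len 1 A) (u : ℕ) : Len u (pw A u) := by
  induction u with
  | zero =>
    intro x hx
    have h : x = [] := by simpa [pw] using hx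
    rw [h]
    rfl
  | succ u ih => exact Len_cat ih hA

theorem card_pw {A : Finset (List ℕ)} (hA : Len 1 A) (u : ℕ) : (pw A u).card = A.card ^ u := by
  induction u with
  | zero => simp [pw]
  | succ u ih =>
    rw [pow_succ, ← ih]
    exact card_cat (Len_pw hA u)

theorem Es_pw {A : Finset (List ℕ)} (hA : Len 1 A) (u k : ℕ) (β ξ : ℝ) :
    Es k β (pw A u) ξ = (Es k β A ξ) ^ u := by
  induction u with
  | zero => simp [pw, Es, Ps_nil, e]
  | succ u ih =>
    rw [pow_succ, ← ih]
    exact Es_cat (Len_pw hA u) k β ξ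

/-- all entries of the members of a power are entries of members of the family -/
theorem mem_pw {A : Finset (List ℕ)} (u : ℕ) {x : List ℕ} (hx : x ∈ pw A u) {a : ℕ} (ha : a ∈ x) :
    ∃ y ∈ A, a ∈ y := by
  induction u generalizing x with
  | zero =>
    have h : x = [] := by simpa [pw] using hx
    rw [h] at ha
    exact absurd ha (List.not_mem_nil)
  | succ u ih =>
    obtain ⟨y, hy, z, hz, rfl⟩ := mem_cat.1 hx
    rcases List.mem_append.1 ha with h | h
    · exact ih hy h
    · exact ⟨z, hz, h⟩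

end Pool.Agent.Lib.MP_570bef_ntWD
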