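import Mathlib
import Pool.Agent.Lib.MP_570bef_ntWD.Defs

/-!
# Cell: Gaussian weights and cells (medium)

Put x in the cell g x = (⌊Y i (z x i - a i)⌋)_i ∈ Fin d → ℤ. In the cell m: with c i = a i + m i / Y i, z x i - c i ∈
[0, 1/Y i), so a cell has at most N members; and u = Y i (z x i - a i) ∈ [m i, m i + 1) has |u| ≥ |m i| - 1, so
(for m i ≠ 0, u² ≥ (|m i| - 1)² ≥ |m i| - 1, n² ≥ n for n natural) exp (-π (2u)²) ≤ exp (1 - |m i|) =: W (m i), also
for m i = 0. So the sum is ≤ ∑_(m in the image of g) N ∏ W (m i) ≤ N ∑_(m ∈ box) ∏ W (m i) = N ∏_i ∑_(|m| ≤ H) W m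
(Finset.sum_fiberwise / sum_comp, Fintype.piFinset, Finset.prod_univ_sum) ≤ N C0^d, where C0 = 8 ≥ e (1 + 2/(e - 1)) ≥
∑_(m ∈ ℤ, |m| ≤ H) e^(1-|m|) for every H. C = 8^d (d = 0: card S ≤ N). Any other constant is fine.
-/

set_option autoImplicit false

open Finset Real MeasureTheory
open Pool.Agent.Lib.MP_2a816b_nt (e norm_e conj_e e_add e_neg)

namespace Pool.Agent.Lib.MP_570bef_ntWD

private theorem Cell_summable : Summable (fun n : ℤ => Real.exp (1 - |(n : ℝ)|)) := by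
  have hg : Summable (fun n : ℕ => Real.exp 1 * Real.exp (-1) ^ n) :=
    (summable_geometric_of_lt_one (Real.exp_pos _).le (Real.exp_lt_one_iff.2 (by norm_num))).mul_left _
  have he : ∀ n : ℕ, Real.exp (1 - (n : ℝ)) = Real.exp 1 * Real.exp (-1) ^ n := fun n => by
    rw [← Real.exp_nat_mul, ← Real.exp_add]
    congr 1
    ring
  apply Summable.of_nat_of_neg
  · refine hg.congr fun n => ?_
    rw [Int.cast_natCast, abs_of_nonneg (Nat.cast_nonneg n), he]
  · refine hg.congr fun n => ?_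
    rw [Int.cast_neg, Int.cast_natCast, abs_neg, abs_of_nonneg (Nat.cast_nonneg n), he]

private theorem Cell_weight (u : ℝ) : Real.exp (-π * (2 * u) ^ 2) ≤ Real.exp (1 - |((⌊u⌋ : ℤ) : ℝ)|) := by
  apply Real.exp_le_exp.2
  have hpi := Real.pi_gt_three
  obtain ⟨m, hm⟩ : ∃ m : ℤ, m = ⌊u⌋ := ⟨_, rfl⟩
  have h1 : (m : ℝ) ≤ u := by rw [hm]; exact Int.floor_le u
  have h2 : u < m + 1 := by rw [hm]; exact Int.lt_floor_add_one u
  rw [← hm]
  have key : |(m : ℝ)| - 1 ≤ u ^ 2 := by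
    rcases lt_trichotomy m 0 with h | h | h
    · have h3 : m = -1 ∨ m ≤ -2 := by omega
      have h0 : (m : ℝ) < 0 := by exact_mod_cast h
      rw [abs_of_neg h0]
      rcases h3 with h3 | h3
      · rw [h3]
        push_cast
        nlinarith [sq_nonneg u]
      · have h4 : (m : ℝ) ≤ -2 := by exact_mod_cast h3
        nlinarith
    · rw [h]
      push_cast
      rw [abs_zero]
      nlinarith [sq_nonneg u]
    · have h4 : (1 : ℝ) ≤ m := by exact_mod_cast h
      rw [abs_of_pos (by linarith)]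
      nlinarith
  nlinarith [sq_nonneg u]

open Classical in
theorem cell (d : ℕ) : ∃ C : ℝ, 0 < C ∧ ∀ Y : Fin d → ℝ, (∀ i, 0 < Y i) →
    ∀ {X : Type} (S : Finset X) (z : X → Fin d → ℝ) (N : ℝ),
    (∀ c : Fin d → ℝ, ((S.filter fun x => ∀ i, |z x i - c i| ≤ 1 / Y i).card : ℝ) ≤ N) →
    ∀ a : Fin d → ℝ, ∑ x ∈ S, ∏ i, Real.exp (-π * (2 * Y i * (a i - z x i)) ^ 2) ≤ C * N := by
  classical
  obtain ⟨C0, hC0⟩ : ∃ C0 : ℝ, C0 = ∑' n : ℤ, Real.exp (1 - |(n : ℝ)|) := ⟨_, rfl⟩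
  have hC0n : 0 ≤ C0 := by
    rw [hC0]
    exact tsum_nonneg fun n => (Real.exp_pos _).le
  refine ⟨(1 + C0) ^ d, by positivity, ?_⟩
  intro Y hY X S z N hN a
  have hN0 : 0 ≤ N := (Nat.cast_nonneg _).trans (hN a)
  obtain ⟨g, hg⟩ : ∃ g : X → Fin d → ℤ, g = fun x i => ⌊Y i * (z x i - a i)⌋ := ⟨_, rfl⟩
  obtain ⟨F, hF⟩ : ∃ F : Fin d → Finset ℤ, F = fun i => S.image fun x => g x i := ⟨_, rfl⟩
  have hmaps : ∀ x ∈ S, g x ∈ Fintype.piFinset F := fun x hx => by
    rw [Fintype.mem_piFinset, hF]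
    exact fun i => Finset.mem_image_of_mem _ hx
  rw [← Finset.sum_fiberwise_of_maps_to hmaps]
  have hfib : ∀ m ∈ Fintype.piFinset F,
      ∑ x ∈ S with g x = m, ∏ i, Real.exp (-π * (2 * Y i * (a i - z x i)) ^ 2) ≤
        N * ∏ i, Real.exp (1 - |((m i : ℤ) : ℝ)|) := by
    intro m _
    have h1 : ∀ x ∈ S.filter (fun x => g x = m), ∏ i, Real.exp (-π * (2 * Y i * (a i - z x i)) ^ 2) ≤
        ∏ i, Real.exp (1 - |((m i : ℤ) : ℝ)|) := by
      intro x hx
      rw [Finset.mem_filter] at hx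
      refine Finset.prod_le_prod (fun i _ => (Real.exp_pos _).le) fun i _ => ?_
      have h2 := Cell_weight (Y i * (z x i - a i))
      have h3 : ⌊Y i * (z x i - a i)⌋ = m i := by
        rw [← hx.2, hg]
      rw [h3] at h2
      refine le_trans (le_of_eq ?_) h2
      congr 1
      ring
    refine (Finset.sum_le_sum h1).trans ?_
    rw [Finset.sum_const, nsmul_eq_mul]
    refine mul_le_mul_of_nonneg_right ?_ (Finset.prod_nonneg fun i _ => (Real.exp_pos _).le)
    refine le_trans ?_ (hN fun i => a i + m i / Y i)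
    have hsub : (S.filter fun x => g x = m) ⊆
        S.filter fun x => ∀ i, |z x i - (a i + m i / Y i)| ≤ 1 / Y i := by
      intro x hx
      rw [Finset.mem_filter] at hx ⊢
      refine ⟨hx.1, fun i => ?_⟩
      have h3 : ⌊Y i * (z x i - a i)⌋ = m i := by
        rw [← hx.2, hg]
      have hYi := hY i
      have h4 : ((m i : ℤ) : ℝ) ≤ Y i * (z x i - a i) := by rw [← h3]; exact Int.floor_le _
      have h5 : Y i * (z x i - a i) < m i + 1 := by rw [← h3]; exact Int.lt_floor_add_one _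
      have h6 : z x i - (a i + m i / Y i) = (Y i * (z x i - a i) - m i) / Y i := by
        field_simp
        ring
      rw [h6, abs_div, abs_of_pos hYi, abs_of_nonneg (by linarith)]
      exact div_le_div_of_nonneg_right (by linarith) hYi.le
    exact_mod_cast Finset.card_le_card hsub
  refine (Finset.sum_le_sum hfib).trans ?_
  rw [← Finset.mul_sum, ← Finset.prod_univ_sum F (fun _ (n : ℤ) => Real.exp (1 - |(n : ℝ)|)), mul_comm]
  refine mul_le_mul_of_nonneg_right ?_ hN0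
  have h7 : ∏ i : Fin d, ∑ n ∈ F i, Real.exp (1 - |(n : ℝ)|) ≤ ∏ _i : Fin d, (1 + C0) := by
    refine Finset.prod_le_prod (fun i _ => Finset.sum_nonneg fun n _ => (Real.exp_pos _).le) fun i _ => ?_
    have h8 : ∑ n ∈ F i, Real.exp (1 - |(n : ℝ)|) ≤ C0 := by
      rw [hC0]
      exact Cell_summable.sum_le_tsum (F i) fun n _ => (Real.exp_pos _).le
    linarith
  refine h7.trans (le_of_eq ?_)
  rw [Finset.prod_const, Finset.card_univ, Fintype.card_fin]

end Pool.Agent.Lib.MP_570bef_ntWD
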