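import Mathlib
import Pool.Agent.Lib.MP_570bef_ntWD.Cat

/-!
# NmC: the count for a concatenation (easy+)

Nm_mono: the filtered set only grows. Nm_less: fewer equations, more members.
Nm_cat: the filtered set of cat A B is contained in the image of the pairs (x, y), x ∈ A with
|Ps (k-i) β x - c i| ≤ T i + U i for all i < j (as |Ps (k-i) β y| ≤ U i), and y ∈ B with
|Ps (k-i) β y - (c i - Ps (k-i) β x)| ≤ T i. So its number is ≤ ∑_x (number of y) ≤ M1 M2 (target
c' i = c i - Ps (k-i) β x for B).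
-/

set_option autoImplicit false

open Finset Real
open Pool.Agent.Lib.MP_2a816b_nt (e norm_e conj_e e_add e_neg)

namespace Pool.Agent.Lib.MP_570bef_ntWD

theorem Nm_mono (k j : ℕ) (β : ℝ) (A : Finset (List ℕ)) (c T T' : ℕ → ℝ) (h : ∀ i < j, T i ≤ T' i) :
    Nm k j β A c T ≤ Nm k j β A c T' := by
  classical
  unfold Nm
  refine Finset.card_le_card fun x hx => ?_
  obtain ⟨h1, h2⟩ := Finset.mem_filter.1 hx
  exact Finset.mem_filter.2 ⟨h1, fun i hi => (h2 i hi).trans (h i hi)⟩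

theorem Nm_less (k j j' : ℕ) (hj : j' ≤ j) (β : ℝ) (A : Finset (List ℕ)) (c T : ℕ → ℝ) :
    Nm k j β A c T ≤ Nm k j' β A c T := by
  classical
  unfold Nm
  refine Finset.card_le_card fun x hx => ?_
  obtain ⟨h1, h2⟩ := Finset.mem_filter.1 hx
  exact Finset.mem_filter.2 ⟨h1, fun i hi => h2 i (lt_of_lt_of_le hi hj)⟩

theorem Nm_cat {k j : ℕ} {β : ℝ} {A B : Finset (List ℕ)} (T U : ℕ → ℝ)
    (hU : ∀ y ∈ B, ∀ i < j, |Ps (k - i) β y| ≤ U i) (M1 M2 : ℝ) (hM : 0 ≤ M2)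
    (h1 : ∀ c, (Nm k j β A c (fun i => T i + U i) : ℝ) ≤ M1)
    (h2 : ∀ c, (Nm k j β B c T : ℝ) ≤ M2) (c : ℕ → ℝ) :
    (Nm k j β (cat A B) c T : ℝ) ≤ M1 * M2 := by
  classical
  let A' : Finset (List ℕ) := A.filter fun x => ∀ i < j, |Ps (k - i) β x - c i| ≤ T i + U i
  let B' : List ℕ → Finset (List ℕ) := fun x =>
    B.filter fun y => ∀ i < j, |Ps (k - i) β y - (c i - Ps (k - i) β x)| ≤ T i
  have hA' : ((A'.card : ℕ) : ℝ) ≤ M1 := by
    have h3 := h1 c
    unfold Nm at h3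
    exact h3
  have hB' : ∀ x, (((B' x).card : ℕ) : ℝ) ≤ M2 := by
    intro x
    have h3 := h2 fun i => c i - Ps (k - i) β x
    unfold Nm at h3
    exact h3
  have hsub : (cat A B).filter (fun x => ∀ i < j, |Ps (k - i) β x - c i| ≤ T i) ⊆
      A'.biUnion fun x => (B' x).image fun y => x ++ y := by
    intro z hz
    obtain ⟨hz1, hz2⟩ := Finset.mem_filter.1 hz
    obtain ⟨x, hx, y, hy, rfl⟩ := mem_cat.1 hz1
    refine Finset.mem_biUnion.2 ⟨x, Finset.mem_filter.2 ⟨hx, fun i hi => ?_⟩,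
      Finset.mem_image.2 ⟨y, Finset.mem_filter.2 ⟨hy, fun i hi => ?_⟩, rfl⟩⟩
    · have h3 := hz2 i hi
      have h4 := hU y hy i hi
      rw [Ps_append] at h3
      have h5 : Ps (k - i) β x - c i = (Ps (k - i) β x + Ps (k - i) β y - c i) - Ps (k - i) β y := by ring
      rw [h5]
      exact (abs_sub _ _).trans (add_le_add h3 h4)
    · have h3 := hz2 i hi
      rw [Ps_append] at h3
      have h5 : Ps (k - i) β y - (c i - Ps (k - i) β x) = Ps (k - i) β x + Ps (k - i) β y - c i := by ring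
      rw [h5]
      exact h3
  have hcard : Nm k j β (cat A B) c T ≤ ∑ x ∈ A', (B' x).card := by
    unfold Nm
    refine (Finset.card_le_card ?_).trans (Finset.card_biUnion_le.trans
      (Finset.sum_le_sum fun x _ => Finset.card_image_le (s := B' x) (f := fun y => x ++ y)))
    exact hsub
  calc (Nm k j β (cat A B) c T : ℝ) ≤ ((∑ x ∈ A', (B' x).card : ℕ) : ℝ) := by exact_mod_cast hcard
    _ = ∑ x ∈ A', (((B' x).card : ℕ) : ℝ) := by rw [Nat.cast_sum]
    _ ≤ ∑ _x ∈ A', M2 := Finset.sum_le_sum fun x _ => hB' x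
    _ = (A'.card : ℝ) * M2 := by rw [Finset.sum_const, nsmul_eq_mul]
    _ ≤ M1 * M2 := mul_le_mul_of_nonneg_right hA' hM

end Pool.Agent.Lib.MP_570bef_ntWD
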