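import Mathlib
import Pool.Agent.Lib.MP_570bef_ntWD.Cat

/-!
# LevA: sizes of levels and blocks (easy+)

la K l ∈ [0, 1] for K ≥ 1 (0 ≤ 1 - 1/K ≤ 1). iv r η Q has at least η Q - 1 ≥ (η/2) Q members if η Q ≥ 2
(Nat.card_Icc, Nat.ceil_lt_add_one, Nat.sub_one_lt_floor). lev: card_image_of_injective (List.ofFn_injective),
Fintype.card_piFinset. Entries of members of lev n r η Q (n ≤ j): ≤ (r i + η) Q ≤ Q/4. So for 0 ≤ β ≤ 1,
Q ≥ 2: 0 ≤ (a + β)^d ≤ (Q/4 + 1)^d ≤ Q^d, and Ps d β x ≤ n Q^d.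
blk: induction on v, lists of lev have length n, P^la ≤ P for P ≥ 1; card (blk (v+1)) = card (blk v) card (lev)
≥ c P^(∑ n l la l) (η/2)^(n v) (P^la K v)^(n v) as soon as P^(la K v) ≥ 2/η (true for large P: la K v > 0
since K ≥ 2).
-/

set_option autoImplicit false

open Finset Real
open Pool.Agent.Lib.MP_2a816b_nt (e norm_e conj_e e_add e_neg)

namespace Pool.Agent.Lib.MP_570bef_ntWD

private theorem LevA_inv {K : ℕ} (hK : 1 ≤ K) : 0 ≤ 1 - 1 / (K : ℝ) ∧ 1 - 1 / (K : ℝ) ≤ 1 := by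
  have h1 : (1 : ℝ) ≤ K := by exact_mod_cast hK
  have h2 : 1 / (K : ℝ) ≤ 1 := by
    rw [div_le_one (by linarith)]
    exact h1
  have h3 : 0 ≤ 1 / (K : ℝ) := by positivity
  constructor <;> linarith

private theorem LevA_iv {r η Q : ℝ} (hr : 0 < r) (hη : 0 < η) (hQ : 2 / η ≤ Q) :
    η / 2 * Q ≤ ((iv r η Q).card : ℝ) := by
  have hQ0 : 0 < Q := lt_of_lt_of_le (by positivity) hQ
  have h1 : 2 ≤ η * Q := by
    rw [div_le_iff₀ hη] at hQ
    linarith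
  unfold iv
  rw [Nat.card_Icc]
  have h2 : (r + η) * Q - 1 < (⌊(r + η) * Q⌋₊ : ℝ) := Nat.sub_one_lt_floor _
  have h3 : (⌈r * Q⌉₊ : ℝ) < r * Q + 1 := Nat.ceil_lt_add_one (by positivity)
  have h4 : (⌊(r + η) * Q⌋₊ : ℝ) + 1 - (⌈r * Q⌉₊ : ℝ) ≤ ((⌊(r + η) * Q⌋₊ + 1 - ⌈r * Q⌉₊ : ℕ) : ℝ) := by
    have h5 : (⌊(r + η) * Q⌋₊ + 1 : ℕ) ≤ (⌊(r + η) * Q⌋₊ + 1 - ⌈r * Q⌉₊) + ⌈r * Q⌉₊ := by omega
    have h6 : ((⌊(r + η) * Q⌋₊ + 1 : ℕ) : ℝ) ≤ (((⌊(r + η) * Q⌋₊ + 1 - ⌈r * Q⌉₊) + ⌈r * Q⌉₊ : ℕ) : ℝ) := by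
      exact_mod_cast h5
    rw [Nat.cast_add, Nat.cast_add, Nat.cast_one] at h6
    linarith
  nlinarith

private theorem LevA_Ps (d : ℕ) (β : ℝ) (x : List ℕ) :
    Ps d β x = (x.map (fun n : ℕ => ((n : ℝ) + β) ^ d)).sum := by
  induction x with
  | nil => exact Ps_nil d β
  | cons a l ih =>
    have h1 : Ps d β (a :: l) = Ps d β [a] + Ps d β l := Ps_append d β [a] l
    have h2 : Ps d β [a] = ((a : ℝ) + β) ^ d := by simp [Ps]
    rw [h1, h2, ih, List.map_cons, List.sum_cons]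

theorem la_nonneg {K : ℕ} (hK : 1 ≤ K) (l : ℕ) : 0 ≤ la K l := by
  exact pow_nonneg (LevA_inv hK).1 l

theorem la_pos {K : ℕ} (hK : 2 ≤ K) (l : ℕ) : 0 < la K l := by
  have h1 : (2 : ℝ) ≤ K := by exact_mod_cast hK
  refine pow_pos ?_ l
  have h2 : 1 / (K : ℝ) < 1 := by
    rw [div_lt_one (by linarith)]
    linarith
  linarith

theorem la_le_one {K : ℕ} (hK : 1 ≤ K) (l : ℕ) : la K l ≤ 1 := by
  exact pow_le_one₀ (LevA_inv hK).1 (LevA_inv hK).2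

theorem lev_len (n : ℕ) (r : ℕ → ℝ) (η Q : ℝ) : Len n (lev n r η Q) := by
  intro x hx
  obtain ⟨f, -, rfl⟩ := Finset.mem_image.1 hx
  exact List.length_ofFn

theorem lev_card (n : ℕ) (r : ℕ → ℝ) (η Q : ℝ) (hr : ∀ i, 0 < r i) (hη : 0 < η)
    (hQ : 2 / η ≤ Q) : (η / 2 * Q) ^ n ≤ ((lev n r η Q).card : ℝ) := by
  have h1 : (lev n r η Q).card = ∏ i : Fin n, (iv (r i) η Q).card := by
    unfold lev
    rw [Finset.card_image_of_injective _ List.ofFn_injective, Fintype.card_piFinset]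
  have hQ0 : 0 < Q := lt_of_lt_of_le (by positivity) hQ
  rw [h1, Nat.cast_prod]
  have h2 : (η / 2 * Q) ^ n = ∏ _i : Fin n, (η / 2 * Q) := by
    rw [Finset.prod_const, Finset.card_univ, Fintype.card_fin]
  rw [h2]
  exact Finset.prod_le_prod (fun i _ => by positivity) fun i _ => LevA_iv (hr i) hη hQ

theorem lev_entry {n : ℕ} {r : ℕ → ℝ} {η Q : ℝ} (hr : ∀ i, 0 < r i) (hη : 0 < η) (hQ : 0 ≤ Q)
    (hr4 : ∀ i < n, r i + η ≤ 1 / 4) {x : List ℕ} (hx : x ∈ lev n r η Q) {a : ℕ} (ha : a ∈ x) :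
    (a : ℝ) ≤ Q / 4 := by
  obtain ⟨f, hf, rfl⟩ := Finset.mem_image.1 hx
  obtain ⟨i, rfl⟩ := (List.mem_ofFn' f a).1 ha
  have h1 := Fintype.mem_piFinset.1 hf i
  unfold iv at h1
  have h2 := (Finset.mem_Icc.1 h1).2
  have h3 : 0 ≤ (r i + η) * Q := mul_nonneg (add_nonneg (hr i).le hη.le) hQ
  have h4 : (f i : ℝ) ≤ (r i + η) * Q := le_trans (by exact_mod_cast h2) (Nat.floor_le h3)
  have h5 := mul_le_mul_of_nonneg_right (hr4 i i.2) hQ
  linarith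

theorem Ps_bound {s : ℕ} {x : List ℕ} (hs : x.length = s) {Q β : ℝ} (hβ : 0 ≤ β) (hβ1 : β ≤ 1)
    (hQ : 2 ≤ Q) (hx : ∀ a ∈ x, (a : ℝ) ≤ Q / 4) (d : ℕ) : 0 ≤ Ps d β x ∧ Ps d β x ≤ s * Q ^ d := by
  have h1 : ∀ a ∈ x, 0 ≤ ((a : ℝ) + β) ^ d ∧ ((a : ℝ) + β) ^ d ≤ Q ^ d := by
    intro a ha
    have h2 : 0 ≤ (a : ℝ) + β := add_nonneg (Nat.cast_nonneg a) hβ
    have h3 := hx a ha
    exact ⟨pow_nonneg h2 d, pow_le_pow_left₀ h2 (by linarith) d⟩
  rw [LevA_Ps]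
  constructor
  · refine List.sum_nonneg fun y hy => ?_
    obtain ⟨a, ha, rfl⟩ := List.mem_map.1 hy
    exact (h1 a ha).1
  · have h4 := List.sum_le_card_nsmul (x.map fun n : ℕ => ((n : ℝ) + β) ^ d) (Q ^ d) (fun y hy => by
      obtain ⟨a, ha, rfl⟩ := List.mem_map.1 hy
      exact (h1 a ha).2)
    rw [List.length_map, hs, nsmul_eq_mul] at h4
    exact h4

theorem blk_len (K : ℕ) (n : ℕ → ℕ) (r : ℕ → ℝ) (η P : ℝ) (v : ℕ) :
    Len (∑ l ∈ range v, n l) (blk K n r η P v) := by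
  induction v with
  | zero =>
    intro x hx
    rw [Finset.mem_singleton.1 hx]
    simp
  | succ v ih =>
    rw [Finset.sum_range_succ]
    exact Len_cat ih (lev_len _ _ _ _)

theorem blk_entry {k j K : ℕ} {n : ℕ → ℕ} {r : ℕ → ℝ} {η : ℝ} (h : Bl k j K n r η) {P : ℝ}
    (hP : 1 ≤ P) (v : ℕ) {x : List ℕ} (hx : x ∈ blk K n r η P v) {a : ℕ} (ha : a ∈ x) :
    (a : ℝ) ≤ P / 4 := by
  induction v generalizing x with
  | zero =>
    rw [Finset.mem_singleton.1 hx] at ha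
    exact absurd ha List.not_mem_nil
  | succ v ih =>
    obtain ⟨y, hy, z, hz, rfl⟩ := mem_cat.1 hx
    rcases List.mem_append.1 ha with h1 | h1
    · exact ih hy h1
    · have hK1 : 1 ≤ K := le_trans (by norm_num) h.hK
      have h2 : (0 : ℝ) ≤ P ^ la K v := Real.rpow_nonneg (by linarith) _
      have h3 := lev_entry h.hr h.hη h2 (fun i hi => h.hr4 i (lt_of_lt_of_le hi (h.hn v))) hz h1
      have h4 : P ^ la K v ≤ P := by
        have h5 := Real.rpow_le_rpow_of_exponent_le hP (la_le_one hK1 v)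
        rw [Real.rpow_one] at h5
        exact h5
      linarith

theorem blk_card {k j K : ℕ} {n : ℕ → ℕ} {r : ℕ → ℝ} {η : ℝ} (h : Bl k j K n r η) (v : ℕ) :
    ∃ c P₀ : ℝ, 0 < c ∧ 1 ≤ P₀ ∧ ∀ P : ℝ, P₀ ≤ P →
      c * P ^ (∑ l ∈ range v, (n l : ℝ) * la K l) ≤ ((blk K n r η P v).card : ℝ) := by
  have hK1 : 1 ≤ K := le_trans (by norm_num) h.hK
  induction v with
  | zero =>
    refine ⟨1, 1, one_pos, le_refl 1, fun P hP => ?_⟩
    rw [Finset.sum_range_zero, Real.rpow_zero, one_mul]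
    show (1 : ℝ) ≤ (({[]} : Finset (List ℕ)).card : ℝ)
    rw [Finset.card_singleton, Nat.cast_one]
  | succ v ih =>
    obtain ⟨c, P₀, hc, hP₀, hv⟩ := ih
    have hη := h.hη
    have hl := la_pos h.hK v
    refine ⟨c * (η / 2) ^ n v, max P₀ ((2 / η) ^ (1 / la K v)), by positivity, le_trans hP₀ (le_max_left _ _),
      fun P hP => ?_⟩
    have hP1 : P₀ ≤ P := le_trans (le_max_left _ _) hP
    have hP2 : (2 / η) ^ (1 / la K v) ≤ P := le_trans (le_max_right _ _) hP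
    have hP0 : 0 < P := by linarith
    have h1 : 2 / η ≤ P ^ la K v := by
      have h2 := Real.rpow_le_rpow (Real.rpow_nonneg (by positivity) _) hP2 hl.le
      rw [← Real.rpow_mul (by positivity), one_div_mul_cancel hl.ne', Real.rpow_one] at h2
      exact h2
    have h3 := lev_card (n v) r η (P ^ la K v) h.hr hη h1
    have h4 := hv P hP1
    have h5 : (blk K n r η P (v + 1)).card = (blk K n r η P v).card * (lev (n v) r η (P ^ la K v)).card :=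
      card_cat (blk_len K n r η P v)
    rw [h5, Nat.cast_mul, Finset.sum_range_succ, Real.rpow_add hP0]
    have h6 : P ^ ((n v : ℝ) * la K v) = (P ^ la K v) ^ n v := by
      rw [mul_comm, Real.rpow_mul hP0.le, Real.rpow_natCast]
    rw [h6]
    calc c * (η / 2) ^ n v * (P ^ (∑ l ∈ range v, (n l : ℝ) * la K l) * (P ^ la K v) ^ n v)
        = (c * P ^ (∑ l ∈ range v, (n l : ℝ) * la K l)) * (η / 2 * P ^ la K v) ^ n v := by
          rw [mul_pow]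
          ring
      _ ≤ ((blk K n r η P v).card : ℝ) * ((lev (n v) r η (P ^ la K v)).card : ℝ) :=
          mul_le_mul h4 h3 (by positivity) (Nat.cast_nonneg _)

/-- the two blocks satisfy the conditions of a block -/
theorem bl_BB {k j v t : ℕ} {r : ℕ → ℝ} {η ε κ : ℝ} (h : Cx k j v t r η ε κ) :
    Bl k j (k + 1 - j) (nB j (k + 1 - j)) r η := by
  have h1 := h.hj
  have h2 := h.hjk
  have h3 : 1 ≤ k + 1 - j := by omega
  refine ⟨by omega, by omega, by omega, by omega, fun l => ?_, h.hη, h.hr, h.hr4, h.hL⟩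
  unfold nB
  rw [Nat.ceil_le]
  exact mul_le_of_le_one_right (Nat.cast_nonneg j) (la_le_one h3 l)

theorem bl_HH {k j v t : ℕ} {r : ℕ → ℝ} {η ε κ : ℝ} (h : Cx k j v t r η ε κ) :
    Bl k 1 k (fun _ => 1) r η := by
  have h1 := h.hj
  have h2 := h.hjk
  refine ⟨le_refl 1, by omega, by omega, le_refl _, fun l => le_refl 1, h.hη, h.hr, fun i hi => h.hr4 i (by omega), ?_⟩
  obtain ⟨C, hC, h3⟩ := h.hL
  exact ⟨C, hC, fun n hn => h3 n (by omega)⟩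

end Pool.Agent.Lib.MP_570bef_ntWD
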