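import Mathlib
import Pool.Agent.Lib.MP_570bef_ntWD.LevA

/-!
# OneL: the count on one level, uniformly in the target (medium+)

Let C0 be the constant of h.hL, Q ≥ Q0 := max 2 (1/η), m ≤ j. The members of lev m r η Q are List.ofFn x,
x i ∈ [r i Q, (r i + η) Q]; y i := (x i + β)/Q ∈ [r i, r i + η + 1/Q] ⊂ [r i, r i + 2 η].
Ps (k-a) β (ofFn x) = ∑ (x i + β)^(k-a) = Q^(k-a) ∑ y i^(k-a), between 0 and m Q^(k-a) (Ps_bound).
Put x in the cell g(x) = (⌊(Ps (k-a) β x - c a)/Q^(k-a-1)⌋)_(a<m) ∈ ℤ^m. For a member counted,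
|(Ps - c a)/Q^(k-a-1)| ≤ T a/Q^(k-a-1), so the a-th coordinate takes at most 2 T a/Q^(k-a-1) + 2 values, and also,
as Ps/Q^(k-a-1) ∈ [0, m Q], at most m Q + 2 ≤ (m+2) Q values; so at most
(2 j + 4) min Q (1 + T a/Q^(k-a-1)) values, and the number of cells is at most the product.
Two members x, x' of the same cell: |Ps (k-a) β x - Ps (k-a) β x'| ≤ Q^(k-a-1), so
|∑ y^(k-a) - ∑ y'^(k-a)| ≤ 1/Q, hence |x i - x' i| = Q |y i - y' i| ≤ C0 m ≤ C0 j: a cell has at most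
(2 C0 j + 1)^m ≤ (2 C0 j + 2)^j members. Finset.card_le_mul_card_image (or card_le_mul_card_image_of_maps_to).
-/

set_option autoImplicit false

open Finset Real
open Pool.Agent.Lib.MP_2a816b_nt (e norm_e conj_e e_add e_neg)

namespace Pool.Agent.Lib.MP_570bef_ntWD

private theorem OneL_psl (d : ℕ) (β : ℝ) (x : List ℕ) :
    Ps d β x = (x.map fun n : ℕ => ((n : ℝ) + β) ^ d).sum := by
  unfold Ps
  induction x with
  | nil => rfl
  | cons a l ih =>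
    simp only [List.map_cons, List.sum_cons]
    rw [← ih]
    rfl

private theorem OneL_ps (d : ℕ) (β : ℝ) {m : ℕ} (x : Fin m → ℕ) :
    Ps d β (List.ofFn x) = ∑ i, ((x i : ℝ) + β) ^ d := by
  rw [OneL_psl, List.map_ofFn, List.sum_ofFn]
  rfl

/-- the number of integers between two floors -/
private theorem OneL_icc {u v : ℝ} (huv : u ≤ v) : ((Icc ⌊u⌋ ⌊v⌋).card : ℝ) ≤ v - u + 2 := by
  rw [Int.card_Icc]
  have h0 : (0 : ℤ) ≤ ⌊v⌋ + 1 - ⌊u⌋ := by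
    have := Int.floor_le_floor huv
    omega
  have h1 : (((⌊v⌋ + 1 - ⌊u⌋).toNat : ℕ) : ℝ) = (⌊v⌋ : ℝ) + 1 - (⌊u⌋ : ℝ) := by
    have h2 : (((⌊v⌋ + 1 - ⌊u⌋).toNat : ℕ) : ℤ) = ⌊v⌋ + 1 - ⌊u⌋ := Int.toNat_of_nonneg h0
    have h3 := congrArg (fun z : ℤ => (z : ℝ)) h2
    push_cast at h3
    exact h3
  rw [h1]
  have h4 := Int.floor_le v
  have h5 := Int.lt_floor_add_one u
  linarith

/-- membership in one level -/
private theorem OneL_iv {r η Q : ℝ} {n : ℕ} (hn : n ∈ iv r η Q) (h0 : 0 ≤ (r + η) * Q) :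
    r * Q ≤ n ∧ (n : ℝ) ≤ (r + η) * Q := by
  unfold iv at hn
  obtain ⟨h1, h2⟩ := Finset.mem_Icc.1 hn
  exact ⟨Nat.ceil_le.1 h1, (Nat.le_floor_iff h0).1 h2⟩

/-- two members of the same cell are near to each other -/
private theorem OneL_near {k j m : ℕ} {r : ℕ → ℝ} {η Q β C0 : ℝ} (hm : m ≤ j) (hjk : j + 1 ≤ k)
    (hr : ∀ i, 0 < r i) (hη : 0 < η) (hQ : 2 ≤ Q) (hQη : 1 / η ≤ Q) (hβ : 0 ≤ β) (hβ1 : β ≤ 1) (hC0 : 0 < C0)
    (hL : ∀ n ≤ j, ∀ y y' : Fin n → ℝ,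
    (∀ i : Fin n, r i ≤ y i ∧ y i ≤ r i + 2 * η) → (∀ i : Fin n, r i ≤ y' i ∧ y' i ≤ r i + 2 * η) →
    ∀ i, |y i - y' i| ≤ C0 * ∑ a : Fin n, |∑ l, y l ^ (k - (a : ℕ)) - ∑ l, y' l ^ (k - (a : ℕ))|)
    (x x' : Fin m → ℕ) (hx : ∀ i : Fin m, x i ∈ iv (r i) η Q) (hx' : ∀ i : Fin m, x' i ∈ iv (r i) η Q)
    (hd : ∀ a : Fin m, |Ps (k - a) β (List.ofFn x) - Ps (k - a) β (List.ofFn x')| ≤ Q ^ (k - (a : ℕ) - 1)) (i : Fin m) :
    |(x i : ℝ) - x' i| ≤ C0 * j := by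
  have hQ0 : 0 < Q := by linarith
  have hQi : 1 / Q ≤ η := by
    rw [div_le_iff₀ hQ0]
    rw [div_le_iff₀ hη] at hQη
    linarith [mul_comm Q η]
  have box : ∀ z : Fin m → ℕ, (∀ i : Fin m, z i ∈ iv (r i) η Q) → ∀ i : Fin m, r i ≤ ((z i : ℝ) + β) / Q ∧
      ((z i : ℝ) + β) / Q ≤ r i + 2 * η := by
    intro z hz i
    have h0 : 0 ≤ (r i + η) * Q := mul_nonneg (add_nonneg (hr _).le hη.le) hQ0.le
    obtain ⟨h1, h2⟩ := OneL_iv (hz i) h0
    constructor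
    · rw [le_div_iff₀ hQ0]
      linarith
    · rw [add_div]
      have h3 : (z i : ℝ) / Q ≤ r i + η := by
        rw [div_le_iff₀ hQ0]
        exact h2
      have h4 : β / Q ≤ 1 / Q := div_le_div_of_nonneg_right hβ1 hQ0.le
      linarith
  have h1 := hL m hm (fun i => ((x i : ℝ) + β) / Q) (fun i => ((x' i : ℝ) + β) / Q) (box x hx) (box x' hx') i
  have h2 : ∀ a : Fin m, |∑ l, (((x l : ℝ) + β) / Q) ^ (k - (a : ℕ)) - ∑ l, (((x' l : ℝ) + β) / Q) ^ (k - (a : ℕ))| ≤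
      1 / Q := by
    intro a
    have h3 := hd a
    rw [OneL_ps, OneL_ps] at h3
    have h4 : ∀ z : Fin m → ℕ, ∑ l, (((z l : ℝ) + β) / Q) ^ (k - (a : ℕ)) =
        (∑ l, ((z l : ℝ) + β) ^ (k - (a : ℕ))) / Q ^ (k - (a : ℕ)) := by
      intro z
      rw [Finset.sum_div]
      exact Finset.sum_congr rfl fun l _ => by rw [div_pow]
    rw [h4, h4, ← sub_div, abs_div, abs_of_pos (pow_pos hQ0 _), div_le_iff₀ (pow_pos hQ0 _)]
    have ha : (a : ℕ) < m := a.2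
    have h5 : k - (a : ℕ) = (k - (a : ℕ) - 1) + 1 := by omega
    refine h3.trans (le_of_eq ?_)
    rw [h5, pow_succ, show k - (a : ℕ) - 1 + 1 - 1 = k - (a : ℕ) - 1 by omega]
    field_simp
  have h6 : ∑ a : Fin m, |∑ l, (((x l : ℝ) + β) / Q) ^ (k - (a : ℕ)) - ∑ l, (((x' l : ℝ) + β) / Q) ^ (k - (a : ℕ))| ≤
      m * (1 / Q) := by
    refine (Finset.sum_le_sum fun a _ => h2 a).trans (le_of_eq ?_)
    rw [Finset.sum_const, Finset.card_univ, Fintype.card_fin, nsmul_eq_mul]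
  have h7 : |((x i : ℝ) + β) / Q - ((x' i : ℝ) + β) / Q| ≤ C0 * (m * (1 / Q)) :=
    h1.trans (mul_le_mul_of_nonneg_left h6 hC0.le)
  have h8 : ((x i : ℝ) + β) / Q - ((x' i : ℝ) + β) / Q = ((x i : ℝ) - x' i) / Q := by
    ring
  rw [h8, abs_div, abs_of_pos hQ0, div_le_iff₀ hQ0] at h7
  have h9 : C0 * (m * (1 / Q)) * Q = C0 * m := by
    field_simp
  rw [h9] at h7
  exact h7.trans (mul_le_mul_of_nonneg_left (Nat.cast_le.2 hm) hC0.le)

theorem one_level {k j K : ℕ} {n : ℕ → ℕ} {r : ℕ → ℝ} {η : ℝ} (h : Bl k j K n r η) :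
    ∃ C Q₀ : ℝ, 0 < C ∧ 2 ≤ Q₀ ∧ ∀ m : ℕ, m ≤ j → ∀ Q : ℝ, Q₀ ≤ Q → ∀ β : ℝ, 0 ≤ β → β ≤ 1 →
      ∀ T c : ℕ → ℝ, (∀ i, 0 ≤ T i) → (Nm k m β (lev m r η Q) c T : ℝ) ≤
        C * ∏ i ∈ range m, min Q (1 + T i / Q ^ (k - i - 1)) := by
  classical
  obtain ⟨C0, hC0, hL⟩ := h.hL
  set M : ℕ := ⌊C0 * j⌋₊ with hM
  refine ⟨(2 * M + 1) ^ j * (2 * j + 4) ^ j, max 2 (1 / η), by positivity, le_max_left _ _,
    fun m hm Q hQ β hβ hβ1 T c hT => ?_⟩
  have hQ2 : 2 ≤ Q := (le_max_left _ _).trans hQ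
  have hQη : 1 / η ≤ Q := (le_max_right _ _).trans hQ
  have hQ0 : 0 < Q := by linarith
  set S : Finset (Fin m → ℕ) := (Fintype.piFinset fun i : Fin m => iv (r i) η Q).filter fun x =>
    ∀ i < m, |Ps (k - i) β (List.ofFn x) - c i| ≤ T i with hS
  have h1 : Nm k m β (lev m r η Q) c T ≤ S.card := by
    unfold Nm lev
    refine (Finset.card_le_card (t := S.image List.ofFn) ?_).trans Finset.card_image_le
    intro l hl
    obtain ⟨h2, h3⟩ := Finset.mem_filter.1 hl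
    obtain ⟨x, hx, rfl⟩ := Finset.mem_image.1 h2
    exact Finset.mem_image.2 ⟨x, Finset.mem_filter.2 ⟨hx, h3⟩, rfl⟩
  -- the cells
  set g : (Fin m → ℕ) → Fin m → ℤ := fun x a =>
    ⌊(Ps (k - a) β (List.ofFn x) - c a) / Q ^ (k - (a : ℕ) - 1)⌋ with hg
  have hSx : ∀ x ∈ S, ∀ i : Fin m, x i ∈ iv (r i) η Q := fun x hx => Fintype.mem_piFinset.1 (Finset.mem_filter.1 hx).1
  have hfib : ∀ b ∈ S.image g, (S.filter fun x => g x = b).card ≤ (2 * M + 1) ^ j := by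
    intro b hb
    obtain ⟨x0, hx0, hb0⟩ := Finset.mem_image.1 hb
    have hsub : (S.filter fun x => g x = b) ⊆
        Fintype.piFinset fun i : Fin m => Finset.Icc (x0 i - M) (x0 i + M) := by
      intro x hx
      obtain ⟨hxS, hxb⟩ := Finset.mem_filter.1 hx
      have hd : ∀ a : Fin m, |Ps (k - a) β (List.ofFn x) - Ps (k - a) β (List.ofFn x0)| ≤ Q ^ (k - (a : ℕ) - 1) := by
        intro a
        have hq : 0 < Q ^ (k - (a : ℕ) - 1) := pow_pos hQ0 _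
        have h4 : ⌊(Ps (k - a) β (List.ofFn x) - c a) / Q ^ (k - (a : ℕ) - 1)⌋ =
            ⌊(Ps (k - a) β (List.ofFn x0) - c a) / Q ^ (k - (a : ℕ) - 1)⌋ := by
          have h5 : g x a = g x0 a := by rw [hxb, hb0]
          exact h5
        have h6 := (Int.abs_sub_lt_one_of_floor_eq_floor h4).le
        rw [← sub_div, abs_div, abs_of_pos hq, div_le_iff₀ hq, one_mul] at h6
        have h7 : Ps (k - a) β (List.ofFn x) - Ps (k - a) β (List.ofFn x0) =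
            Ps (k - a) β (List.ofFn x) - c a - (Ps (k - a) β (List.ofFn x0) - c a) := by ring
        rw [h7]
        exact h6
      have hnear := OneL_near hm h.hjk h.hr h.hη hQ2 hQη hβ hβ1 hC0 hL x x0 (hSx x hxS) (hSx x0 hx0) hd
      refine Fintype.mem_piFinset.2 fun i => Finset.mem_Icc.2 ?_
      have h8 := abs_le.1 (hnear i)
      have h9 : C0 * j < (M : ℝ) + 1 := Nat.lt_floor_add_one _
      constructor
      · by_contra hlt
        have h10 : x i + M + 1 ≤ x0 i := by omega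
        have h11 : (x i : ℝ) + M + 1 ≤ x0 i := by exact_mod_cast h10
        linarith [h8.1]
      · by_contra hlt
        have h10 : x0 i + M + 1 ≤ x i := by omega
        have h11 : (x0 i : ℝ) + M + 1 ≤ x i := by exact_mod_cast h10
        linarith [h8.2]
    refine (Finset.card_le_card hsub).trans ?_
    rw [Fintype.card_piFinset]
    calc ∏ i : Fin m, (Finset.Icc (x0 i - M) (x0 i + M)).card ≤ ∏ _i : Fin m, (2 * M + 1) :=
          Finset.prod_le_prod' fun i _ => by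
            rw [Nat.card_Icc]
            omega
      _ = (2 * M + 1) ^ m := by rw [Finset.prod_const, Finset.card_univ, Fintype.card_fin]
      _ ≤ (2 * M + 1) ^ j := Nat.pow_le_pow_right (by omega) hm
  have h12 : S.card ≤ (2 * M + 1) ^ j * (S.image g).card := Finset.card_le_mul_card_image S _ hfib
  -- the number of cells
  set B : Fin m → Finset ℤ := fun a =>
    Finset.Icc ⌊-(T a / Q ^ (k - (a : ℕ) - 1))⌋ ⌊T a / Q ^ (k - (a : ℕ) - 1)⌋ ∩
    Finset.Icc ⌊-c a / Q ^ (k - (a : ℕ) - 1)⌋ ⌊(m * Q ^ (k - (a : ℕ)) - c a) / Q ^ (k - (a : ℕ) - 1)⌋ with hB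
  have himg : S.image g ⊆ Fintype.piFinset B := by
    intro b hb
    obtain ⟨x, hx, rfl⟩ := Finset.mem_image.1 hb
    refine Fintype.mem_piFinset.2 fun a => ?_
    have hq : 0 < Q ^ (k - (a : ℕ) - 1) := pow_pos hQ0 _
    have h2 := abs_le.1 ((Finset.mem_filter.1 hx).2 a a.2)
    have hent : ∀ z ∈ List.ofFn x, (z : ℝ) ≤ Q / 4 := fun z hz =>
      lev_entry h.hr h.hη hQ0.le (fun i hi => h.hr4 i (lt_of_lt_of_le hi hm))
        (Finset.mem_image.2 ⟨x, (Finset.mem_filter.1 hx).1, rfl⟩) hz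
    obtain ⟨h3, h4⟩ := Ps_bound (List.length_ofFn (f := x)) hβ hβ1 hQ2 hent (k - a)
    refine Finset.mem_inter.2 ⟨Finset.mem_Icc.2 ⟨?_, ?_⟩, Finset.mem_Icc.2 ⟨?_, ?_⟩⟩
    · refine Int.floor_le_floor ?_
      rw [← neg_div]
      exact div_le_div_of_nonneg_right h2.1 hq.le
    · exact Int.floor_le_floor (div_le_div_of_nonneg_right h2.2 hq.le)
    · exact Int.floor_le_floor (div_le_div_of_nonneg_right (by linarith) hq.le)
    · exact Int.floor_le_floor (div_le_div_of_nonneg_right (by linarith) hq.le)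
  have hBc : ∀ a : Fin m, ((B a).card : ℝ) ≤ (2 * j + 4) * min Q (1 + T a / Q ^ (k - (a : ℕ) - 1)) := by
    intro a
    have hq : 0 < Q ^ (k - (a : ℕ) - 1) := pow_pos hQ0 _
    have ht : 0 ≤ T a / Q ^ (k - (a : ℕ) - 1) := div_nonneg (hT _) hq.le
    have hmR : (m : ℝ) ≤ j := Nat.cast_le.2 hm
    have hj0 : (0 : ℝ) ≤ j := Nat.cast_nonneg _
    have h1' : ((B a).card : ℝ) ≤ 2 * (T a / Q ^ (k - (a : ℕ) - 1)) + 2 := by
      have h2 : ((B a).card : ℝ) ≤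
          ((Finset.Icc ⌊-(T a / Q ^ (k - (a : ℕ) - 1))⌋ ⌊T a / Q ^ (k - (a : ℕ) - 1)⌋).card : ℝ) :=
        Nat.cast_le.2 (Finset.card_le_card Finset.inter_subset_left)
      have h3 := OneL_icc (u := -(T a / Q ^ (k - (a : ℕ) - 1))) (v := T a / Q ^ (k - (a : ℕ) - 1)) (by linarith)
      linarith
    have h2' : ((B a).card : ℝ) ≤ m * Q + 2 := by
      have h2 : ((B a).card : ℝ) ≤ ((Finset.Icc ⌊-c a / Q ^ (k - (a : ℕ) - 1)⌋
          ⌊(m * Q ^ (k - (a : ℕ)) - c a) / Q ^ (k - (a : ℕ) - 1)⌋).card : ℝ) :=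
        Nat.cast_le.2 (Finset.card_le_card Finset.inter_subset_right)
      have ha : (a : ℕ) < m := a.2
      have hjk := h.hjk
      have h5 : Q ^ (k - (a : ℕ)) = Q ^ (k - (a : ℕ) - 1) * Q := by
        rw [← pow_succ]
        congr 1
        omega
      have h6 : (m * Q ^ (k - (a : ℕ)) - c a) / Q ^ (k - (a : ℕ) - 1) = m * Q + -c a / Q ^ (k - (a : ℕ) - 1) := by
        rw [h5]
        field_simp
        ring
      have h7 : (0 : ℝ) ≤ m * Q := by positivity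
      have h3 := OneL_icc (u := -c a / Q ^ (k - (a : ℕ) - 1))
        (v := (m * Q ^ (k - (a : ℕ)) - c a) / Q ^ (k - (a : ℕ) - 1)) (by rw [h6]; linarith)
      have h8 : (m * Q ^ (k - (a : ℕ)) - c a) / Q ^ (k - (a : ℕ) - 1) - -c a / Q ^ (k - (a : ℕ) - 1) = m * Q := by
        rw [h6]
        ring
      linarith
    rw [mul_min_of_nonneg _ _ (by positivity)]
    refine le_min (h2'.trans ?_) (h1'.trans ?_)
    · nlinarith
    · nlinarith
  have h13 : ((S.image g).card : ℝ) ≤ ∏ a : Fin m, ((2 * j + 4) * min Q (1 + T a / Q ^ (k - (a : ℕ) - 1))) := by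
    have h14 : (S.image g).card ≤ ∏ a : Fin m, (B a).card := by
      rw [← Fintype.card_piFinset]
      exact Finset.card_le_card himg
    refine (Nat.cast_le.2 h14).trans ?_
    rw [Nat.cast_prod]
    exact Finset.prod_le_prod (fun a _ => Nat.cast_nonneg _) fun a _ => hBc a
  have h15 : ∏ a : Fin m, ((2 * (j : ℝ) + 4) * min Q (1 + T a / Q ^ (k - (a : ℕ) - 1))) =
      (2 * (j : ℝ) + 4) ^ m * ∏ i ∈ range m, min Q (1 + T i / Q ^ (k - i - 1)) := by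
    rw [Finset.prod_mul_distrib, Finset.prod_const, Finset.card_univ, Fintype.card_fin, Finset.prod_range]
  have hprod : 0 ≤ ∏ i ∈ range m, min Q (1 + T i / Q ^ (k - i - 1)) :=
    Finset.prod_nonneg fun i _ => le_min hQ0.le (add_nonneg zero_le_one (div_nonneg (hT _) (pow_pos hQ0 _).le))
  have h16 : (2 * (j : ℝ) + 4) ^ m ≤ (2 * (j : ℝ) + 4) ^ j :=
    pow_le_pow_right₀ (by linarith [Nat.cast_nonneg (α := ℝ) j]) hm
  calc (Nm k m β (lev m r η Q) c T : ℝ) ≤ (S.card : ℝ) := Nat.cast_le.2 h1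
    _ ≤ (((2 * M + 1) ^ j * (S.image g).card : ℕ) : ℝ) := Nat.cast_le.2 h12
    _ = (2 * (M : ℝ) + 1) ^ j * ((S.image g).card : ℝ) := by push_cast; ring
    _ ≤ (2 * (M : ℝ) + 1) ^ j *
        ((2 * (j : ℝ) + 4) ^ m * ∏ i ∈ range m, min Q (1 + T i / Q ^ (k - i - 1))) := by
        rw [← h15]
        exact mul_le_mul_of_nonneg_left h13 (by positivity)
    _ ≤ (2 * (M : ℝ) + 1) ^ j *
        ((2 * (j : ℝ) + 4) ^ j * ∏ i ∈ range m, min Q (1 + T i / Q ^ (k - i - 1))) :=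
        mul_le_mul_of_nonneg_left (mul_le_mul_of_nonneg_right h16 hprod) (by positivity)
    _ = _ := by ring

end Pool.Agent.Lib.MP_570bef_ntWD
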