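import Mathlib
import Pool.Agent.Lib.MP_570bef_ntWD.OneL
import Pool.Agent.Lib.MP_570bef_ntWD.NmC

/-!
# CntB: the count on a block (medium)

Induction on v. v = 0: Nm ≤ card {[]} = 1. Step: blk (v+1) = cat (blk v) (lev (n v) r η Q), Q = P^(la K v) (P large
so that Q ≥ Q0 of one_level, la_pos). For y ∈ lev: |Ps (k-i) β y| ≤ U i := j Q^(k-i) (Ps_bound, lev_entry,
n v ≤ j). Nm_cat with M1 = the bound of the induction hypothesis for T + U, M2 = the bound of one_level for m = n v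
(Nm_less from j to n v equations). For l < v: Q_l = P^(la K l), la K v ≤ la K (l+1) = (1 - 1/K) la K l, and for i < j:
(1 - 1/K)(k - i) ≤ k - i - 1 since K ≤ k + 1 - j ≤ k - i; so Q^(k-i) = P^(la K v (k-i)) ≤ Q_l^(k-i-1) (P ≥ 1), and
1 + (T i + U i)/Q_l^(k-i-1) ≤ (1 + j)(1 + T i/Q_l^(k-i-1)); min (Q_l) ((1+j) z) ≤ (1+j) min Q_l z. So the bound of the
induction hypothesis grows at most by the factor ((1+j)^j)^v.
-/

set_option autoImplicit false

open Finset Real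
open Pool.Agent.Lib.MP_2a816b_nt (e norm_e conj_e e_add e_neg)

namespace Pool.Agent.Lib.MP_570bef_ntWD

private theorem CntB_min {a z w J : ℝ} (ha : 0 ≤ a) (hJ : 0 ≤ J) (hw : w ≤ (1 + J) * z) :
    min a w ≤ (1 + J) * min a z := by
  rcases le_total a z with h | h
  · rw [min_eq_left h]
    refine (min_le_left _ _).trans ?_
    nlinarith [mul_nonneg hJ ha]
  · rw [min_eq_right h]
    exact (min_le_right _ _).trans hw

private theorem CntB_pow {k j K : ℕ} (hK : 2 ≤ K) (hKk : K + j ≤ k + 1) {P : ℝ} (hP : 1 ≤ P) {l v i : ℕ}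
    (hl : l < v) (hi : i < j) : (P ^ la K v) ^ (k - i) ≤ (P ^ la K l) ^ (k - i - 1) := by
  have hP0 : 0 ≤ P := zero_le_one.trans hP
  rw [← Real.rpow_natCast (P ^ la K v), ← Real.rpow_natCast (P ^ la K l), ← Real.rpow_mul hP0,
    ← Real.rpow_mul hP0]
  apply Real.rpow_le_rpow_of_exponent_le hP
  obtain ⟨m, hm⟩ : ∃ m, m = k - i := ⟨_, rfl⟩
  rw [← hm]
  have hKm : K ≤ m := by omega
  have hm1 : ((m - 1 : ℕ) : ℝ) = (m : ℝ) - 1 := by
    rw [Nat.cast_sub (by omega), Nat.cast_one]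
  have hK0 : (0 : ℝ) < K := by
    have : 0 < K := by omega
    exact_mod_cast this
  have hK1 : (1 : ℝ) ≤ K := by
    have : 1 ≤ K := by omega
    exact_mod_cast this
  have h0 : (0 : ℝ) ≤ 1 - 1 / (K : ℝ) := by
    rw [sub_nonneg, div_le_one hK0]
    exact hK1
  have h1 : (1 : ℝ) - 1 / (K : ℝ) ≤ 1 := by
    have : (0 : ℝ) ≤ 1 / (K : ℝ) := by positivity
    linarith
  have h2 : la K v ≤ la K l * (1 - 1 / (K : ℝ)) := by
    unfold la
    rw [← pow_succ]
    exact pow_le_pow_of_le_one h0 h1 hl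
  have h3 : (1 : ℝ) ≤ (m : ℝ) / K := by
    rw [one_le_div hK0]
    exact_mod_cast hKm
  rw [hm1]
  calc la K v * (m : ℝ) ≤ la K l * (1 - 1 / (K : ℝ)) * m :=
        mul_le_mul_of_nonneg_right h2 (Nat.cast_nonneg m)
    _ = la K l * ((m : ℝ) - m / K) := by ring
    _ ≤ la K l * ((m : ℝ) - 1) := mul_le_mul_of_nonneg_left (by linarith) (la_nonneg (by omega) l)

/-- one factor of the bound of the induction hypothesis -/
private theorem CntB_fac {k j K : ℕ} (hK : 2 ≤ K) (hKk : K + j ≤ k + 1) {P : ℝ} (hP : 1 ≤ P) {l v i : ℕ}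
    (hl : l < v) (hi : i < j) {t : ℝ} (ht : 0 ≤ t) :
    min (P ^ la K l) (1 + (t + j * (P ^ la K v) ^ (k - i)) / (P ^ la K l) ^ (k - i - 1)) ≤
      (1 + (j : ℝ)) * min (P ^ la K l) (1 + t / (P ^ la K l) ^ (k - i - 1)) := by
  have hP0 : 0 < P := zero_lt_one.trans_le hP
  have hb : 0 < (P ^ la K l) ^ (k - i - 1) := pow_pos (Real.rpow_pos_of_pos hP0 _) _
  refine CntB_min (Real.rpow_pos_of_pos hP0 _).le (Nat.cast_nonneg j) ?_
  have h1 := CntB_pow hK hKk hP hl hi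
  have h2 : (j : ℝ) * (P ^ la K v) ^ (k - i) / (P ^ la K l) ^ (k - i - 1) ≤ j := by
    rw [div_le_iff₀ hb]
    exact mul_le_mul_of_nonneg_left h1 (Nat.cast_nonneg j)
  have h3 : 0 ≤ t / (P ^ la K l) ^ (k - i - 1) := div_nonneg ht hb.le
  rw [add_div]
  nlinarith [mul_nonneg (Nat.cast_nonneg (α := ℝ) j) h3]

private theorem CntB_prod {k j K : ℕ} {n : ℕ → ℕ} (hK : 2 ≤ K) (hKk : K + j ≤ k + 1) (hn : ∀ l, n l ≤ j)
    {P : ℝ} (hP : 1 ≤ P) (v : ℕ) {T : ℕ → ℝ} (hT : ∀ i, 0 ≤ T i) :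
    ∏ l ∈ range v, ∏ i ∈ range (n l),
        min (P ^ la K l) (1 + (T i + j * (P ^ la K v) ^ (k - i)) / (P ^ la K l) ^ (k - i - 1)) ≤
      ((1 + (j : ℝ)) ^ j) ^ v * ∏ l ∈ range v, ∏ i ∈ range (n l),
        min (P ^ la K l) (1 + T i / (P ^ la K l) ^ (k - i - 1)) := by
  have hP0 : 0 < P := zero_lt_one.trans_le hP
  have hj1 : (1 : ℝ) ≤ 1 + (j : ℝ) := by
    have : (0 : ℝ) ≤ j := Nat.cast_nonneg j
    linarith
  have hpos : ∀ l i, ∀ t : ℝ, 0 ≤ t → 0 ≤ min (P ^ la K l) (1 + t / (P ^ la K l) ^ (k - i - 1)) := by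
    intro l i t ht
    have h1 : 0 < P ^ la K l := Real.rpow_pos_of_pos hP0 _
    exact le_min h1.le (by positivity)
  have hU : ∀ i, 0 ≤ T i + j * (P ^ la K v) ^ (k - i) := by
    intro i
    have h1 : 0 < P ^ la K v := Real.rpow_pos_of_pos hP0 _
    have h2 := hT i
    positivity
  have h1 : ∀ l ∈ range v, ∏ i ∈ range (n l),
        min (P ^ la K l) (1 + (T i + j * (P ^ la K v) ^ (k - i)) / (P ^ la K l) ^ (k - i - 1)) ≤
      (1 + (j : ℝ)) ^ j * ∏ i ∈ range (n l), min (P ^ la K l) (1 + T i / (P ^ la K l) ^ (k - i - 1)) := by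
    intro l hl
    rw [Finset.mem_range] at hl
    calc _ ≤ ∏ i ∈ range (n l), ((1 + (j : ℝ)) * min (P ^ la K l) (1 + T i / (P ^ la K l) ^ (k - i - 1))) := by
          refine Finset.prod_le_prod (fun i _ => hpos l i _ (hU i)) fun i hi => ?_
          rw [Finset.mem_range] at hi
          exact CntB_fac hK hKk hP hl (hi.trans_le (hn l)) (hT i)
      _ = (1 + (j : ℝ)) ^ n l * ∏ i ∈ range (n l), min (P ^ la K l) (1 + T i / (P ^ la K l) ^ (k - i - 1)) := by
          rw [Finset.prod_mul_distrib, Finset.prod_const, Finset.card_range]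
      _ ≤ _ := mul_le_mul_of_nonneg_right (pow_le_pow_right₀ hj1 (hn l))
          (Finset.prod_nonneg fun i _ => hpos l i _ (hT i))
  calc _ ≤ ∏ l ∈ range v, ((1 + (j : ℝ)) ^ j *
        ∏ i ∈ range (n l), min (P ^ la K l) (1 + T i / (P ^ la K l) ^ (k - i - 1))) :=
        Finset.prod_le_prod (fun l _ => Finset.prod_nonneg fun i _ => hpos l i _ (hU i)) h1
    _ = _ := by
        rw [Finset.prod_mul_distrib, Finset.prod_const, Finset.card_range]

theorem cnt_blk {k j K : ℕ} {n : ℕ → ℕ} {r : ℕ → ℝ} {η : ℝ} (h : Bl k j K n r η) (v : ℕ) :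
    ∃ C P₀ : ℝ, 0 < C ∧ 1 ≤ P₀ ∧ ∀ P : ℝ, P₀ ≤ P → ∀ β : ℝ, 0 ≤ β → β ≤ 1 →
      ∀ T c : ℕ → ℝ, (∀ i, 0 ≤ T i) → (Nm k j β (blk K n r η P v) c T : ℝ) ≤
        C * ∏ l ∈ range v, ∏ i ∈ range (n l),
          min (P ^ la K l) (1 + T i / (P ^ la K l) ^ (k - i - 1)) := by
  induction v with
  | zero =>
    refine ⟨1, 1, one_pos, le_rfl, fun P _ β _ _ T c _ => ?_⟩
    rw [Finset.range_zero, Finset.prod_empty, mul_one]
    have h1 : Nm k j β (blk K n r η P 0) c T ≤ 1 := by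
      unfold Nm
      refine (Finset.card_filter_le _ _).trans ?_
      show ({[]} : Finset (List ℕ)).card ≤ 1
      rw [Finset.card_singleton]
    exact_mod_cast h1
  | succ v ih =>
    obtain ⟨C1, P1, hC1, hP1, h1⟩ := ih
    obtain ⟨C2, Q0, hC2, hQ0, h2⟩ := one_level h
    have hla : 0 < la K v := la_pos h.hK v
    have hC : 0 < C1 * ((1 + (j : ℝ)) ^ j) ^ v * C2 := by positivity
    refine ⟨C1 * ((1 + (j : ℝ)) ^ j) ^ v * C2, max P1 (Q0 ^ (1 / la K v)), hC, hP1.trans (le_max_left _ _),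
      fun P hP β hβ hβ1 T c hT => ?_⟩
    have hPP1 : P1 ≤ P := (le_max_left _ _).trans hP
    have hPP2 : Q0 ^ (1 / la K v) ≤ P := (le_max_right _ _).trans hP
    have hP1' : 1 ≤ P := hP1.trans hPP1
    have hP0 : 0 < P := zero_lt_one.trans_le hP1'
    have hQ00 : 0 ≤ Q0 := by linarith
    have hQ : Q0 ≤ P ^ la K v := by
      have h3 := Real.rpow_le_rpow (Real.rpow_nonneg hQ00 _) hPP2 hla.le
      rw [← Real.rpow_mul hQ00, one_div_mul_cancel hla.ne', Real.rpow_one] at h3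
      exact h3
    have hQ2 : 2 ≤ P ^ la K v := hQ0.trans hQ
    have hU : ∀ y ∈ lev (n v) r η (P ^ la K v), ∀ i < j,
        |Ps (k - i) β y| ≤ j * (P ^ la K v) ^ (k - i) := by
      intro y hy i _
      have hlen : y.length = n v := lev_len (n v) r η (P ^ la K v) y hy
      have h3 := Ps_bound hlen hβ hβ1 hQ2
        (fun a ha => lev_entry h.hr h.hη (by linarith) (fun i hi => h.hr4 i (hi.trans_le (h.hn v))) hy ha) (k - i)
      rw [abs_of_nonneg h3.1]
      refine h3.2.trans (mul_le_mul_of_nonneg_right ?_ (by positivity))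
      exact_mod_cast h.hn v
    have hTU : ∀ i, 0 ≤ T i + j * (P ^ la K v) ^ (k - i) := by
      intro i
      have h3 := hT i
      have h4 : 0 < P ^ la K v := by linarith
      positivity
    have hpos : ∀ l i, 0 ≤ min (P ^ la K l) (1 + T i / (P ^ la K l) ^ (k - i - 1)) := by
      intro l i
      have h3 : 0 < P ^ la K l := Real.rpow_pos_of_pos hP0 _
      have h4 := hT i
      exact le_min h3.le (by positivity)
    have hM2 : 0 ≤ C2 * ∏ i ∈ range (n v), min (P ^ la K v) (1 + T i / (P ^ la K v) ^ (k - i - 1)) :=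
      mul_nonneg hC2.le (Finset.prod_nonneg fun i _ => hpos v i)
    have hstep := Nm_cat T (fun i => (j : ℝ) * (P ^ la K v) ^ (k - i)) hU
      (C1 * ∏ l ∈ range v, ∏ i ∈ range (n l),
        min (P ^ la K l) (1 + (T i + j * (P ^ la K v) ^ (k - i)) / (P ^ la K l) ^ (k - i - 1)))
      (C2 * ∏ i ∈ range (n v), min (P ^ la K v) (1 + T i / (P ^ la K v) ^ (k - i - 1))) hM2
      (fun c => h1 P hPP1 β hβ hβ1 (fun i => T i + j * (P ^ la K v) ^ (k - i)) c hTU)
      (fun c => le_trans (by exact_mod_cast Nm_less k j (n v) (h.hn v) β _ c T)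
        (h2 (n v) (h.hn v) (P ^ la K v) hQ β hβ hβ1 T c hT)) c
    have hprod := CntB_prod h.hK h.hKk h.hn hP1' v hT
    refine hstep.trans ?_
    rw [Finset.prod_range_succ]
    calc _ ≤ C1 * (((1 + (j : ℝ)) ^ j) ^ v * ∏ l ∈ range v, ∏ i ∈ range (n l),
            min (P ^ la K l) (1 + T i / (P ^ la K l) ^ (k - i - 1))) *
          (C2 * ∏ i ∈ range (n v), min (P ^ la K v) (1 + T i / (P ^ la K v) ^ (k - i - 1))) :=
          mul_le_mul_of_nonneg_right (mul_le_mul_of_nonneg_left hprod hC1.le) hM2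
      _ = _ := by ring

end Pool.Agent.Lib.MP_570bef_ntWD
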