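import Mathlib
import Pool.Agent.Lib.MP_570bef_ntWD.CntB

/-!
# CntE: the count in terms of exponents (easy+)

cnt_blk with T i = P^(D i), and blk_card. With x = la K l, Q = P^x, i < n l ≤ j < k:
T i/Q^(k-i-1) = P^(D i - x (k-i-1)), 1 + P^z ≤ 2 P^(max 0 z), min (P^x) (2 P^(max 0 z)) ≤ 2 P^(min x (max 0 z)) =
2 P^(ex k i (D i) x) (P ≥ 1). So Nm ≤ C 2^(number of factors) P^(∑∑ ex), the number of factors is ≤ j v, and
card (blk) ≥ c P^(∑ n l la K l) = c P^(∑∑ la K l).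
-/

set_option autoImplicit false

open Finset Real
open Pool.Agent.Lib.MP_2a816b_nt (e norm_e conj_e e_add e_neg)

namespace Pool.Agent.Lib.MP_570bef_ntWD

/-- One factor. -/
private theorem CntE_fac {P x D : ℝ} (hP : 1 ≤ P) {k i : ℕ} (hi : i + 1 ≤ k) :
    min (P ^ x) (1 + P ^ D / (P ^ x) ^ (k - i - 1)) ≤ 2 * P ^ ex k i D x := by
  have hP0 : 0 < P := by linarith
  have h1 : (P ^ x) ^ (k - i - 1) = P ^ (x * ((k : ℝ) - i - 1)) := by
    rw [← Real.rpow_mul_natCast hP0.le]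
    congr 2
    have h2 : k - i - 1 = k - (i + 1) := by omega
    rw [h2, Nat.cast_sub hi]
    push_cast
    ring
  have h2 : P ^ D / (P ^ x) ^ (k - i - 1) = P ^ (D - x * ((k : ℝ) - i - 1)) := by
    rw [h1, ← Real.rpow_sub hP0]
  rw [h2]
  unfold ex
  have h3 : (1 : ℝ) ≤ P ^ max 0 (D - x * ((k : ℝ) - i - 1)) :=
    Real.one_le_rpow hP (le_max_left _ _)
  have h4 : P ^ (D - x * ((k : ℝ) - i - 1)) ≤ P ^ max 0 (D - x * ((k : ℝ) - i - 1)) :=
    Real.rpow_le_rpow_of_exponent_le hP (le_max_right _ _)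
  rcases le_total x (max 0 (D - x * ((k : ℝ) - i - 1))) with h5 | h5
  · rw [min_eq_left h5]
    refine (min_le_left _ _).trans ?_
    have h6 : 0 < P ^ x := Real.rpow_pos_of_pos hP0 x
    linarith
  · rw [min_eq_right h5]
    refine (min_le_right _ _).trans ?_
    linarith

theorem cnt_ex {k j K : ℕ} {n : ℕ → ℕ} {r : ℕ → ℝ} {η : ℝ} (h : Bl k j K n r η) (v : ℕ) :
    ∃ C P₀ : ℝ, 0 < C ∧ 1 ≤ P₀ ∧ ∀ P : ℝ, P₀ ≤ P → ∀ β : ℝ, 0 ≤ β → β ≤ 1 →
      ∀ D c : ℕ → ℝ, (Nm k j β (blk K n r η P v) c (fun i => P ^ D i) : ℝ) ≤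
        C * ((blk K n r η P v).card : ℝ) *
          P ^ (-(∑ l ∈ range v, ∑ i ∈ range (n l), (la K l - ex k i (D i) (la K l)))) := by
  obtain ⟨C, P₁, hC, hP₁, h1⟩ := cnt_blk h v
  obtain ⟨c₀, P₂, hc₀, hP₂, h2⟩ := blk_card h v
  refine ⟨C * 2 ^ (∑ l ∈ range v, n l) / c₀, max P₁ P₂, by positivity, le_max_of_le_left hP₁, ?_⟩
  intro P hP β hβ hβ1 D c
  have hP1 : 1 ≤ P := hP₁.trans ((le_max_left _ _).trans hP)
  have hP0 : 0 < P := by linarith
  have h3 := h1 P ((le_max_left _ _).trans hP) β hβ hβ1 (fun i => P ^ D i) c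
    (fun i => (Real.rpow_pos_of_pos hP0 _).le)
  have h4 := h2 P ((le_max_right _ _).trans hP)
  have h5 : ∏ l ∈ range v, ∏ i ∈ range (n l),
      min (P ^ la K l) (1 + P ^ D i / (P ^ la K l) ^ (k - i - 1)) ≤
      ∏ l ∈ range v, ∏ i ∈ range (n l), (2 * P ^ ex k i (D i) (la K l)) := by
    have hnn : ∀ l i : ℕ, 0 ≤ min (P ^ la K l) (1 + P ^ D i / (P ^ la K l) ^ (k - i - 1)) := by
      intro l i
      have h6 : 0 < P ^ la K l := Real.rpow_pos_of_pos hP0 _
      have h7 : 0 < P ^ D i := Real.rpow_pos_of_pos hP0 _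
      exact le_min h6.le (by positivity)
    refine Finset.prod_le_prod (fun l _ => Finset.prod_nonneg fun i _ => hnn l i) fun l hl =>
      Finset.prod_le_prod (fun i _ => hnn l i) fun i hi => ?_
    have h6 := Finset.mem_range.1 hi
    have h7 := h.hn l
    have h8 := h.hjk
    exact CntE_fac hP1 (by omega)
  have h6 : ∏ l ∈ range v, ∏ i ∈ range (n l), (2 * P ^ ex k i (D i) (la K l)) =
      2 ^ (∑ l ∈ range v, n l) * P ^ (∑ l ∈ range v, ∑ i ∈ range (n l), ex k i (D i) (la K l)) := by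
    rw [← Finset.prod_pow_eq_pow_sum, Real.rpow_sum_of_pos hP0, ← Finset.prod_mul_distrib]
    refine Finset.prod_congr rfl fun l _ => ?_
    rw [Finset.prod_mul_distrib, Finset.prod_const, Finset.card_range, Real.rpow_sum_of_pos hP0]
  have h7 : P ^ (∑ l ∈ range v, ∑ i ∈ range (n l), ex k i (D i) (la K l)) =
      P ^ (∑ l ∈ range v, (n l : ℝ) * la K l) *
        P ^ (-(∑ l ∈ range v, ∑ i ∈ range (n l), (la K l - ex k i (D i) (la K l)))) := by
    rw [← Real.rpow_add hP0]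
    congr 1
    have h8 : ∑ l ∈ range v, ∑ i ∈ range (n l), (la K l - ex k i (D i) (la K l)) =
        ∑ l ∈ range v, (n l : ℝ) * la K l -
          ∑ l ∈ range v, ∑ i ∈ range (n l), ex k i (D i) (la K l) := by
      rw [← Finset.sum_sub_distrib]
      refine Finset.sum_congr rfl fun l _ => ?_
      rw [Finset.sum_sub_distrib, Finset.sum_const, Finset.card_range, nsmul_eq_mul]
    rw [h8]
    ring
  have h8 : 0 < P ^ (-(∑ l ∈ range v, ∑ i ∈ range (n l), (la K l - ex k i (D i) (la K l)))) :=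
    Real.rpow_pos_of_pos hP0 _
  calc (Nm k j β (blk K n r η P v) c (fun i => P ^ D i) : ℝ)
      ≤ C * (2 ^ (∑ l ∈ range v, n l) *
          P ^ (∑ l ∈ range v, ∑ i ∈ range (n l), ex k i (D i) (la K l))) :=
        h3.trans (mul_le_mul_of_nonneg_left (h5.trans h6.le) hC.le)
    _ = C * 2 ^ (∑ l ∈ range v, n l) / c₀ * (c₀ * P ^ (∑ l ∈ range v, (n l : ℝ) * la K l)) *
          P ^ (-(∑ l ∈ range v, ∑ i ∈ range (n l), (la K l - ex k i (D i) (la K l)))) := by
        rw [h7]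
        field_simp
    _ ≤ C * 2 ^ (∑ l ∈ range v, n l) / c₀ * ((blk K n r η P v).card : ℝ) *
          P ^ (-(∑ l ∈ range v, ∑ i ∈ range (n l), (la K l - ex k i (D i) (la K l)))) := by
        refine mul_le_mul_of_nonneg_right (mul_le_mul_of_nonneg_left h4 (by positivity)) h8.le

end Pool.Agent.Lib.MP_570bef_ntWD
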