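import Mathlib
import Pool.Agent.Lib.MP_570bef_ntWD.Defs
import Pool.Agent.Lib.MP_570bef_ntS.Defs

/-!
# Definitions for the circle method
-/

set_option autoImplicit false

open Finset Real MeasureTheory
open Pool.Agent.Lib.MP_2a816b_nt (e norm_e conj_e e_add e_neg)

namespace Pool.Agent.Lib.MP_570bef_ntWD

/-- all the variables of `GG` but the first -/
noncomputable def RR (k j : ℕ) (r : ℕ → ℝ) (η : ℝ) (v t u n : ℕ) : Finset (List ℕ) :=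
  cat (pw (one (Finset.Ico (2 ^ (n - 4)) (2 * 2 ^ (n - 4)))) u)
    (cat (BB k j r η v ((2 : ℝ) ^ n))
      (cat (HH k r η t ((2 : ℝ) ^ n)) (HH k r η t ((2 : ℝ) ^ n))))

/-- the integrand of the error for the family `GG`, `w = P^(-1/4)`, `W = P^(k-1/4)`, `P = 2^n` -/
noncomputable def JJ (k j : ℕ) (r : ℕ → ℝ) (η : ℝ) (v t u n : ℕ) (β ξ : ℝ) : ℝ :=
  Jn k β (GG k j r η v t u n) (((2 : ℝ) ^ n) ^ (-(1 / 4) : ℝ)) (((2 : ℝ) ^ n) ^ ((k : ℝ) - 1 / 4)) ξ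

/-- `2 (number of terms of RR) ≤ 3^k` -/
def Sz (k j v t u : ℕ) : Prop :=
  2 * (u + (∑ l ∈ range v, nB j (k + 1 - j) l + (t + t))) ≤ 3 ^ k

/-- `s` powers of reals `z + β ≥ 0`, `z` integers, come arbitrarily close to every large real number -/
def Suff (k : ℕ) (β : ℝ) (s : ℕ) : Prop :=
  ∀ δ : ℝ, 0 < δ → ∃ τ₀ : ℝ, ∀ τ : ℝ, τ₀ ≤ τ → ∃ z : Fin s → ℤ, (∀ i, 0 ≤ (z i : ℝ) + β) ∧
    |∑ i, ((z i : ℝ) + β) ^ k - τ| < δ

end Pool.Agent.Lib.MP_570bef_ntWD
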