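import Mathlib
import Pool.Agent.Lib.MP_570bef_ntWD.Defs

/-!
# Gau: Gaussian integrals (medium)

gau_one: Mathlib's Fourier transform of the Gaussian (fourierIntegral_gaussian, or
fourier_gaussian_pi, or integral_cexp_quadratic: ∫ exp (-b y² + c y) dy = (π/b)^(1/2) exp (c²/(4b)),
b = π/(4Y²), c = 2 π i Δ: (π/b)^(1/2) = 2Y, c²/(4b) = -π (2YΔ)²). Integrability: the norm is the Gaussian.
gau_sq: ‖∑ w e(y.z)‖² = ∑_x ∑_x' w x w x' e (y.(z x - z x')) (complex number times its conjugate, conj_e, e_add), the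
factor e (∑ y i Δ i) is ∏ e (y i Δ i); every summand is a product of functions of the single coordinates:
integral_fintype_prod_eq_prod (Integrable.fintype_prod for the integrability) and gau_one; the integral of a real
function is the real part / ofReal (integral_ofReal).
-/

set_option autoImplicit false

open Finset Real MeasureTheory
open Pool.Agent.Lib.MP_2a816b_nt (e norm_e conj_e e_add e_neg)

namespace Pool.Agent.Lib.MP_570bef_ntWD

private theorem Gau_form (Y Δ : ℝ) (hY : 0 < Y) (y : ℝ) :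
    ((Real.exp (-π * (y / (2 * Y)) ^ 2) : ℝ) : ℂ) * e (y * Δ) =
      Complex.exp (((-(π / (4 * Y ^ 2)) : ℝ) : ℂ) * (y : ℂ) ^ 2 + (2 * π * Δ * Complex.I) * (y : ℂ) + 0) := by
  unfold e
  rw [Complex.ofReal_exp, ← Complex.exp_add, add_zero]
  congr 1
  have h : (Y : ℂ) ≠ 0 := by
    exact_mod_cast hY.ne'
  push_cast
  field_simp
  ring

private theorem Gau_re (Y : ℝ) (hY : 0 < Y) : (((-(π / (4 * Y ^ 2)) : ℝ) : ℂ)).re < 0 := by
  rw [Complex.ofReal_re, neg_lt_zero]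
  have := Real.pi_pos
  positivity

theorem gau_one (Y Δ : ℝ) (hY : 0 < Y) :
    Integrable (fun y : ℝ => ((Real.exp (-π * (y / (2 * Y)) ^ 2) : ℝ) : ℂ) * e (y * Δ)) ∧
    ∫ y : ℝ, ((Real.exp (-π * (y / (2 * Y)) ^ 2) : ℝ) : ℂ) * e (y * Δ) =
      ((2 * Y * Real.exp (-π * (2 * Y * Δ) ^ 2) : ℝ) : ℂ) := by
  have hfun : (fun y : ℝ => ((Real.exp (-π * (y / (2 * Y)) ^ 2) : ℝ) : ℂ) * e (y * Δ)) = fun y : ℝ =>
      Complex.exp (((-(π / (4 * Y ^ 2)) : ℝ) : ℂ) * (y : ℂ) ^ 2 + (2 * π * Δ * Complex.I) * (y : ℂ) + 0) := by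
    funext y
    exact Gau_form Y Δ hY y
  rw [hfun]
  refine ⟨?_, ?_⟩
  · have h1 := integrable_cexp_quadratic (b := ((π / (4 * Y ^ 2) : ℝ) : ℂ)) (by
      rw [Complex.ofReal_re]
      have := Real.pi_pos
      positivity) (2 * π * Δ * Complex.I) 0
    have h2 : (((-(π / (4 * Y ^ 2)) : ℝ) : ℂ)) = -((π / (4 * Y ^ 2) : ℝ) : ℂ) := by
      push_cast
      ring
    rw [h2]
    exact h1
  · rw [integral_cexp_quadratic (Gau_re Y hY)]
    have hπ : (π : ℂ) ≠ 0 := by exact_mod_cast Real.pi_pos.ne'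
    have hYc : (Y : ℂ) ≠ 0 := by exact_mod_cast hY.ne'
    have h1 : (π : ℂ) / -((-(π / (4 * Y ^ 2)) : ℝ) : ℂ) = (((2 * Y) ^ 2 : ℝ) : ℂ) := by
      push_cast
      field_simp
      ring
    have h2 : (((2 * Y) ^ 2 : ℝ) : ℂ) ^ (1 / 2 : ℂ) = ((2 * Y : ℝ) : ℂ) := by
      have h3 : (1 / 2 : ℂ) = (((1 / 2 : ℝ)) : ℂ) := by
        push_cast
        rfl
      rw [h3, ← Complex.ofReal_cpow (sq_nonneg _), ← Real.sqrt_eq_rpow, Real.sqrt_sq (by linarith)]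
    rw [h1, h2]
    have h4 : (0 : ℂ) - (2 * π * Δ * Complex.I) ^ 2 / (4 * ((-(π / (4 * Y ^ 2)) : ℝ) : ℂ)) =
        ((-π * (2 * Y * Δ) ^ 2 : ℝ) : ℂ) := by
      push_cast
      rw [mul_pow, Complex.I_sq]
      field_simp
      ring
    rw [h4, ← Complex.ofReal_exp, ← Complex.ofReal_mul]

private theorem Gau_e_sum {d : ℕ} (a : Fin d → ℝ) : e (∑ i, a i) = ∏ i, e (a i) := by
  unfold e
  rw [← Complex.exp_sum]
  congr 1
  push_cast
  rw [Finset.mul_sum, Finset.sum_mul]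

private theorem Gau_expand {d : ℕ} (Y : Fin d → ℝ) {X : Type} (S : Finset X)
    (z : X → Fin d → ℝ) (w : X → ℝ) (y : Fin d → ℝ) :
    (((∏ i, Real.exp (-π * (y i / (2 * Y i)) ^ 2)) *
      ‖∑ x ∈ S, (w x : ℂ) * e (∑ i, y i * z x i)‖ ^ 2 : ℝ) : ℂ) =
      ∑ x ∈ S, ∑ x' ∈ S, ((w x * w x' : ℝ) : ℂ) *
        ∏ i, (((Real.exp (-π * (y i / (2 * Y i)) ^ 2) : ℝ) : ℂ) * e (y i * (z x i - z x' i))) := by
  have h1 : ((‖∑ x ∈ S, (w x : ℂ) * e (∑ i, y i * z x i)‖ ^ 2 : ℝ) : ℂ) =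
      ∑ x ∈ S, ∑ x' ∈ S, ((w x * w x' : ℝ) : ℂ) * ∏ i, e (y i * (z x i - z x' i)) := by
    rw [Complex.ofReal_pow, ← Complex.mul_conj', map_sum, Finset.sum_mul_sum]
    refine Finset.sum_congr rfl fun x _ => Finset.sum_congr rfl fun x' _ => ?_
    rw [map_mul, Complex.conj_ofReal, conj_e, Complex.ofReal_mul]
    have h2 : e (∑ i, y i * z x i) * e (-(∑ i, y i * z x' i)) = ∏ i, e (y i * (z x i - z x' i)) := by
      rw [← e_add, ← Gau_e_sum, ← Finset.sum_neg_distrib, ← Finset.sum_add_distrib]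
      congr 1
      refine Finset.sum_congr rfl fun i _ => ?_
      ring
    rw [← h2]
    ring
  rw [Complex.ofReal_mul, h1, Complex.ofReal_prod, Finset.mul_sum]
  refine Finset.sum_congr rfl fun x _ => ?_
  rw [Finset.mul_sum]
  refine Finset.sum_congr rfl fun x' _ => ?_
  rw [Finset.prod_mul_distrib]
  ring

theorem gau_sq (d : ℕ) (Y : Fin d → ℝ) (hY : ∀ i, 0 < Y i) {X : Type} (S : Finset X)
    (z : X → Fin d → ℝ) (w : X → ℝ) :
    Integrable (fun y : Fin d → ℝ => (∏ i, Real.exp (-π * (y i / (2 * Y i)) ^ 2)) *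
      ‖∑ x ∈ S, (w x : ℂ) * e (∑ i, y i * z x i)‖ ^ 2) ∧
    ∫ y : Fin d → ℝ, (∏ i, Real.exp (-π * (y i / (2 * Y i)) ^ 2)) *
      ‖∑ x ∈ S, (w x : ℂ) * e (∑ i, y i * z x i)‖ ^ 2 =
      ∑ x ∈ S, ∑ x' ∈ S, w x * w x' *
        ∏ i, (2 * Y i * Real.exp (-π * (2 * Y i * (z x i - z x' i)) ^ 2)) := by
  have hterm : ∀ x x' : X, Integrable (fun y : Fin d → ℝ => ((w x * w x' : ℝ) : ℂ) *
      ∏ i, (((Real.exp (-π * (y i / (2 * Y i)) ^ 2) : ℝ) : ℂ) * e (y i * (z x i - z x' i)))) := by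
    intro x x'
    refine Integrable.const_mul ?_ _
    exact Integrable.fintype_prod
      (f := fun (i : Fin d) (t : ℝ) => ((Real.exp (-π * (t / (2 * Y i)) ^ 2) : ℝ) : ℂ) * e (t * (z x i - z x' i)))
      (fun i => (gau_one (Y i) (z x i - z x' i) (hY i)).1)
  have hsum : Integrable (fun y : Fin d → ℝ => ∑ x ∈ S, ∑ x' ∈ S, ((w x * w x' : ℝ) : ℂ) *
      ∏ i, (((Real.exp (-π * (y i / (2 * Y i)) ^ 2) : ℝ) : ℂ) * e (y i * (z x i - z x' i)))) :=
    integrable_finsetSum _ fun x _ => integrable_finsetSum _ fun x' _ => hterm x x'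
  have hfun : (fun y : Fin d → ℝ => ((((∏ i, Real.exp (-π * (y i / (2 * Y i)) ^ 2)) *
      ‖∑ x ∈ S, (w x : ℂ) * e (∑ i, y i * z x i)‖ ^ 2 : ℝ)) : ℂ)) =
      fun y : Fin d → ℝ => ∑ x ∈ S, ∑ x' ∈ S, ((w x * w x' : ℝ) : ℂ) *
        ∏ i, (((Real.exp (-π * (y i / (2 * Y i)) ^ 2) : ℝ) : ℂ) * e (y i * (z x i - z x' i))) := by
    funext y
    exact Gau_expand Y S z w y
  have hintC : Integrable (fun y : Fin d → ℝ => ((((∏ i, Real.exp (-π * (y i / (2 * Y i)) ^ 2)) *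
      ‖∑ x ∈ S, (w x : ℂ) * e (∑ i, y i * z x i)‖ ^ 2 : ℝ)) : ℂ)) := by
    rw [hfun]
    exact hsum
  refine ⟨?_, ?_⟩
  · have h1 := hintC.re
    exact h1
  · apply Complex.ofReal_injective
    have h1 : ((∫ y : Fin d → ℝ, (∏ i, Real.exp (-π * (y i / (2 * Y i)) ^ 2)) *
        ‖∑ x ∈ S, (w x : ℂ) * e (∑ i, y i * z x i)‖ ^ 2 : ℝ) : ℂ) =
        ∫ y : Fin d → ℝ, ((((∏ i, Real.exp (-π * (y i / (2 * Y i)) ^ 2)) *
      ‖∑ x ∈ S, (w x : ℂ) * e (∑ i, y i * z x i)‖ ^ 2 : ℝ)) : ℂ) := integral_ofReal.symm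
    rw [h1, hfun, integral_finsetSum _ fun x _ => integrable_finsetSum _ fun x' _ => hterm x x',
      Complex.ofReal_sum]
    refine Finset.sum_congr rfl fun x _ => ?_
    rw [integral_finsetSum _ fun x' _ => hterm x x', Complex.ofReal_sum]
    refine Finset.sum_congr rfl fun x' _ => ?_
    rw [integral_const_mul, Complex.ofReal_mul (w x * w x') _, Complex.ofReal_prod]
    congr 1
    rw [integral_fintype_prod_volume_eq_prod
      (f := fun (i : Fin d) (t : ℝ) => ((Real.exp (-π * (t / (2 * Y i)) ^ 2) : ℝ) : ℂ) * e (t * (z x i - z x' i)))]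
    refine Finset.prod_congr rfl fun i _ => ?_
    exact (gau_one (Y i) (z x i - z x' i) (hY i)).2

end Pool.Agent.Lib.MP_570bef_ntWD
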