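import Mathlib
import Pool.Agent.Lib.MP_570bef_ntWD.Defs

/-!
# Wt: a character is a multiple of its average over a small box (medium)

wt_one: δ = 1/(4Z). For z = 0: w = 1 (the integral is 2δ = 1/(2Z)). For z ≠ 0: ∫_(y-δ)^(y+δ) e(t z) dt =
(e((y+δ)z) - e((y-δ)z))/(2πiz) = e(yz) sin(2πδz)/(πz); with u = 2πδz = πz/(2Z), 0 < |u| ≤ π/2, multiplied by 2Z this is
e(yz) sin u/u, and 2/π ≤ sin u/u ≤ 1 (Real.mul_le_sin, Real.sin_le). w = u/sin u ∈ [1, π/2] ⊂ [1, 2].
wt_box: w = ∏ of the one-dimensional w's; e(∑ t i z i) = ∏ e(t i z i); the integral over the box is the product of the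
integrals (Measure.restrict_pi_pi, integral_fintype_prod_eq_prod; intervalIntegral.integral_of_le, integral_Icc_eq_integral_Ioc).
-/

set_option autoImplicit false

open Finset Real MeasureTheory
open Pool.Agent.Lib.MP_2a816b_nt (e norm_e conj_e e_add e_neg)

namespace Pool.Agent.Lib.MP_570bef_ntWD

private theorem Wt_sinc {v : ℝ} (h0 : 0 < v) (h1 : v ≤ π / 2) :
    0 < Real.sin v ∧ 1 ≤ v / Real.sin v ∧ v / Real.sin v ≤ 2 := by
  have hs : 0 < Real.sin v := Real.sin_pos_of_pos_of_lt_pi h0 (by linarith [Real.pi_pos])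
  have h2 : Real.sin v ≤ v := Real.sin_le h0.le
  have h3 := Real.mul_le_sin h0.le h1
  refine ⟨hs, ?_, ?_⟩
  · rw [le_div_iff₀ hs]
    linarith
  · rw [div_le_iff₀ hs]
    have h4 : v / 2 ≤ 2 / π * v := by
      have h5 : (1 : ℝ) / 2 ≤ 2 / π := by
        rw [div_le_div_iff₀ (by norm_num) Real.pi_pos]
        linarith [Real.pi_le_four]
      calc v / 2 = 1 / 2 * v := by ring
        _ ≤ 2 / π * v := mul_le_mul_of_nonneg_right h5 h0.le
    linarith

private theorem Wt_w {u : ℝ} (h0 : u ≠ 0) (h1 : |u| ≤ π / 2) :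
    Real.sin u ≠ 0 ∧ 1 ≤ u / Real.sin u ∧ u / Real.sin u ≤ 2 := by
  rcases lt_or_gt_of_ne h0 with h | h
  · have h2 : 0 < -u := by linarith
    have h3 : -u ≤ π / 2 := by
      rw [abs_of_neg h] at h1
      exact h1
    obtain ⟨a, b, c⟩ := Wt_sinc h2 h3
    rw [Real.sin_neg] at a b c
    rw [neg_div_neg_eq] at b c
    exact ⟨by linarith, b, c⟩
  · rw [abs_of_pos h] at h1
    obtain ⟨a, b, c⟩ := Wt_sinc h h1
    exact ⟨a.ne', b, c⟩

theorem wt_one (Z z : ℝ) (hZ : 0 < Z) (hz : |z| ≤ Z) :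
    ∃ w : ℝ, 1 ≤ w ∧ w ≤ 2 ∧ ∀ y : ℝ, e (y * z) =
      (w : ℂ) * (((2 * Z : ℝ) : ℂ) * ∫ t in (y - 1 / (4 * Z))..(y + 1 / (4 * Z)), e (t * z)) := by
  by_cases hz0 : z = 0
  · refine ⟨1, le_refl _, by norm_num, ?_⟩
    intro y
    subst hz0
    have h1 : ∀ t : ℝ, e (t * 0) = 1 := by
      intro t
      unfold e
      simp
    rw [h1]
    simp only [h1]
    rw [intervalIntegral.integral_const]
    have h2 : y + 1 / (4 * Z) - (y - 1 / (4 * Z)) = 1 / (2 * Z) := by
      field_simp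
      ring
    rw [h2, Complex.real_smul, Complex.ofReal_one, one_mul, mul_one, ← Complex.ofReal_mul,
      mul_one_div_cancel (by positivity), Complex.ofReal_one]
  · set u : ℝ := π * z / (2 * Z) with hu
    have hu0 : u ≠ 0 := by
      rw [hu]
      have := Real.pi_pos.ne'
      positivity
    have hu1 : |u| ≤ π / 2 := by
      rw [hu, abs_div, abs_mul, abs_of_pos Real.pi_pos, abs_of_pos (by positivity : (0 : ℝ) < 2 * Z),
        div_le_div_iff₀ (by positivity) (by norm_num)]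
      have := Real.pi_pos
      nlinarith
    obtain ⟨hs, hw1, hw2⟩ := Wt_w hu0 hu1
    refine ⟨u / Real.sin u, hw1, hw2, ?_⟩
    intro y
    set c : ℂ := 2 * π * z * Complex.I with hc
    have hpi : (π : ℂ) ≠ 0 := by exact_mod_cast Real.pi_pos.ne'
    have hzC : (z : ℂ) ≠ 0 := by exact_mod_cast hz0
    have hZC : (Z : ℂ) ≠ 0 := by exact_mod_cast hZ.ne'
    have hc0 : c ≠ 0 := by
      rw [hc]
      exact mul_ne_zero (mul_ne_zero (mul_ne_zero two_ne_zero hpi) hzC) Complex.I_ne_zero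
    have he : ∀ t : ℝ, e (t * z) = Complex.exp (c * t) := by
      intro t
      unfold e
      congr 1
      rw [hc]
      push_cast
      ring
    simp only [he]
    rw [integral_exp_mul_complex hc0]
    have h1 : c * ((y + 1 / (4 * Z) : ℝ) : ℂ) = c * y + (u : ℂ) * Complex.I := by
      rw [hc, hu]
      push_cast
      field_simp
      ring
    have h2 : c * ((y - 1 / (4 * Z) : ℝ) : ℂ) = c * y + -((u : ℂ) * Complex.I) := by
      rw [hc, hu]
      push_cast
      field_simp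
      ring
    rw [h1, h2, Complex.exp_add, Complex.exp_add]
    have h3 : Complex.exp ((u : ℂ) * Complex.I) - Complex.exp (-((u : ℂ) * Complex.I)) =
        2 * Complex.I * ((Real.sin u : ℝ) : ℂ) := by
      rw [Complex.ofReal_sin, Complex.sin]
      have h4 : -((u : ℂ) * Complex.I) = -(u : ℂ) * Complex.I := by ring
      rw [h4]
      field_simp
      rw [Complex.I_sq]
      ring
    have h5 : Complex.exp (c * y) * Complex.exp ((u : ℂ) * Complex.I) -
        Complex.exp (c * y) * Complex.exp (-((u : ℂ) * Complex.I)) =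
        Complex.exp (c * y) * (2 * Complex.I * ((Real.sin u : ℝ) : ℂ)) := by
      rw [← mul_sub, h3]
    rw [h5]
    have hsC : ((Real.sin u : ℝ) : ℂ) ≠ 0 := by exact_mod_cast hs
    have h6 : ((u / Real.sin u : ℝ) : ℂ) = (π * z / (2 * Z)) / ((Real.sin u : ℝ) : ℂ) := by
      rw [Complex.ofReal_div, hu]
      push_cast
      rfl
    rw [h6, hc]
    push_cast
    rw [Complex.ofReal_sin] at hsC
    field_simp

theorem wt_box (d : ℕ) (Z z : Fin d → ℝ) (hZ : ∀ i, 0 < Z i) (hz : ∀ i, |z i| ≤ Z i) :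
    ∃ w : ℝ, 1 ≤ w ∧ w ≤ 2 ^ d ∧ ∀ y : Fin d → ℝ, e (∑ i, y i * z i) =
      (w : ℂ) * (((∏ i, 2 * Z i : ℝ) : ℂ) *
        ∫ t in Set.univ.pi (fun i => Set.Icc (y i - 1 / (4 * Z i)) (y i + 1 / (4 * Z i))),
          e (∑ i, t i * z i)) := by
  have h1 := fun i => wt_one (Z i) (z i) (hZ i) (hz i)
  choose w hw1 hw2 hw3 using h1
  have hprod : ∀ t : Fin d → ℝ, e (∑ i, t i * z i) = ∏ i, e (t i * z i) := by
    intro t
    unfold e
    rw [← Complex.exp_sum]
    congr 1
    push_cast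
    rw [Finset.mul_sum, Finset.sum_mul]
  refine ⟨∏ i, w i, ?_, ?_, ?_⟩
  · calc (1 : ℝ) = ∏ _i : Fin d, (1 : ℝ) := by rw [Finset.prod_const_one]
      _ ≤ ∏ i, w i := Finset.prod_le_prod (fun _ _ => zero_le_one) (fun i _ => hw1 i)
  · calc ∏ i, w i ≤ ∏ _i : Fin d, (2 : ℝ) :=
          Finset.prod_le_prod (fun i _ => zero_le_one.trans (hw1 i)) (fun i _ => hw2 i)
      _ = 2 ^ d := by rw [Finset.prod_const, Finset.card_univ, Fintype.card_fin]
  · intro y
    have h2 : (∫ t in Set.univ.pi (fun i => Set.Icc (y i - 1 / (4 * Z i)) (y i + 1 / (4 * Z i))),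
        e (∑ i, t i * z i)) =
        ∏ i, ∫ t in (y i - 1 / (4 * Z i))..(y i + 1 / (4 * Z i)), e (t * z i) := by
      simp only [hprod]
      rw [volume_pi, Measure.restrict_pi_pi, integral_fintype_prod_eq_prod (fun i t => e (t * z i))]
      refine Finset.prod_congr rfl fun i _ => ?_
      have h3 : y i - 1 / (4 * Z i) ≤ y i + 1 / (4 * Z i) := by
        have h4 : 0 < 1 / (4 * Z i) := by
          have := hZ i
          positivity
        linarith
      rw [intervalIntegral.integral_of_le h3, integral_Icc_eq_integral_Ioc]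
    rw [h2, hprod]
    push_cast
    rw [← Finset.prod_mul_distrib, ← Finset.prod_mul_distrib]
    refine Finset.prod_congr rfl fun i _ => ?_
    have h5 := hw3 i (y i)
    push_cast at h5
    exact h5

end Pool.Agent.Lib.MP_570bef_ntWD
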