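import Mathlib
import Pool.Agent.Lib.MP_570bef_ntWD.Gau
import Pool.Agent.Lib.MP_570bef_ntWD.Cell
import Pool.Agent.Lib.MP_570bef_ntWD.Wt

/-!
# Dls: the double large sieve of Bombieri and Iwaniec (medium+)

Let w x be the number of wt_box for z x (1 ≤ w x ≤ 2^d), S_w(t) = ∑_x w x e(t.z x), Q y the box of wt_box around y. Then
S(y) = ∑_x e(y.z x) = V ∫_(Q y) S_w(t) dt, V = ∏ 2 Z i, and V = 1/volume (Q y), so by Cauchy-Schwarz (or convexity of the
square) ‖S y‖² ≤ V ∫_(Q y) ‖S_w‖². For y ≠ y' in R the boxes Q y, Q y' are disjoint: a common point t has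
|y i - y' i| ≤ 1/(2 Z i) for all i, against the separation. For t ∈ Q y: |t i| ≤ Y i + 1/(4 Z i) ≤ 2 Y i (1 ≤ Y i Z i), so
∏ exp(-π (t i/(2 Y i))²) ≥ exp(-π)^d. Hence
∑_y ‖S y‖² ≤ V ∑_y ∫_(Q y) ‖S_w‖² = V ∫_(∪ Q y) ‖S_w‖² ≤ V e^(πd) ∫ ∏ exp(-π(t i/(2Y i))²) ‖S_w‖² =
V e^(πd) ∑_x ∑_x' w x w x' ∏ (2 Y i exp(..)) ≤ V e^(πd) 4^d ∏ (2 Y i) ∑_x C N (gau_sq, cell with a = z x).
C' = 4^d 4^d e^(πd) C. (Integrability of ‖S_w‖² on the boxes: continuous and bounded.)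
-/

set_option autoImplicit false

open Finset Real MeasureTheory
open Pool.Agent.Lib.MP_2a816b_nt (e norm_e conj_e e_add e_neg)

namespace Pool.Agent.Lib.MP_570bef_ntWD

/-- the square of an integral over a box -/
private lemma sq_int {d : ℕ} (a b : Fin d → ℝ) (f : (Fin d → ℝ) → ℝ) (hf : Continuous f) (V : ℝ)
    (_hV : 0 < V) (hab : a ≤ b) (hv : V * ∏ i, (b i - a i) = 1) :
    V * (∫ t in Set.Icc a b, f t) ^ 2 ≤ ∫ t in Set.Icc a b, f t ^ 2 := by
  have i1 : IntegrableOn f (Set.Icc a b) volume := hf.integrableOn_Icc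
  have i2 : IntegrableOn (fun t => f t ^ 2) (Set.Icc a b) volume := (hf.pow 2).integrableOn_Icc
  have i3 : IntegrableOn (fun _ : Fin d → ℝ => (V * (∫ t in Set.Icc a b, f t)) ^ 2)
      (Set.Icc a b) volume := continuous_const.integrableOn_Icc
  set I : ℝ := ∫ t in Set.Icc a b, f t with hI
  have h0 : 0 ≤ ∫ t in Set.Icc a b, (f t - V * I) ^ 2 := integral_nonneg fun t => sq_nonneg _
  have h1 : ∫ t in Set.Icc a b, (f t - V * I) ^ 2 = (∫ t in Set.Icc a b, f t ^ 2) -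
      2 * (V * I) * I + (V * I) ^ 2 * ∏ i, (b i - a i) := by
    have e1 : ∀ t, (f t - V * I) ^ 2 = f t ^ 2 - 2 * (V * I) * f t + (V * I) ^ 2 := by
      intro t; ring
    have i4 : IntegrableOn (fun t => 2 * (V * I) * f t) (Set.Icc a b) volume := i1.const_mul _
    have i5 : IntegrableOn (fun t => f t ^ 2 - 2 * (V * I) * f t) (Set.Icc a b) volume :=
      i2.sub i4
    simp_rw [e1]
    rw [integral_add i5 i3, integral_sub i2 i4,
      integral_const_mul, setIntegral_const, ← hI, Measure.real, Real.volume_Icc_pi_toReal hab,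
      smul_eq_mul]
    ring
  rw [h1] at h0
  have h2 : (V * I) ^ 2 * ∏ i, (b i - a i) = V * I ^ 2 * (V * ∏ i, (b i - a i)) := by ring
  rw [h2, hv] at h0
  nlinarith [h0]

/-- the box around `y` -/
private noncomputable def lo {d : ℕ} (Z y : Fin d → ℝ) : Fin d → ℝ := fun i => y i - 1 / (4 * Z i)

private noncomputable def hi {d : ℕ} (Z y : Fin d → ℝ) : Fin d → ℝ := fun i => y i + 1 / (4 * Z i)

private lemma lo_le_hi {d : ℕ} (Z y : Fin d → ℝ) (hZ : ∀ i, 0 < Z i) : lo Z y ≤ hi Z y := by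
  intro i
  have := hZ i
  have h : 0 < 1 / (4 * Z i) := by positivity
  simp only [lo, hi]
  linarith

private lemma vol_box {d : ℕ} (Z y : Fin d → ℝ) (hZ : ∀ i, 0 < Z i) :
    (∏ i, 2 * Z i) * ∏ i, (hi Z y i - lo Z y i) = 1 := by
  rw [← Finset.prod_mul_distrib]
  apply Finset.prod_eq_one
  intro i _
  have := hZ i
  simp only [lo, hi]
  field_simp
  ring

private lemma cont_e : Continuous e := by
  unfold Pool.Agent.Lib.MP_2a816b_nt.e
  fun_prop

private lemma cont_S {d : ℕ} {X : Type} (S : Finset X) (z : X → Fin d → ℝ) (w : X → ℝ) :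
    Continuous fun t : Fin d → ℝ => ∑ x ∈ S, (w x : ℂ) * e (∑ i, t i * z x i) := by
  apply continuous_finsetSum
  intro x _
  apply Continuous.mul continuous_const
  apply cont_e.comp
  apply continuous_finsetSum
  intro i _
  exact (continuous_apply i).mul continuous_const

/-- one point -/
private lemma point {d : ℕ} {X : Type} (S : Finset X) (z : X → Fin d → ℝ) (w : X → ℝ)
    (Z : Fin d → ℝ) (hZ : ∀ i, 0 < Z i)
    (hw : ∀ x ∈ S, ∀ y : Fin d → ℝ, e (∑ i, y i * z x i) =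
      (w x : ℂ) * (((∏ i, 2 * Z i : ℝ) : ℂ) *
        ∫ t in Set.univ.pi (fun i => Set.Icc (y i - 1 / (4 * Z i)) (y i + 1 / (4 * Z i))),
          e (∑ i, t i * z x i))) (y : Fin d → ℝ) :
    ‖∑ x ∈ S, e (∑ i, y i * z x i)‖ ^ 2 ≤ (∏ i, 2 * Z i) *
      ∫ t in Set.Icc (lo Z y) (hi Z y), ‖∑ x ∈ S, (w x : ℂ) * e (∑ i, t i * z x i)‖ ^ 2 := by
  have hV : 0 < ∏ i, 2 * Z i := Finset.prod_pos fun i _ => by have := hZ i; positivity
  set V : ℝ := ∏ i, 2 * Z i with hVd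
  have hbox : Set.univ.pi (fun i => Set.Icc (y i - 1 / (4 * Z i)) (y i + 1 / (4 * Z i))) =
      Set.Icc (lo Z y) (hi Z y) := by
    rw [Set.pi_univ_Icc]; rfl
  have h1 : ∑ x ∈ S, e (∑ i, y i * z x i) = (V : ℂ) *
      ∫ t in Set.Icc (lo Z y) (hi Z y), ∑ x ∈ S, (w x : ℂ) * e (∑ i, t i * z x i) := by
    rw [integral_finsetSum, Finset.mul_sum]
    · apply Finset.sum_congr rfl
      intro x hx
      rw [hw x hx y, hbox, integral_const_mul]
      ring
    · intro x _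
      have hc : Continuous fun t : Fin d → ℝ => (w x : ℂ) * e (∑ i, t i * z x i) := by
        have := cont_S {x} z w
        simpa using this
      exact hc.integrableOn_Icc
  have hc := (cont_S S z w).norm
  have h2 := sq_int (lo Z y) (hi Z y) _ hc V hV (lo_le_hi Z y hZ) (vol_box Z y hZ)
  have h3 : ‖∑ x ∈ S, e (∑ i, y i * z x i)‖ ≤ V *
      ∫ t in Set.Icc (lo Z y) (hi Z y), ‖∑ x ∈ S, (w x : ℂ) * e (∑ i, t i * z x i)‖ := by
    rw [h1, norm_mul, Complex.norm_real, Real.norm_of_nonneg hV.le]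
    exact mul_le_mul_of_nonneg_left (norm_integral_le_integral_norm _) hV.le
  calc ‖∑ x ∈ S, e (∑ i, y i * z x i)‖ ^ 2 ≤ (V *
      ∫ t in Set.Icc (lo Z y) (hi Z y), ‖∑ x ∈ S, (w x : ℂ) * e (∑ i, t i * z x i)‖) ^ 2 :=
        pow_le_pow_left₀ (norm_nonneg _) h3 2
    _ = V * (V * (∫ t in Set.Icc (lo Z y) (hi Z y),
        ‖∑ x ∈ S, (w x : ℂ) * e (∑ i, t i * z x i)‖) ^ 2) := by ring
    _ ≤ _ := mul_le_mul_of_nonneg_left h2 hV.le

/-- the weight on the boxes -/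
private lemma weight_ge {d : ℕ} (Y Z y t : Fin d → ℝ) (hY : ∀ i, 0 < Y i) (hZ : ∀ i, 0 < Z i)
    (hYZ : ∀ i, 1 ≤ Y i * Z i) (hy : ∀ i, |y i| ≤ Y i) (ht : t ∈ Set.Icc (lo Z y) (hi Z y)) :
    Real.exp (-π) ^ d ≤ ∏ i, Real.exp (-π * (t i / (2 * Y i)) ^ 2) := by
  have h1 : Real.exp (-π) ^ d = ∏ _i : Fin d, Real.exp (-π) := by simp
  rw [h1]
  apply Finset.prod_le_prod
  · intro i _; exact (Real.exp_pos _).le
  intro i _
  apply Real.exp_le_exp.2
  have hYi := hY i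
  have hZi := hZ i
  have hyi := abs_le.1 (hy i)
  have h2 : 1 / (4 * Z i) ≤ Y i := by
    rw [div_le_iff₀ (by positivity)]
    nlinarith [hYZ i]
  have ht1 := ht.1 i
  have ht2 := ht.2 i
  simp only [lo, hi] at ht1 ht2
  have h3 : |t i / (2 * Y i)| ≤ 1 := by
    rw [abs_div, abs_of_pos (by positivity : 0 < 2 * Y i), div_le_one (by positivity)]
    rw [abs_le]
    constructor <;> linarith
  have h4 : (t i / (2 * Y i)) ^ 2 ≤ 1 := by
    rw [← sq_abs]
    exact pow_le_one₀ (abs_nonneg _) h3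
  nlinarith [Real.pi_pos]

open Classical in
theorem dls (d : ℕ) : ∃ C : ℝ, 0 < C ∧ ∀ Y Z : Fin d → ℝ, (∀ i, 0 < Y i) → (∀ i, 0 < Z i) →
    (∀ i, 1 ≤ Y i * Z i) → ∀ {X : Type} (S : Finset X) (z : X → Fin d → ℝ),
    (∀ x ∈ S, ∀ i, |z x i| ≤ Z i) → ∀ R : Finset (Fin d → ℝ), (∀ y ∈ R, ∀ i, |y i| ≤ Y i) →
    (∀ y ∈ R, ∀ y' ∈ R, y ≠ y' → ∃ i, 1 / Z i < |y i - y' i|) → ∀ N : ℝ,
    (∀ c : Fin d → ℝ, ((S.filter fun x => ∀ i, |z x i - c i| ≤ 1 / Y i).card : ℝ) ≤ N) →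
    ∑ y ∈ R, ‖∑ x ∈ S, e (∑ i, y i * z x i)‖ ^ 2 ≤ C * (∏ i, Y i * Z i) * S.card * N := by
  obtain ⟨C, hC, hcell⟩ := cell d
  refine ⟨4 ^ d * 4 ^ d * (Real.exp (-π) ^ d)⁻¹ * C, by positivity, ?_⟩
  intro Y Z hY hZ hYZ X S z hz R hR hsep N hN
  have hN0 : 0 ≤ N := le_trans (Nat.cast_nonneg _) (hN 0)
  have hex : ∀ x : X, ∃ w : ℝ, x ∈ S → (1 ≤ w ∧ w ≤ 2 ^ d ∧ ∀ y : Fin d → ℝ, e (∑ i, y i * z x i) =
      (w : ℂ) * (((∏ i, 2 * Z i : ℝ) : ℂ) *
        ∫ t in Set.univ.pi (fun i => Set.Icc (y i - 1 / (4 * Z i)) (y i + 1 / (4 * Z i))),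
          e (∑ i, t i * z x i))) := by
    intro x
    by_cases hx : x ∈ S
    · obtain ⟨w, h⟩ := wt_box d Z (z x) hZ (hz x hx)
      exact ⟨w, fun _ => h⟩
    · exact ⟨0, fun h => absurd h hx⟩
  choose w hw using hex
  have hVp : 0 < ∏ i, 2 * Z i := Finset.prod_pos fun i _ => by have := hZ i; positivity
  have hYp : 0 < ∏ i, 2 * Y i := Finset.prod_pos fun i _ => by have := hY i; positivity
  set V : ℝ := ∏ i, 2 * Z i with hVd
  set F : (Fin d → ℝ) → ℝ := fun t => ‖∑ x ∈ S, (w x : ℂ) * e (∑ i, t i * z x i)‖ ^ 2 with hF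
  set G : (Fin d → ℝ) → ℝ := fun t => ∏ i, Real.exp (-π * (t i / (2 * Y i)) ^ 2) with hG
  have hF0 : ∀ t, 0 ≤ F t := fun t => by simp only [hF]; positivity
  have hG0 : ∀ t, 0 ≤ G t := fun t => Finset.prod_nonneg fun i _ => (Real.exp_pos _).le
  have hFc : Continuous F := ((cont_S S z w).norm).pow 2
  obtain ⟨hGFi, hGF⟩ := gau_sq d Y hY S z w
  -- one point
  have h1 : ∀ y ∈ R, ‖∑ x ∈ S, e (∑ i, y i * z x i)‖ ^ 2 ≤
      V * ((Real.exp (-π) ^ d)⁻¹ * ∫ t in Set.Icc (lo Z y) (hi Z y), G t * F t) := by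
    intro y hy
    refine (point S z w Z hZ (fun x hx => (hw x hx).2.2) y).trans ?_
    apply mul_le_mul_of_nonneg_left _ hVp.le
    rw [← integral_const_mul]
    apply setIntegral_mono_on
    · exact hFc.integrableOn_Icc
    · exact (hGFi.integrableOn).const_mul _
    · exact measurableSet_Icc
    intro t ht
    have h2 := weight_ge Y Z y t hY hZ hYZ (hR y hy) ht
    have hp : 0 < Real.exp (-π) ^ d := by positivity
    change F t ≤ (Real.exp (-π) ^ d)⁻¹ * (G t * F t)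
    calc F t = (Real.exp (-π) ^ d)⁻¹ * (Real.exp (-π) ^ d * F t) := by
          rw [← mul_assoc, inv_mul_cancel₀ hp.ne', one_mul]
      _ ≤ _ := mul_le_mul_of_nonneg_left (mul_le_mul_of_nonneg_right h2 (hF0 t)) (by positivity)
  -- disjoint boxes
  have hdis : (R : Set (Fin d → ℝ)).PairwiseDisjoint (fun y => Set.Icc (lo Z y) (hi Z y)) := by
    intro y hy y' hy' hne
    rw [Function.onFun, Set.disjoint_left]
    intro t ht ht'
    obtain ⟨i, hi'⟩ := hsep y hy y' hy' hne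
    have a1 := ht.1 i
    have a2 := ht.2 i
    have a3 := ht'.1 i
    have a4 := ht'.2 i
    simp only [lo, hi] at a1 a2 a3 a4
    have hZi := hZ i
    have hq : 1 / (4 * Z i) = 1 / Z i / 4 := by field_simp
    have hp : 0 < 1 / Z i := by positivity
    rw [hq] at a1 a2 a3 a4
    have : |y i - y' i| ≤ 1 / Z i := by
      rw [abs_le]
      constructor <;> linarith
    linarith
  have h2 : ∑ y ∈ R, ∫ t in Set.Icc (lo Z y) (hi Z y), G t * F t ≤ ∫ t, G t * F t := by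
    rw [← integral_biUnion_finset R (fun y _ => measurableSet_Icc) hdis
      (fun y _ => hGFi.integrableOn)]
    exact setIntegral_le_integral hGFi
      (Filter.Eventually.of_forall fun t => mul_nonneg (hG0 t) (hF0 t))
  -- the weighted sum
  have h3 : ∫ t, G t * F t ≤ 4 ^ d * (∏ i, 2 * Y i) * (S.card * (C * N)) := by
    have e0 : ∫ t, G t * F t = ∑ x ∈ S, ∑ x' ∈ S, w x * w x' *
        ∏ i, (2 * Y i * Real.exp (-π * (2 * Y i * (z x i - z x' i)) ^ 2)) := hGF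
    rw [e0]
    have e1 : ∀ x ∈ S, ∑ x' ∈ S, w x * w x' *
        ∏ i, (2 * Y i * Real.exp (-π * (2 * Y i * (z x i - z x' i)) ^ 2)) ≤
        4 ^ d * (∏ i, 2 * Y i) * (C * N) := by
      intro x hx
      have e2 : ∀ x' ∈ S, w x * w x' *
          ∏ i, (2 * Y i * Real.exp (-π * (2 * Y i * (z x i - z x' i)) ^ 2)) ≤
          4 ^ d * (∏ i, 2 * Y i) * ∏ i, Real.exp (-π * (2 * Y i * (z x i - z x' i)) ^ 2) := by
        intro x' hx'
        rw [Finset.prod_mul_distrib, ← mul_assoc]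
        apply mul_le_mul_of_nonneg_right _ (Finset.prod_nonneg fun i _ => (Real.exp_pos _).le)
        apply mul_le_mul_of_nonneg_right _ hYp.le
        have q1 := (hw x hx).1
        have q2 := (hw x hx).2.1
        have q3 := (hw x' hx').1
        have q4 := (hw x' hx').2.1
        calc w x * w x' ≤ 2 ^ d * 2 ^ d :=
              mul_le_mul q2 q4 (by linarith) (by positivity)
          _ = 4 ^ d := by rw [← mul_pow]; norm_num
      refine (Finset.sum_le_sum e2).trans ?_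
      rw [← Finset.mul_sum]
      exact mul_le_mul_of_nonneg_left (hcell Y hY S z N hN (z x)) (by positivity)
    refine (Finset.sum_le_sum e1).trans (le_of_eq ?_)
    rw [Finset.sum_const, nsmul_eq_mul]
    ring
  have hprod : V * ∏ i, 2 * Y i = 4 ^ d * ∏ i, Y i * Z i := by
    rw [hVd, ← Finset.prod_mul_distrib]
    have : ∀ i, 2 * Z i * (2 * Y i) = 4 * (Y i * Z i) := fun i => by ring
    simp_rw [this]
    rw [Finset.prod_mul_distrib]
    simp
  calc ∑ y ∈ R, ‖∑ x ∈ S, e (∑ i, y i * z x i)‖ ^ 2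
      ≤ ∑ y ∈ R, V * ((Real.exp (-π) ^ d)⁻¹ * ∫ t in Set.Icc (lo Z y) (hi Z y), G t * F t) :=
        Finset.sum_le_sum h1
    _ = V * ((Real.exp (-π) ^ d)⁻¹ * ∑ y ∈ R, ∫ t in Set.Icc (lo Z y) (hi Z y), G t * F t) := by
        rw [Finset.mul_sum, Finset.mul_sum]
    _ ≤ V * ((Real.exp (-π) ^ d)⁻¹ * (4 ^ d * (∏ i, 2 * Y i) * (S.card * (C * N)))) :=
        mul_le_mul_of_nonneg_left (mul_le_mul_of_nonneg_left (h2.trans h3) (by positivity)) hVp.le
    _ = (V * ∏ i, 2 * Y i) * ((Real.exp (-π) ^ d)⁻¹ * 4 ^ d * (S.card * (C * N))) := by ring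
    _ = _ := by rw [hprod]; ring

end Pool.Agent.Lib.MP_570bef_ntWD
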