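import Mathlib
import Pool.Agent.Lib.MP_570bef_ntWD.Gau
import Pool.Agent.Lib.MP_570bef_ntWD.Cell
import Pool.Agent.Lib.MP_570bef_ntWD.Cat

/-!
# EnA: the energy from the count (medium-)

On [-Y, Y]: exp(-π (ξ/(2Y))²) ≥ exp(-π). So ∫_(-Y)^Y ‖Es‖² ≤ e^π ∫ exp(-π (ξ/(2Y))²) ‖Es‖² dξ (integral over ℝ, integrable: bounded
times Gaussian) = e^π ∑_x ∑_x' 2Y exp(-π (2Y (Ps x - Ps x'))²) (expand the square, gau_one with Δ = Ps x - Ps x') ≤
e^π 2Y ∑_x C N (cell with d = 1, Y 0 = Y, z x 0 = Ps k β x, a 0 = Ps k β x; its hypothesis is the one on Nm k 1, as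
Nm k 1 β A c T counts |Ps (k - 0) β x - c 0| ≤ T 0).
-/

set_option autoImplicit false

open Finset Real MeasureTheory
open Pool.Agent.Lib.MP_2a816b_nt (e norm_e conj_e e_add e_neg)

namespace Pool.Agent.Lib.MP_570bef_ntWD

private theorem EnA_sq (k : ℕ) (A : Finset (List ℕ)) (β ξ : ℝ) :
    ((‖Es k β A ξ‖ ^ 2 : ℝ) : ℂ) =
      ∑ x ∈ A, ∑ x' ∈ A, e (ξ * (Ps k β x - Ps k β x')) := by
  have h1 : ((‖Es k β A ξ‖ ^ 2 : ℝ) : ℂ) = Es k β A ξ * (starRingEnd ℂ) (Es k β A ξ) := by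
    rw [Complex.mul_conj, Complex.normSq_eq_norm_sq]
  rw [h1]
  unfold Es
  rw [map_sum, Finset.sum_mul_sum]
  refine Finset.sum_congr rfl fun x _ => Finset.sum_congr rfl fun x' _ => ?_
  rw [conj_e, ← e_add]
  exact congrArg e (by ring)

private theorem EnA_int (k : ℕ) (A : Finset (List ℕ)) (β Y : ℝ) (hY : 0 < Y) :
    Integrable (fun ξ : ℝ => Real.exp (-π * (ξ / (2 * Y)) ^ 2) * ‖Es k β A ξ‖ ^ 2) ∧
    ∫ ξ : ℝ, Real.exp (-π * (ξ / (2 * Y)) ^ 2) * ‖Es k β A ξ‖ ^ 2 =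
      ∑ x ∈ A, ∑ x' ∈ A, 2 * Y * Real.exp (-π * (2 * Y * (Ps k β x - Ps k β x')) ^ 2) := by
  have hfun : (fun ξ : ℝ => ((Real.exp (-π * (ξ / (2 * Y)) ^ 2) * ‖Es k β A ξ‖ ^ 2 : ℝ) : ℂ)) =
      fun ξ : ℝ => ∑ x ∈ A, ∑ x' ∈ A,
        ((Real.exp (-π * (ξ / (2 * Y)) ^ 2) : ℝ) : ℂ) * e (ξ * (Ps k β x - Ps k β x')) := by
    funext ξ
    rw [Complex.ofReal_mul, EnA_sq, Finset.mul_sum]
    refine Finset.sum_congr rfl fun x _ => ?_
    rw [Finset.mul_sum]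
  have hI : Integrable (fun ξ : ℝ =>
      ((Real.exp (-π * (ξ / (2 * Y)) ^ 2) * ‖Es k β A ξ‖ ^ 2 : ℝ) : ℂ)) := by
    rw [hfun]
    exact integrable_finsetSum _ fun x _ => integrable_finsetSum _ fun x' _ =>
      (gau_one Y (Ps k β x - Ps k β x') hY).1
  have hre : Integrable (fun ξ : ℝ => Real.exp (-π * (ξ / (2 * Y)) ^ 2) * ‖Es k β A ξ‖ ^ 2) := by
    have h2 := hI.re
    refine h2.congr (Filter.Eventually.of_forall fun ξ => ?_)
    exact Complex.ofReal_re _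
  refine ⟨hre, ?_⟩
  have h3 : ((∫ ξ : ℝ, Real.exp (-π * (ξ / (2 * Y)) ^ 2) * ‖Es k β A ξ‖ ^ 2 : ℝ) : ℂ) =
      ((∑ x ∈ A, ∑ x' ∈ A, 2 * Y * Real.exp (-π * (2 * Y * (Ps k β x - Ps k β x')) ^ 2) : ℝ) : ℂ) := by
    rw [← integral_complex_ofReal]
    rw [hfun]
    rw [integral_finsetSum _ fun x _ => integrable_finsetSum _ fun x' _ =>
      (gau_one Y (Ps k β x - Ps k β x') hY).1]
    rw [Complex.ofReal_sum]
    refine Finset.sum_congr rfl fun x _ => ?_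
    rw [integral_finsetSum _ fun x' _ => (gau_one Y (Ps k β x - Ps k β x') hY).1,
      Complex.ofReal_sum]
    exact Finset.sum_congr rfl fun x' _ => (gau_one Y (Ps k β x - Ps k β x') hY).2
  exact_mod_cast h3

theorem energy_one : ∃ C : ℝ, 0 < C ∧ ∀ (k : ℕ) (A : Finset (List ℕ)) (β Y N : ℝ), 0 < Y →
    (∀ c : ℕ → ℝ, (Nm k 1 β A c (fun _ => 1 / Y) : ℝ) ≤ N) →
    ∫ ξ in (-Y)..Y, ‖Es k β A ξ‖ ^ 2 ≤ C * Y * A.card * N := by
  obtain ⟨C0, hC0, hcell⟩ := cell 1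
  refine ⟨Real.exp π * (2 * C0), by positivity, ?_⟩
  intro k A β Y N hY hN
  obtain ⟨hI, hval⟩ := EnA_int k A β Y hY
  have hcont : Continuous (fun ξ : ℝ => ‖Es k β A ξ‖ ^ 2) := ((Es_cont k β A).norm).pow 2
  have hcont2 : Continuous (fun ξ : ℝ =>
      Real.exp π * (Real.exp (-π * (ξ / (2 * Y)) ^ 2) * ‖Es k β A ξ‖ ^ 2)) := by
    have h1 : Continuous (fun ξ : ℝ => Real.exp (-π * (ξ / (2 * Y)) ^ 2)) := by fun_prop
    exact continuous_const.mul (h1.mul hcont)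
  have hle : (-Y) ≤ Y := by linarith
  have step1 : ∫ ξ in (-Y)..Y, ‖Es k β A ξ‖ ^ 2 ≤
      ∫ ξ in (-Y)..Y, Real.exp π * (Real.exp (-π * (ξ / (2 * Y)) ^ 2) * ‖Es k β A ξ‖ ^ 2) := by
    refine intervalIntegral.integral_mono_on hle (hcont.intervalIntegrable _ _)
      (hcont2.intervalIntegrable _ _) fun ξ hξ => ?_
    have h1 : (ξ / (2 * Y)) ^ 2 ≤ 1 := by
      have h2 : |ξ / (2 * Y)| ≤ 1 := by
        rw [abs_div, abs_of_pos (by positivity : (0 : ℝ) < 2 * Y), div_le_one (by positivity)]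
        have h3 : |ξ| ≤ Y := abs_le.2 ⟨hξ.1, hξ.2⟩
        linarith
      have h4 := sq_abs (ξ / (2 * Y))
      rw [← h4]
      exact pow_le_one₀ (abs_nonneg _) h2
    have h5 : 1 ≤ Real.exp π * Real.exp (-π * (ξ / (2 * Y)) ^ 2) := by
      rw [← Real.exp_add]
      apply Real.one_le_exp
      nlinarith [Real.pi_pos]
    have h6 : 0 ≤ ‖Es k β A ξ‖ ^ 2 := by positivity
    calc ‖Es k β A ξ‖ ^ 2 = 1 * ‖Es k β A ξ‖ ^ 2 := by ring
      _ ≤ (Real.exp π * Real.exp (-π * (ξ / (2 * Y)) ^ 2)) * ‖Es k β A ξ‖ ^ 2 :=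
        mul_le_mul_of_nonneg_right h5 h6
      _ = _ := by ring
  have step2 : ∫ ξ in (-Y)..Y, Real.exp π * (Real.exp (-π * (ξ / (2 * Y)) ^ 2) * ‖Es k β A ξ‖ ^ 2) ≤
      Real.exp π * ∫ ξ : ℝ, Real.exp (-π * (ξ / (2 * Y)) ^ 2) * ‖Es k β A ξ‖ ^ 2 := by
    rw [intervalIntegral.integral_const_mul, intervalIntegral.integral_of_le hle]
    refine mul_le_mul_of_nonneg_left ?_ (Real.exp_pos _).le
    exact setIntegral_le_integral hI (Filter.Eventually.of_forall fun ξ => by positivity)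
  have step3 : ∑ x ∈ A, ∑ x' ∈ A, 2 * Y * Real.exp (-π * (2 * Y * (Ps k β x - Ps k β x')) ^ 2) ≤
      ∑ x ∈ A, 2 * Y * (C0 * N) := by
    refine Finset.sum_le_sum fun x _ => ?_
    rw [← Finset.mul_sum]
    refine mul_le_mul_of_nonneg_left ?_ (by positivity)
    have h1 := hcell (fun _ => Y) (fun _ => hY) A (fun x' _ => Ps k β x') N ?_
      (fun _ => Ps k β x)
    · simpa using h1
    · intro c
      refine le_trans ?_ (hN (fun _ => c 0))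
      unfold Nm
      refine Nat.cast_le.2 (Finset.card_le_card fun x' hx' => ?_)
      rw [Finset.mem_filter] at hx' ⊢
      refine ⟨hx'.1, fun i hi => ?_⟩
      have hi0 : i = 0 := by omega
      rw [hi0]
      exact hx'.2 0
  calc ∫ ξ in (-Y)..Y, ‖Es k β A ξ‖ ^ 2 ≤ _ := step1
    _ ≤ _ := step2
    _ ≤ Real.exp π * ∑ x ∈ A, 2 * Y * (C0 * N) := by
      rw [hval]
      exact mul_le_mul_of_nonneg_left step3 (Real.exp_pos _).le
    _ = Real.exp π * (2 * C0) * Y * A.card * N := by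
      rw [Finset.sum_const, nsmul_eq_mul]
      ring

end Pool.Agent.Lib.MP_570bef_ntWD
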