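import Mathlib

/-!
# Hd: Hausdorff dimension of a limsup set (medium; model: hdim_lemma in MP_570bef_ntRE/HDim.lean)

For J ≥ n₀ the limsup set is covered by the intervals Icc p.1 (p.1 + p.2), p ∈ F n, n ≥ J, of diameter p.2 ≤ C (1/2)^n ≤ C (1/2)^J, and
∑_(n ≥ J) ∑_(p ∈ F n) p.2^s ≤ C ∑_(n ≥ J) (1/2)^n = 2 C (1/2)^J → 0. Measure.hausdorffMeasure_le_liminf_tsum (index type
ι J = Σ n : ℕ, {p // p ∈ F (n + J)}, countable) gives μH[s] = 0, and dimH_le_of_hausdorffMeasure_ne_top. See the model for the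
exact use (there the cover is by consecutive intervals).
-/

set_option autoImplicit false

open MeasureTheory

namespace Pool.Agent.Lib.MP_570bef_ntWD

theorem haus (E : ℕ → Set ℝ) (s C : ℝ) (hs : 0 < s) (hC : 0 < C) (n₀ : ℕ)
    (h : ∀ n ≥ n₀, ∃ F : Finset (ℝ × ℝ), E n ⊆ ⋃ p ∈ F, Set.Icc p.1 (p.1 + p.2) ∧
      (∀ p ∈ F, 0 < p.2 ∧ p.2 ≤ C * (1 / 2 : ℝ) ^ n) ∧ ∑ p ∈ F, p.2 ^ s ≤ C * (1 / 2 : ℝ) ^ n) :
    dimH {x : ℝ | ∀ J : ℕ, ∃ n ≥ J, x ∈ E n} ≤ ENNReal.ofReal s := by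
  have hex : ∀ n : ℕ, ∃ F : Finset (ℝ × ℝ), n₀ ≤ n → (E n ⊆ ⋃ p ∈ F, Set.Icc p.1 (p.1 + p.2) ∧
      (∀ p ∈ F, 0 < p.2 ∧ p.2 ≤ C * (1 / 2 : ℝ) ^ n) ∧ ∑ p ∈ F, p.2 ^ s ≤ C * (1 / 2 : ℝ) ^ n) := by
    intro n
    by_cases hn : n₀ ≤ n
    · obtain ⟨F, hF⟩ := h n hn
      exact ⟨F, fun _ => hF⟩
    · exact ⟨∅, fun h1 => absurd h1 hn⟩
  choose F hF using hex
  have hdn : ((Real.toNNReal s : NNReal) : ℝ) = s := Real.coe_toNNReal s hs.le
  have hmain : Measure.hausdorffMeasure (X := ℝ) s {x : ℝ | ∀ J : ℕ, ∃ n ≥ J, x ∈ E n} = 0 := by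
    let ι : ℕ → Type := fun J => Σ k : ℕ, {p : ℝ × ℝ // p ∈ F (k + J)}
    let t : ∀ J : ℕ, ι J → Set ℝ := fun J i => Set.Icc (i.2 : ℝ × ℝ).1 ((i.2 : ℝ × ℝ).1 + (i.2 : ℝ × ℝ).2)
    have hdiam : ∀ (J : ℕ) (i : ι J), Metric.ediam (t J i) = ENNReal.ofReal ((i.2 : ℝ × ℝ).2) := by
      intro J i
      simp only [t]
      rw [Real.ediam_Icc]
      congr 1
      ring
    let R : ℕ → ENNReal := fun J => ENNReal.ofReal (C * (1 / 2 : ℝ) ^ J)
    have hR : Filter.Tendsto R Filter.atTop (nhds 0) := by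
      have h3 : Filter.Tendsto (fun j : ℕ => (1 / 2 : ℝ) ^ j) Filter.atTop (nhds 0) :=
        tendsto_pow_atTop_nhds_zero_of_lt_one (by norm_num) (by norm_num)
      have h4 := h3.const_mul C
      rw [mul_zero] at h4
      have h5 := ENNReal.tendsto_ofReal h4
      rwa [ENNReal.ofReal_zero] at h5
    have hanti : ∀ J k : ℕ, C * (1 / 2 : ℝ) ^ (k + J) ≤ C * (1 / 2 : ℝ) ^ J := by
      intro J k
      refine mul_le_mul_of_nonneg_left ?_ hC.le
      exact pow_le_pow_of_le_one (by norm_num) (by norm_num) (Nat.le_add_left J k)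
    have hle := Measure.hausdorffMeasure_le_liminf_tsum (X := ℝ) s
      {x : ℝ | ∀ J : ℕ, ∃ n ≥ J, x ∈ E n} (l := Filter.atTop) R hR t
      (by
        filter_upwards [Filter.eventually_ge_atTop n₀] with J hJ i
        rw [hdiam]
        exact ENNReal.ofReal_le_ofReal
          ((((hF (i.1 + J) (le_trans hJ (Nat.le_add_left _ _))).2.1 _ i.2.2).2).trans (hanti J i.1)))
      (by
        filter_upwards [Filter.eventually_ge_atTop n₀] with J hJ x hx
        obtain ⟨j, hj, hxj⟩ := hx J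
        have h1 := (hF j (le_trans hJ hj)).1 hxj
        rw [Set.mem_iUnion₂] at h1
        obtain ⟨m, hm, hxm⟩ := h1
        obtain ⟨k, rfl⟩ : ∃ k, j = k + J := ⟨j - J, (Nat.sub_add_cancel hj).symm⟩
        exact Set.mem_iUnion.2 ⟨⟨k, ⟨m, hm⟩⟩, hxm⟩)
    have hsum : ∀ J, ∑' i : ι J, Metric.ediam (t J i) ^ s =
        ∑' k : ℕ, ∑ p ∈ F (k + J), ENNReal.ofReal p.2 ^ s := by
      intro J
      refine (ENNReal.tsum_sigma' (fun i : ι J => Metric.ediam (t J i) ^ s)).trans ?_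
      refine tsum_congr fun k => ?_
      simp only [hdiam]
      rw [tsum_fintype]
      exact Finset.sum_coe_sort (F (k + J)) fun p => ENNReal.ofReal p.2 ^ s
    let g : ℕ → ENNReal := fun j => ENNReal.ofReal (C * (1 / 2 : ℝ) ^ j)
    have hg : ∑' j, g j ≠ ⊤ := by
      have h1 : Summable fun j : ℕ => C * (1 / 2 : ℝ) ^ j :=
        (summable_geometric_of_lt_one (by norm_num) (by norm_num)).mul_left C
      exact h1.tsum_ofReal_ne_top
    have hg0 := ENNReal.tendsto_sum_nat_add g hg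
    have hterm : ∀ J ≥ n₀, ∑' i : ι J, Metric.ediam (t J i) ^ s ≤ ∑' k : ℕ, g (k + J) := by
      intro J hJ
      rw [hsum]
      refine ENNReal.tsum_le_tsum fun k => ?_
      obtain ⟨-, h2, h3⟩ := hF (k + J) (le_trans hJ (Nat.le_add_left _ _))
      have h4 : ∑ p ∈ F (k + J), ENNReal.ofReal p.2 ^ s = ENNReal.ofReal (∑ p ∈ F (k + J), p.2 ^ s) := by
        rw [ENNReal.ofReal_sum_of_nonneg fun p hp => Real.rpow_nonneg (h2 p hp).1.le _]
        exact Finset.sum_congr rfl fun p hp => ENNReal.ofReal_rpow_of_pos (h2 p hp).1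
      rw [h4]
      exact ENNReal.ofReal_le_ofReal h3
    have hlim : Filter.Tendsto (fun J => ∑' i : ι J, Metric.ediam (t J i) ^ s) Filter.atTop
        (nhds 0) := by
      refine tendsto_of_tendsto_of_tendsto_of_le_of_le' tendsto_const_nhds hg0
        (Filter.Eventually.of_forall fun J => zero_le) ?_
      filter_upwards [Filter.eventually_ge_atTop n₀] with J hJ
      exact hterm J hJ
    rw [hlim.liminf_eq] at hle
    exact le_antisymm hle zero_le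
  refine dimH_le_of_hausdorffMeasure_ne_top ?_
  rw [hdn, hmain]
  exact ENNReal.zero_ne_top


end Pool.Agent.Lib.MP_570bef_ntWD
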