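import Mathlib
import Pool.Agent.Lib.MP_570bef_ntS.BasC
import Pool.Agent.Lib.MP_570bef_ntS.ItS
import Pool.Agent.Lib.MP_570bef_ntM.IterA
import Pool.Agent.Lib.MP_50b5e1_nt.X.VdC
import Pool.Agent.Lib.MP_570bef_ntWD.Def2

/-!
# ItL: q van der Corput steps with a saving independent of k (easy+: copy of it_claim, it_w in MP_570bef_ntS/ItS.lean)

Copy the proof of it_claim and it_w (and the private lemmas of that file) with ν = 1/(8 (q+1)) in place of 1/(8 k); the only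
place where k was used is (number of steps) ν ≤ 1/8: here l.prod ≤ P^(ν q) ≤ P^(1/8) (list_bounds) since ν q ≤ 1/8, and ν ≤ 1/8.
Claim(r), r ≤ q, by induction: for all lists l of length q - r with entries 1 ≤ h ≤ P^ν and P ≤ a, b ≤ 2P + 1:
‖∑_(Ico a b) e (α dk k l (n + β))‖ ≤ C P^(1 - ν/2^r). For r = q, l = []: the exponent is 1 - 1/(8 (q+1) 2^q).
-/

set_option autoImplicit false

open Finset Real MeasureTheory
open Pool.Agent.Lib.MP_2a816b_nt (e norm_e conj_e e_add e_neg)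

namespace Pool.Agent.Lib.MP_570bef_ntWD

open Pool.Agent.Lib.MP_570bef_ntS

private theorem ItL_nse (a b : ℕ) (F : ℕ → ℝ) :
    ‖∑ n ∈ Ico a b, e (F n)‖ ≤ ((b - a : ℕ) : ℝ) := by
  refine (norm_sum_le _ _).trans (le_of_eq ?_)
  rw [Finset.sum_congr rfl fun n _ => norm_e (F n), Finset.sum_const, Nat.card_Ico, nsmul_eq_mul,
    mul_one]

private theorem ItL_vdc (k : ℕ) (α β : ℝ) (l : List ℕ) (a b H : ℕ) (hab : a ≤ b) (hH : 1 ≤ H)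
    (hHN : H ≤ b - a) :
    ‖∑ n ∈ Ico a b, e (α * dk k l ((n : ℝ) + β))‖ ^ 2 ≤ 2 * ((b : ℝ) - a) / H *
      (((b : ℝ) - a) + 2 * ∑ h ∈ Ico 1 H,
        ‖∑ n ∈ Ico a (b - h), e (α * dk k (h :: l) ((n : ℝ) + β))‖) := by
  have h := Pool.Agent.Lib.MP_50b5e1_nt.vdc (fun n => α * dk k l ((n : ℝ) + β)) a b H hab hH hHN
  have e1 : ∀ h n : ℕ, α * dk k l (((n + h : ℕ) : ℝ) + β) - α * dk k l ((n : ℝ) + β) =
      α * dk k (h :: l) ((n : ℝ) + β) := by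
    intro h n
    have h2 : dk k (h :: l) ((n : ℝ) + β) =
      dk k l (((n : ℝ) + β) + h) - dk k l ((n : ℝ) + β) := rfl
    have h3 : ((n + h : ℕ) : ℝ) + β = ((n : ℝ) + β) + h := by
      push_cast
      ring
    rw [h2, h3]
    ring
  simp only [e1] at h
  exact h

private theorem ItL_base (k q : ℕ) (hq : q + 2 ≤ k) :
    ∃ C : ℝ, 0 < C ∧ ∀ (P : ℕ) (α β : ℝ), 1 ≤ P → 0 < α → 0 ≤ β → β ≤ 1 →
      (P : ℝ) ^ ((q : ℝ) + 1 / 4) ≤ α * (P : ℝ) ^ k → α * (P : ℝ) ^ k ≤ (P : ℝ) ^ ((q : ℝ) + 5 / 4) →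
      ∀ l : List ℕ, l.length = q → (∀ h ∈ l, 1 ≤ h ∧ (h : ℝ) ≤ (P : ℝ) ^ (1 / (8 * ((q : ℝ) + 1)) : ℝ)) →
      ∀ a b : ℕ, P ≤ a → b ≤ 2 * P + 1 →
      ‖∑ n ∈ Ico a b, e (α * dk k l ((n : ℝ) + β))‖ ≤ C * (P : ℝ) ^ (1 - 1 / (8 * ((q : ℝ) + 1)) : ℝ) := by
  obtain ⟨C, hC, hb⟩ := bas k q hq
  refine ⟨C + 2 * ((q : ℝ) + 1) ^ 2, by positivity, ?_⟩
  intro P α β hP hα hβ0 hβ1 h1 h2 l hl hl2 a b ha hb2
  have hx : (1 : ℝ) ≤ P := by exact_mod_cast hP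
  have hx0 : (0 : ℝ) < P := by linarith
  have hQ1 : (1 : ℝ) ≤ (q : ℝ) + 1 := by
    have hq00 : (0 : ℝ) ≤ q := Nat.cast_nonneg q
    linarith
  have hqQ : (q : ℝ) ≤ (q : ℝ) + 1 := by linarith
  have hν0 : (0 : ℝ) ≤ 1 / (8 * ((q : ℝ) + 1)) := by positivity
  have hν1 : (1 : ℝ) / (8 * ((q : ℝ) + 1)) ≤ 1 / 8 := by
    rw [div_le_div_iff₀ (by positivity) (by norm_num)]
    linarith
  have hpw : (1 : ℝ) ≤ (P : ℝ) ^ (1 - 1 / (8 * ((q : ℝ) + 1)) : ℝ) :=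
    Real.one_le_rpow hx (by linarith)
  by_cases hbig : (q : ℝ) + 1 ≤ (P : ℝ) ^ (1 / 2 : ℝ)
  · have hlb := Pool.Agent.Lib.MP_570bef_ntM.list_bounds (1 / (8 * ((q : ℝ) + 1))) P hP hν0 l hl2
    have h3 : ((l.prod : ℕ) : ℝ) ≤ (P : ℝ) ^ (1 / 8 : ℝ) := by
      refine hlb.1.trans (Real.rpow_le_rpow_of_exponent_le hx ?_)
      rw [hl, one_div, inv_mul_eq_div, div_le_iff₀ (by positivity)]
      linarith
    have h4 : ((l.sum : ℕ) : ℝ) + (P : ℝ) ^ (1 / 2 : ℝ) ≤ P := by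
      have h5 : (P : ℝ) ^ (1 / (8 * ((q : ℝ) + 1)) : ℝ) ≤ (P : ℝ) ^ (1 / 2 : ℝ) :=
        Real.rpow_le_rpow_of_exponent_le hx (by linarith)
      have h6 : ((l.sum : ℕ) : ℝ) ≤ q * (P : ℝ) ^ (1 / 2 : ℝ) := by
        refine hlb.2.trans ?_
        rw [hl]
        exact mul_le_mul_of_nonneg_left h5 (Nat.cast_nonneg _)
      have h7 : (P : ℝ) ^ (1 / 2 : ℝ) * (P : ℝ) ^ (1 / 2 : ℝ) = P := by
        rw [← Real.rpow_add hx0]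
        norm_num
      have h8 : 0 < (P : ℝ) ^ (1 / 2 : ℝ) := Real.rpow_pos_of_pos hx0 _
      calc ((l.sum : ℕ) : ℝ) + (P : ℝ) ^ (1 / 2 : ℝ)
          ≤ q * (P : ℝ) ^ (1 / 2 : ℝ) + (P : ℝ) ^ (1 / 2 : ℝ) := by linarith
        _ = ((q : ℝ) + 1) * (P : ℝ) ^ (1 / 2 : ℝ) := by ring
        _ ≤ (P : ℝ) ^ (1 / 2 : ℝ) * (P : ℝ) ^ (1 / 2 : ℝ) :=
            mul_le_mul_of_nonneg_right hbig h8.le
        _ = P := h7
    have h9 := hb P α β hP hα hβ0 hβ1 h1 h2 l hl (fun h hh => (hl2 h hh).1) h3 h4 a b ha hb2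
    have h10 : (P : ℝ) ^ (7 / 8 : ℝ) ≤ (P : ℝ) ^ (1 - 1 / (8 * ((q : ℝ) + 1)) : ℝ) :=
      Real.rpow_le_rpow_of_exponent_le hx (by linarith)
    calc ‖∑ n ∈ Ico a b, e (α * dk k l ((n : ℝ) + β))‖ ≤ C * (P : ℝ) ^ (7 / 8 : ℝ) := h9
      _ ≤ C * (P : ℝ) ^ (1 - 1 / (8 * ((q : ℝ) + 1)) : ℝ) := mul_le_mul_of_nonneg_left h10 hC.le
      _ ≤ (C + 2 * ((q : ℝ) + 1) ^ 2) * (P : ℝ) ^ (1 - 1 / (8 * ((q : ℝ) + 1)) : ℝ) := by
          refine mul_le_mul_of_nonneg_right ?_ (by linarith)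
          have : (0 : ℝ) ≤ 2 * ((q : ℝ) + 1) ^ 2 := by positivity
          linarith
  · have h3 : (P : ℝ) < ((q : ℝ) + 1) ^ 2 := by
      by_contra hcon
      apply hbig
      have h4 : (((q : ℝ) + 1) ^ 2) ^ (1 / 2 : ℝ) ≤ (P : ℝ) ^ (1 / 2 : ℝ) :=
        Real.rpow_le_rpow (by positivity) (not_lt.1 hcon) (by norm_num)
      have h5 : (((q : ℝ) + 1) ^ 2) ^ (1 / 2 : ℝ) = (q : ℝ) + 1 := by
        rw [← Real.sqrt_eq_rpow, Real.sqrt_sq (by positivity)]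
      rwa [h5] at h4
    have h4 := ItL_nse a b (fun n => α * dk k l ((n : ℝ) + β))
    have h5 : ((b - a : ℕ) : ℝ) ≤ P + 1 := by
      have : b - a ≤ P + 1 := by omega
      exact_mod_cast this
    calc ‖∑ n ∈ Ico a b, e (α * dk k l ((n : ℝ) + β))‖ ≤ P + 1 := h4.trans h5
      _ ≤ 2 * ((q : ℝ) + 1) ^ 2 := by linarith
      _ ≤ (C + 2 * ((q : ℝ) + 1) ^ 2) * 1 := by linarith
      _ ≤ (C + 2 * ((q : ℝ) + 1) ^ 2) * (P : ℝ) ^ (1 - 1 / (8 * ((q : ℝ) + 1)) : ℝ) :=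
          mul_le_mul_of_nonneg_left hpw (by positivity)

private theorem ItL_fin (S N H x C μ ν : ℝ) (hS : 0 ≤ S) (hx : 1 ≤ x) (hC : 0 < C) (hN0 : 0 ≤ N)
    (hN : N ≤ 2 * x) (hH : 0 < H) (hH2 : x ^ ν ≤ 2 * H) (hμν : μ ≤ ν)
    (hS2 : S ^ 2 ≤ 2 * N / H * (N + 2 * (H * (C * x ^ (1 - μ))))) :
    S ≤ Real.sqrt (16 + 8 * C) * x ^ (1 - μ / 2) := by
  have hx0 : 0 < x := by linarith
  have h1 : (Real.sqrt (16 + 8 * C) * x ^ (1 - μ / 2)) ^ 2 = (16 + 8 * C) * x ^ (2 - μ) := by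
    rw [mul_pow, Real.sq_sqrt (by positivity), ← Real.rpow_natCast (x ^ (1 - μ / 2)) 2,
      ← Real.rpow_mul hx0.le]
    congr 2
    push_cast
    ring
  have h2 : x * x ^ (1 - μ) = x ^ (2 - μ) := by
    have h3 : x ^ (1 : ℝ) * x ^ (1 - μ) = x ^ (1 + (1 - μ)) := (Real.rpow_add hx0 1 (1 - μ)).symm
    rw [Real.rpow_one] at h3
    rw [h3]
    congr 1
    ring
  have h3 : x ^ 2 ≤ 2 * H * x ^ (2 - μ) := by
    have h4 : x ^ ν * x ^ (2 - μ) = x ^ (2 + (ν - μ)) := by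
      rw [← Real.rpow_add hx0]
      congr 1
      ring
    have h5 : x ^ (2 : ℕ) ≤ x ^ (2 + (ν - μ)) := by
      rw [← Real.rpow_natCast]
      exact Real.rpow_le_rpow_of_exponent_le hx (by push_cast; linarith)
    have h6 : 0 < x ^ (2 - μ) := Real.rpow_pos_of_pos hx0 _
    calc x ^ 2 ≤ x ^ ν * x ^ (2 - μ) := by rw [h4]; exact h5
      _ ≤ 2 * H * x ^ (2 - μ) := mul_le_mul_of_nonneg_right hH2 h6.le
  have h7 : 0 < x ^ (1 - μ) := Real.rpow_pos_of_pos hx0 _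
  have h8 : 2 * N / H * (N + 2 * (H * (C * x ^ (1 - μ)))) ≤ (16 + 8 * C) * x ^ (2 - μ) := by
    have h9 : 2 * N / H * (N + 2 * (H * (C * x ^ (1 - μ)))) =
        2 * N ^ 2 / H + 4 * N * C * x ^ (1 - μ) := by
      field_simp
      ring
    rw [h9]
    have h10 : 2 * N ^ 2 / H ≤ 16 * x ^ (2 - μ) := by
      rw [div_le_iff₀ hH]
      have : N ^ 2 ≤ (2 * x) ^ 2 := pow_le_pow_left₀ hN0 hN 2
      nlinarith
    have h11 : 4 * N * C * x ^ (1 - μ) ≤ 8 * C * x ^ (2 - μ) := by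
      rw [← h2]
      have : N * (C * x ^ (1 - μ)) ≤ 2 * x * (C * x ^ (1 - μ)) :=
        mul_le_mul_of_nonneg_right hN (by positivity)
      nlinarith
    linarith
  have h12 : 0 ≤ Real.sqrt (16 + 8 * C) * x ^ (1 - μ / 2) := by positivity
  rw [← pow_le_pow_iff_left₀ hS h12 two_ne_zero, h1]
  exact hS2.trans h8

private theorem ItL_claim (k q : ℕ) (hq : q + 2 ≤ k) (r : ℕ) (hr : r ≤ q) :
    ∃ C : ℝ, 0 < C ∧ ∀ (P : ℕ) (α β : ℝ), 1 ≤ P → 0 < α → 0 ≤ β → β ≤ 1 →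
      (P : ℝ) ^ ((q : ℝ) + 1 / 4) ≤ α * (P : ℝ) ^ k → α * (P : ℝ) ^ k ≤ (P : ℝ) ^ ((q : ℝ) + 5 / 4) →
      ∀ l : List ℕ, l.length + r = q → (∀ h ∈ l, 1 ≤ h ∧ (h : ℝ) ≤ (P : ℝ) ^ (1 / (8 * ((q : ℝ) + 1)) : ℝ)) →
      ∀ a b : ℕ, P ≤ a → b ≤ 2 * P + 1 →
      ‖∑ n ∈ Ico a b, e (α * dk k l ((n : ℝ) + β))‖ ≤
        C * (P : ℝ) ^ (1 - 1 / (8 * ((q : ℝ) + 1)) / 2 ^ r : ℝ) := by
  induction r with
  | zero =>
    obtain ⟨C, hC, h⟩ := ItL_base k q hq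
    refine ⟨C, hC, ?_⟩
    intro P α β hP hα hβ0 hβ1 h1 h2 l hl hl2 a b ha hb
    rw [pow_zero, div_one]
    exact h P α β hP hα hβ0 hβ1 h1 h2 l (by omega) hl2 a b ha hb
  | succ r ih =>
    obtain ⟨C, hC, h⟩ := ih (by omega)
    refine ⟨Real.sqrt (16 + 8 * C), Real.sqrt_pos.2 (by positivity), ?_⟩
    intro P α β hP hα hβ0 hβ1 h1 h2 l hl hl2 a b ha hb
    have hx : (1 : ℝ) ≤ P := by exact_mod_cast hP
    have hx0 : (0 : ℝ) < P := by linarith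
    have hQ1 : (1 : ℝ) ≤ (q : ℝ) + 1 := by
      have hq00 : (0 : ℝ) ≤ q := Nat.cast_nonneg q
      linarith
    have hν0 : (0 : ℝ) ≤ 1 / (8 * ((q : ℝ) + 1)) := by positivity
    have hν1 : (1 : ℝ) / (8 * ((q : ℝ) + 1)) ≤ 1 / 8 := by
      rw [div_le_div_iff₀ (by positivity) (by norm_num)]
      linarith
    have hμ : (1 : ℝ) / (8 * ((q : ℝ) + 1)) / 2 ^ (r + 1) = 1 / (8 * ((q : ℝ) + 1)) / 2 ^ r / 2 := by
      rw [pow_succ]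
      field_simp
    have hμν : (1 : ℝ) / (8 * ((q : ℝ) + 1)) / 2 ^ r ≤ 1 / (8 * ((q : ℝ) + 1)) :=
      div_le_self hν0 (one_le_pow₀ (by norm_num))
    have hxν : (1 : ℝ) ≤ (P : ℝ) ^ (1 / (8 * ((q : ℝ) + 1)) : ℝ) := Real.one_le_rpow hx hν0
    have hH1 : 1 ≤ ⌊(P : ℝ) ^ (1 / (8 * ((q : ℝ) + 1)) : ℝ)⌋₊ := by
      rw [Nat.one_le_floor_iff]
      exact hxν
    have hHle : ((⌊(P : ℝ) ^ (1 / (8 * ((q : ℝ) + 1)) : ℝ)⌋₊ : ℕ) : ℝ) ≤ (P : ℝ) ^ (1 / (8 * ((q : ℝ) + 1)) : ℝ) :=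
      Nat.floor_le (by linarith)
    have hHlt : (P : ℝ) ^ (1 / (8 * ((q : ℝ) + 1)) : ℝ) < (⌊(P : ℝ) ^ (1 / (8 * ((q : ℝ) + 1)) : ℝ)⌋₊ : ℕ) + 1 :=
      Nat.lt_floor_add_one _
    set H := ⌊(P : ℝ) ^ (1 / (8 * ((q : ℝ) + 1)) : ℝ)⌋₊ with hHdef
    have hH1r : (1 : ℝ) ≤ H := by exact_mod_cast hH1
    have hsq : (1 : ℝ) ≤ Real.sqrt (16 + 8 * C) := by
      rw [Real.one_le_sqrt]
      linarith
    rw [hμ]
    by_cases hab : a + H ≤ b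
    · have h3 := ItL_vdc k α β l a b H (by omega) hH1 (by omega)
      have hab' : (a : ℝ) ≤ b := by exact_mod_cast (show a ≤ b by omega)
      have hN : (b : ℝ) - a ≤ 2 * P := by
        have h4 : b ≤ a + P + 1 := by omega
        have h5 : (b : ℝ) ≤ a + P + 1 := by exact_mod_cast h4
        linarith
      refine ItL_fin _ ((b : ℝ) - a) H P C _ (1 / (8 * ((q : ℝ) + 1))) (norm_nonneg _) hx hC (by linarith) hN
        (by linarith) (by linarith) hμν ?_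
      refine h3.trans ?_
      refine mul_le_mul_of_nonneg_left ?_ (div_nonneg (by linarith) (by linarith))
      have h6 : ∀ i ∈ Ico 1 H, ‖∑ n ∈ Ico a (b - i), e (α * dk k (i :: l) ((n : ℝ) + β))‖ ≤
          C * (P : ℝ) ^ (1 - 1 / (8 * ((q : ℝ) + 1)) / 2 ^ r : ℝ) := by
        intro i hi
        rw [Finset.mem_Ico] at hi
        refine h P α β hP hα hβ0 hβ1 h1 h2 (i :: l) (by rw [List.length_cons]; omega) ?_ a (b - i) ha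
          (by omega)
        intro j hj
        rcases List.mem_cons.1 hj with h7 | h7
        · rw [h7]
          refine ⟨hi.1, le_trans ?_ hHle⟩
          exact_mod_cast hi.2.le
        · exact hl2 j h7
      have h8 : ∑ i ∈ Ico 1 H, ‖∑ n ∈ Ico a (b - i), e (α * dk k (i :: l) ((n : ℝ) + β))‖ ≤
          H * (C * (P : ℝ) ^ (1 - 1 / (8 * ((q : ℝ) + 1)) / 2 ^ r : ℝ)) := by
        refine (Finset.sum_le_card_nsmul _ _ _ h6).trans ?_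
        rw [nsmul_eq_mul, Nat.card_Ico]
        refine mul_le_mul_of_nonneg_right ?_ (by positivity)
        exact_mod_cast Nat.sub_le H 1
      linarith
    · have h4 := ItL_nse a b (fun n => α * dk k l ((n : ℝ) + β))
      have h5 : ((b - a : ℕ) : ℝ) ≤ H := by
        have : b - a ≤ H := by omega
        exact_mod_cast this
      have h6 : (P : ℝ) ^ (1 / (8 * ((q : ℝ) + 1)) : ℝ) ≤ (P : ℝ) ^ (1 - 1 / (8 * ((q : ℝ) + 1)) / 2 ^ r / 2 : ℝ) :=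
        Real.rpow_le_rpow_of_exponent_le hx (by linarith)
      calc ‖∑ n ∈ Ico a b, e (α * dk k l ((n : ℝ) + β))‖ ≤ (P : ℝ) ^ (1 / (8 * ((q : ℝ) + 1)) : ℝ) :=
            h4.trans (h5.trans hHle)
        _ ≤ 1 * (P : ℝ) ^ (1 - 1 / (8 * ((q : ℝ) + 1)) / 2 ^ r / 2 : ℝ) := by rw [one_mul]; exact h6
        _ ≤ Real.sqrt (16 + 8 * C) * (P : ℝ) ^ (1 - 1 / (8 * ((q : ℝ) + 1)) / 2 ^ r / 2 : ℝ) :=
            mul_le_mul_of_nonneg_right hsq (by positivity)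

theorem it_low (k q : ℕ) (hq : q + 2 ≤ k) :
    ∃ C : ℝ, 0 < C ∧ ∀ (P : ℕ) (α β : ℝ), 1 ≤ P → 0 < α → 0 ≤ β → β ≤ 1 →
      (P : ℝ) ^ ((q : ℝ) + 1 / 4) ≤ α * (P : ℝ) ^ k → α * (P : ℝ) ^ k ≤ (P : ℝ) ^ ((q : ℝ) + 5 / 4) →
      ‖VS k β P α‖ ≤ C * (P : ℝ) ^ (1 - 1 / (8 * ((q : ℝ) + 1) * 2 ^ q) : ℝ) := by
  obtain ⟨C, hC, h⟩ := ItL_claim k q hq q le_rfl
  refine ⟨C, hC, ?_⟩
  intro P α β hP hα hβ0 hβ1 h1 h2
  have h3 := h P α β hP hα hβ0 hβ1 h1 h2 [] (by rw [List.length_nil, zero_add])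
    (fun h hh => absurd hh List.not_mem_nil) P (2 * P) le_rfl (by omega)
  have h4 : VS k β P α = ∑ n ∈ Ico P (2 * P), e (α * dk k [] ((n : ℝ) + β)) := rfl
  rw [h4]
  have h5 : (1 : ℝ) / (8 * ((q : ℝ) + 1) * 2 ^ q) = 1 / (8 * ((q : ℝ) + 1)) / 2 ^ q := by
    rw [div_div]
  rw [h5]
  exact h3

end Pool.Agent.Lib.MP_570bef_ntWD
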