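import Mathlib
import Pool.Agent.Lib.MP_570bef_ntS.KLs
import Pool.Agent.Lib.MP_570bef_ntWD.Def2

/-!
# KLo: the low range, all shifts (easy+)

α < 0 by conjugation. kl_s with l = [] (dk k [] x = x^k, descFactorial k 1 = k, prod = 1, a = P, b = 2P): its hypothesis is
α k (4P)^(k-1) ≤ 1/2: α P^(k-1) ≤ P^(-1/4), so it holds when k 4^(k-1) P^(-1/4) ≤ 1/2, i.e. P ≥ P₀ := (2 k 4^(k-1))^4. Its
conclusion: ‖VS‖ ≤ 2/(α k P^(k-1)) ≤ 2 P/(α P^k).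
-/

set_option autoImplicit false

open Finset Real MeasureTheory
open Pool.Agent.Lib.MP_2a816b_nt (e norm_e conj_e e_add e_neg)

namespace Pool.Agent.Lib.MP_570bef_ntWD

open Pool.Agent.Lib.MP_570bef_ntS

private lemma KLo_pos (k : ℕ) (hk : 2 ≤ k) (P : ℕ) (α β : ℝ)
    (hP : (2 * k * 4 ^ (k - 1)) ^ 4 ≤ P) (hβ : 0 ≤ β) (hβ1 : β ≤ 1) (hα : 0 < α)
    (h : α * (P : ℝ) ^ k ≤ (P : ℝ) ^ (3 / 4 : ℝ)) :
    ‖VS k β P α‖ ≤ 2 * P / (α * (P : ℝ) ^ k) := by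
  obtain ⟨d, rfl⟩ : ∃ d, k = d + 1 := ⟨k - 1, by omega⟩
  have e0 : d + 1 - 1 = d := by omega
  rw [e0] at hP
  have hM : 1 ≤ 2 * (d + 1) * 4 ^ d := Nat.one_le_iff_ne_zero.2 (by positivity)
  have hPn : 1 ≤ P := le_trans (Nat.one_le_pow _ _ hM) hP
  have hP1 : (1 : ℝ) ≤ P := by exact_mod_cast hPn
  have hP0 : (0 : ℝ) < P := by linarith
  have hPr : (2 * ((d : ℝ) + 1) * 4 ^ d) ^ (4 : ℕ) ≤ (P : ℝ) := by exact_mod_cast hP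
  have hM0 : (0 : ℝ) ≤ 2 * ((d : ℝ) + 1) * 4 ^ d := by positivity
  have h14 : 2 * ((d : ℝ) + 1) * 4 ^ d ≤ (P : ℝ) ^ (1 / 4 : ℝ) := by
    have h1 : ((2 * ((d : ℝ) + 1) * 4 ^ d) ^ (4 : ℕ)) ^ (1 / 4 : ℝ) ≤ (P : ℝ) ^ (1 / 4 : ℝ) :=
      Real.rpow_le_rpow (by positivity) hPr (by norm_num)
    have h2 : ((2 * ((d : ℝ) + 1) * 4 ^ d) ^ (4 : ℕ)) ^ (1 / 4 : ℝ) =
        2 * ((d : ℝ) + 1) * 4 ^ d := by
      rw [← Real.rpow_natCast, ← Real.rpow_mul hM0]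
      norm_num
    rwa [h2] at h1
  have hQ0 : 0 < (P : ℝ) ^ (3 / 4 : ℝ) := Real.rpow_pos_of_pos hP0 _
  have hPP : (P : ℝ) = (P : ℝ) ^ (3 / 4 : ℝ) * (P : ℝ) ^ (1 / 4 : ℝ) := by
    rw [← Real.rpow_add hP0]
    norm_num
  have hd1 : (1 : ℝ) ≤ (d : ℝ) + 1 := by
    have : (0 : ℝ) ≤ (d : ℝ) := Nat.cast_nonneg d
    linarith
  have hPd : (0 : ℝ) < (P : ℝ) ^ d := pow_pos hP0 d
  have key := kl_s (d + 1) [] (by simp) (by simp) P P (2 * P) hPn le_rfl (by omega) (by simp) α β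
    hα hβ hβ1
  simp only [List.length_nil, zero_add, List.prod_nil, Nat.descFactorial_one, Nat.cast_one,
    mul_one, Nat.add_sub_cancel, Nat.cast_add, dk] at key
  have hup : α * ((d : ℝ) + 1) * (4 * (P : ℝ)) ^ d ≤ 1 / 2 := by
    have h3 : α * ((d : ℝ) + 1) * (4 * (P : ℝ)) ^ d * P ≤ 1 / 2 * P := by
      calc α * ((d : ℝ) + 1) * (4 * (P : ℝ)) ^ d * P
          = (((d : ℝ) + 1) * 4 ^ d) * (α * (P : ℝ) ^ (d + 1)) := by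
            rw [mul_pow, pow_succ]
            ring
        _ ≤ (((d : ℝ) + 1) * 4 ^ d) * (P : ℝ) ^ (3 / 4 : ℝ) :=
            mul_le_mul_of_nonneg_left h (by positivity)
        _ = 1 / 2 * ((P : ℝ) ^ (3 / 4 : ℝ) * (2 * ((d : ℝ) + 1) * 4 ^ d)) := by ring
        _ ≤ 1 / 2 * ((P : ℝ) ^ (3 / 4 : ℝ) * (P : ℝ) ^ (1 / 4 : ℝ)) := by
            have := mul_le_mul_of_nonneg_left h14 hQ0.le
            linarith
        _ = 1 / 2 * P := by rw [← hPP]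
    exact le_of_mul_le_mul_right h3 hP0
  have h4 := key hup
  have h5 : 2 / (α * ((d : ℝ) + 1) * (P : ℝ) ^ d) ≤ 2 * P / (α * (P : ℝ) ^ (d + 1)) := by
    rw [div_le_div_iff₀ (by positivity) (by positivity), pow_succ]
    have h6 : α * (P : ℝ) ^ d * P ≤ α * (P : ℝ) ^ d * P * ((d : ℝ) + 1) :=
      le_mul_of_one_le_right (by positivity) hd1
    nlinarith [h6]
  exact h4.trans h5

theorem kl_low (k : ℕ) (hk : 2 ≤ k) :
    ∃ P₀ : ℕ, 1 ≤ P₀ ∧ ∀ (P : ℕ) (α β : ℝ), P₀ ≤ P → 0 ≤ β → β ≤ 1 → α ≠ 0 →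
      |α| * (P : ℝ) ^ k ≤ (P : ℝ) ^ (3 / 4 : ℝ) → ‖VS k β P α‖ ≤ 2 * P / (|α| * (P : ℝ) ^ k) := by
  refine ⟨(2 * k * 4 ^ (k - 1)) ^ 4, ?_, ?_⟩
  · exact Nat.one_le_pow _ _ (Nat.one_le_iff_ne_zero.2 (by positivity))
  intro P α β hP hβ hβ1 hα h
  rcases lt_or_gt_of_ne hα with h0 | h0
  · have h1 : |α| = -α := abs_of_neg h0
    rw [h1] at h ⊢
    have h2 := KLo_pos k hk P (-α) β hP hβ hβ1 (by linarith) h
    have h3 : VS k β P (-α) = (starRingEnd ℂ) (VS k β P α) := by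
      unfold VS
      rw [map_sum]
      refine Finset.sum_congr rfl fun n _ => ?_
      rw [conj_e, neg_mul]
    rw [h3, RCLike.norm_conj] at h2
    exact h2
  · have h1 : |α| = α := abs_of_pos h0
    rw [h1] at h ⊢
    exact KLo_pos k hk P α β hP hβ hβ1 h0 h

end Pool.Agent.Lib.MP_570bef_ntWD
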