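import Mathlib
import Pool.Agent.Lib.MP_570bef_ntWD.Defs

/-!
# Lip: the power sum maps are bi-Lipschitz near a point with distinct coordinates (medium)

Fix n ≤ j (< k). For y, y' in the box, the mean value theorem for t ↦ t^(k-a) on the segment from y l to y' l
gives (also when y l = y' l) a point c(a,l) ∈ [r l, r l + 2 η'] with y l^(k-a) - y' l^(k-a) = M(a,l) (y l - y' l),
M(a,l) = (k-a) c(a,l)^(k-a-1). At c(a,l) = r l the matrix is M0(a,l) = (k-a) (r l)^(k-a-1), and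
det M0 = ∏ (k-a) * ∏ (r l)^(k-n) * det ((r l)^(n-1-a)) ≠ 0: the last matrix is the Vandermonde matrix of the
distinct numbers r l with the rows in reverse order (Matrix.det_vandermonde_ne_zero_iff, Fin.rev,
Matrix.det_reindex or det_permute). A simpler way to non-vanishing: if a vector x has ∑_a x a M0(a,l) = 0 for all l,
then the polynomial ∑_a x a (k-a) T^(n-1-a) of degree < n has n distinct roots r l > 0, so it is zero and x = 0.
The function c ↦ det M(c) is continuous, so there are δ0 > 0 and η_n > 0 with |det M| ≥ δ0 whenever all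
|c(a,l) - r l| ≤ 2 η_n. The entries of the adjugate are bounded on this compact set, by D say. Then
y - y' = M⁻¹ (M (y - y')) = (adj M / det M) (differences of the power sums), so
|y l - y' l| ≤ (D/δ0) ∑_a |∑ y^(k-a) - ∑ y'^(k-a)|. Take for η the minimum of the η_n and for C the maximum of the
constants, n ≤ j (the case n = 0 is empty).
-/

set_option autoImplicit false

open Finset Real
open Pool.Agent.Lib.MP_2a816b_nt (e norm_e conj_e e_add e_neg)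

namespace Pool.Agent.Lib.MP_570bef_ntWD

private theorem Lip_det (k n : ℕ) (hn : n ≤ k) (r : ℕ → ℝ) (hr : ∀ i, 0 < r i) (hinj : Function.Injective r) :
    (Matrix.of fun (a l : Fin n) => ((k - (a : ℕ) : ℕ) : ℝ) * r l ^ (k - (a : ℕ) - 1)).det ≠ 0 := by
  intro h
  obtain ⟨v, hv0, hv⟩ := Matrix.exists_vecMul_eq_zero_iff.2 h
  apply hv0
  have h1 : (fun i : Fin n => ((k - ((Fin.rev i : Fin n) : ℕ) : ℕ) : ℝ) * v (Fin.rev i)) = 0 := by
    refine Matrix.eq_zero_of_forall_index_sum_pow_mul_eq_zero (f := fun l : Fin n => r l) ?_ ?_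
    · intro a b hab
      exact Fin.ext (hinj hab)
    · intro l
      have h2 : ∑ a : Fin n, v a * (((k - (a : ℕ) : ℕ) : ℝ) * r l ^ (k - (a : ℕ) - 1)) = 0 := congrFun hv l
      have h3 : r l ^ (k - n) * ∑ i : Fin n, r l ^ (i : ℕ) *
          (((k - ((Fin.rev i : Fin n) : ℕ) : ℕ) : ℝ) * v (Fin.rev i)) = 0 := by
        rw [← h2, Finset.mul_sum, ← Equiv.sum_comp Fin.revPerm
          (fun a : Fin n => v a * (((k - (a : ℕ) : ℕ) : ℝ) * r l ^ (k - (a : ℕ) - 1)))]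
        refine Finset.sum_congr rfl fun i _ => ?_
        rw [Fin.revPerm_apply]
        have h4 : k - ((Fin.rev i : Fin n) : ℕ) - 1 = (k - n) + i := by
          have h5 := i.2
          rw [Fin.val_rev]
          omega
        rw [h4, pow_add]
        ring
      exact (mul_eq_zero.1 h3).resolve_left (pow_ne_zero _ (hr l).ne')
  funext a
  have h5 := congrFun h1 (Fin.rev a)
  simp only [Fin.rev_rev, Pi.zero_apply] at h5
  have h6 : ((k - (a : ℕ) : ℕ) : ℝ) ≠ 0 := by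
    have h7 := a.2
    have h8 : k - (a : ℕ) ≠ 0 := by omega
    exact_mod_cast h8
  exact (mul_eq_zero.1 h5).resolve_left h6

private theorem Lip_inv (n : ℕ) (M0 : Matrix (Fin n) (Fin n) ℝ) (hdet : M0.det ≠ 0) :
    ∃ D : ℝ, 0 < D ∧ ∀ x : Fin n → ℝ, ∑ i, |x i| ≤ D * ∑ a, |∑ l, M0 a l * x l| := by
  refine ⟨(∑ i, ∑ a, |M0⁻¹ i a|) + 1, by positivity, fun x => ?_⟩
  have h1 : ∀ i, x i = ∑ a, M0⁻¹ i a * ∑ l, M0 a l * x l := by
    intro i
    have h2 : M0⁻¹.mulVec (M0.mulVec x) = x := by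
      rw [Matrix.mulVec_mulVec, Matrix.nonsing_inv_mul _ (isUnit_iff_ne_zero.2 hdet), Matrix.one_mulVec]
    exact (congrFun h2 i).symm
  have hT : ∀ a, |∑ l, M0 a l * x l| ≤ ∑ a, |∑ l, M0 a l * x l| := fun a =>
    Finset.single_le_sum (f := fun a => |∑ l, M0 a l * x l|) (fun _ _ => abs_nonneg _) (Finset.mem_univ a)
  have h0 : 0 ≤ ∑ a, |∑ l, M0 a l * x l| := Finset.sum_nonneg fun _ _ => abs_nonneg _
  calc ∑ i, |x i| ≤ ∑ i, ∑ a, |M0⁻¹ i a| * ∑ a, |∑ l, M0 a l * x l| := by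
        refine Finset.sum_le_sum fun i _ => ?_
        conv_lhs => rw [h1 i]
        refine (Finset.abs_sum_le_sum_abs _ _).trans (Finset.sum_le_sum fun a _ => ?_)
        rw [abs_mul]
        exact mul_le_mul_of_nonneg_left (hT a) (abs_nonneg _)
    _ = (∑ i, ∑ a, |M0⁻¹ i a|) * ∑ a, |∑ l, M0 a l * x l| := by
        rw [Finset.sum_mul]
        refine Finset.sum_congr rfl fun i _ => ?_
        rw [Finset.sum_mul]
    _ ≤ ((∑ i, ∑ a, |M0⁻¹ i a|) + 1) * ∑ a, |∑ l, M0 a l * x l| :=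
        mul_le_mul_of_nonneg_right (by linarith) h0

private theorem Lip_pert (n : ℕ) (M0 : Matrix (Fin n) (Fin n) ℝ) (hdet : M0.det ≠ 0) :
    ∃ ε C : ℝ, 0 < ε ∧ 0 < C ∧ ∀ M : Fin n → Fin n → ℝ, (∀ a l, |M a l - M0 a l| ≤ ε) →
      ∀ x : Fin n → ℝ, ∑ i, |x i| ≤ C * ∑ a, |∑ l, M a l * x l| := by
  obtain ⟨D, hD, h⟩ := Lip_inv n M0 hdet
  refine ⟨1 / (2 * D * (n + 1)), 2 * D, by positivity, by positivity, fun M hM x => ?_⟩
  have h1 := h x
  have h2 : ∀ a, |∑ l, M0 a l * x l| ≤ |∑ l, M a l * x l| + 1 / (2 * D * (n + 1)) * ∑ i, |x i| := by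
    intro a
    have h3 : ∑ l, M0 a l * x l = ∑ l, M a l * x l - ∑ l, (M a l - M0 a l) * x l := by
      rw [← Finset.sum_sub_distrib]
      exact Finset.sum_congr rfl fun l _ => by ring
    rw [h3]
    refine (abs_sub _ _).trans (add_le_add le_rfl ?_)
    rw [Finset.mul_sum]
    refine (Finset.abs_sum_le_sum_abs _ _).trans (Finset.sum_le_sum fun l _ => ?_)
    rw [abs_mul]
    exact mul_le_mul_of_nonneg_right (hM a l) (abs_nonneg _)
  have h4 : ∑ a, |∑ l, M0 a l * x l| ≤ ∑ a, |∑ l, M a l * x l| + n * (1 / (2 * D * (n + 1)) * ∑ i, |x i|) := by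
    refine (Finset.sum_le_sum fun a _ => h2 a).trans (le_of_eq ?_)
    rw [Finset.sum_add_distrib, Finset.sum_const, Finset.card_univ, Fintype.card_fin, nsmul_eq_mul]
  have h5 : D * (n * (1 / (2 * D * (n + 1)) * ∑ i, |x i|)) ≤ 1 / 2 * ∑ i, |x i| := by
    have h6 : D * (n * (1 / (2 * D * (n + 1)) * ∑ i, |x i|)) = (n : ℝ) / (n + 1) * (1 / 2 * ∑ i, |x i|) := by
      field_simp
    rw [h6]
    have h7 : (n : ℝ) / (n + 1) ≤ 1 := by
      rw [div_le_one (by positivity)]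
      linarith
    have h8 : 0 ≤ 1 / 2 * ∑ i, |x i| := mul_nonneg (by norm_num) (Finset.sum_nonneg fun _ _ => abs_nonneg _)
    calc (n : ℝ) / (n + 1) * (1 / 2 * ∑ i, |x i|) ≤ 1 * (1 / 2 * ∑ i, |x i|) := mul_le_mul_of_nonneg_right h7 h8
      _ = _ := one_mul _
  have h9 : D * ∑ a, |∑ l, M0 a l * x l| ≤
      D * (∑ a, |∑ l, M a l * x l| + n * (1 / (2 * D * (n + 1)) * ∑ i, |x i|)) :=
    mul_le_mul_of_nonneg_left h4 hD.le
  rw [mul_add] at h9
  linarith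

private theorem Lip_cont (k n : ℕ) (r : ℕ → ℝ) {ε : ℝ} (hε : 0 < ε) : ∃ η : ℝ, 0 < η ∧ ∀ a l : Fin n,
    ((k - (a : ℕ) : ℕ) : ℝ) * ((r l + 2 * η) ^ (k - (a : ℕ) - 1) - r l ^ (k - (a : ℕ) - 1)) ≤ ε := by
  have h1 : ∀ᶠ η : ℝ in nhdsWithin 0 (Set.Ioi 0), ∀ a l : Fin n,
      ((k - (a : ℕ) : ℕ) : ℝ) * ((r l + 2 * η) ^ (k - (a : ℕ) - 1) - r l ^ (k - (a : ℕ) - 1)) < ε := by
    rw [Filter.eventually_all]
    intro a
    rw [Filter.eventually_all]
    intro l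
    have h2 : Continuous fun η : ℝ =>
        ((k - (a : ℕ) : ℕ) : ℝ) * ((r l + 2 * η) ^ (k - (a : ℕ) - 1) - r l ^ (k - (a : ℕ) - 1)) := by
      fun_prop
    have h3 : Filter.Tendsto (fun η : ℝ =>
        ((k - (a : ℕ) : ℕ) : ℝ) * ((r l + 2 * η) ^ (k - (a : ℕ) - 1) - r l ^ (k - (a : ℕ) - 1)))
        (nhdsWithin 0 (Set.Ioi 0)) (nhds 0) := by
      have h4 := (h2.tendsto 0).mono_left (nhdsWithin_le_nhds (s := Set.Ioi (0 : ℝ)))
      simpa using h4
    exact h3.eventually (gt_mem_nhds hε)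
  obtain ⟨η, h5, h6⟩ := (h1.and self_mem_nhdsWithin).exists
  exact ⟨η, h6, fun a l => (h5 a l).le⟩

private theorem Lip_one (k n : ℕ) (hn : n ≤ k) (r : ℕ → ℝ) (hr : ∀ i, 0 < r i) (hinj : Function.Injective r) :
    ∃ η C : ℝ, 0 < η ∧ 0 < C ∧ ∀ y y' : Fin n → ℝ,
      (∀ i : Fin n, r i ≤ y i ∧ y i ≤ r i + 2 * η) → (∀ i : Fin n, r i ≤ y' i ∧ y' i ≤ r i + 2 * η) →
      ∀ i, |y i - y' i| ≤ C * ∑ a : Fin n, |∑ l, y l ^ (k - (a : ℕ)) - ∑ l, y' l ^ (k - (a : ℕ))| := by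
  obtain ⟨ε, C, hε, hC, h⟩ := Lip_pert n _ (Lip_det k n hn r hr hinj)
  obtain ⟨η, hη, hη2⟩ := Lip_cont k n r hε
  refine ⟨η, C, hη, hC, fun y y' hy hy' i => ?_⟩
  have h1 := h (fun a l => ∑ t ∈ Finset.range (k - (a : ℕ)), y l ^ t * y' l ^ (k - (a : ℕ) - 1 - t)) ?_
    (fun l => y l - y' l)
  · have h2 : ∀ a : Fin n, ∑ l, (∑ t ∈ Finset.range (k - (a : ℕ)), y l ^ t * y' l ^ (k - (a : ℕ) - 1 - t)) *
        (y l - y' l) = ∑ l, y l ^ (k - (a : ℕ)) - ∑ l, y' l ^ (k - (a : ℕ)) := by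
      intro a
      rw [← Finset.sum_sub_distrib]
      exact Finset.sum_congr rfl fun l _ => geom_sum₂_mul _ _ _
    simp only [h2] at h1
    exact (Finset.single_le_sum (f := fun i => |y i - y' i|) (fun _ _ => abs_nonneg _) (Finset.mem_univ i)).trans h1
  · intro a l
    rw [Matrix.of_apply]
    have h3 : ((k - (a : ℕ) : ℕ) : ℝ) * r l ^ (k - (a : ℕ) - 1) =
        ∑ t ∈ Finset.range (k - (a : ℕ)), r l ^ (k - (a : ℕ) - 1) := by
      rw [Finset.sum_const, Finset.card_range, nsmul_eq_mul]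
    have hr0 := (hr l).le
    have hy0 : 0 ≤ y l := hr0.trans (hy l).1
    have hy0' : 0 ≤ y' l := hr0.trans (hy' l).1
    have h4 : ∀ t ∈ Finset.range (k - (a : ℕ)), r l ^ (k - (a : ℕ) - 1) ≤ y l ^ t * y' l ^ (k - (a : ℕ) - 1 - t) := by
      intro t ht
      have h5 : k - (a : ℕ) - 1 = t + (k - (a : ℕ) - 1 - t) := by
        have := Finset.mem_range.1 ht
        omega
      calc r l ^ (k - (a : ℕ) - 1) = r l ^ t * r l ^ (k - (a : ℕ) - 1 - t) := by rw [← pow_add, ← h5]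
        _ ≤ y l ^ t * y' l ^ (k - (a : ℕ) - 1 - t) :=
          mul_le_mul (pow_le_pow_left₀ hr0 (hy l).1 _) (pow_le_pow_left₀ hr0 (hy' l).1 _)
            (pow_nonneg hr0 _) (pow_nonneg hy0 _)
    have h6 : ∀ t ∈ Finset.range (k - (a : ℕ)), y l ^ t * y' l ^ (k - (a : ℕ) - 1 - t) ≤
        (r l + 2 * η) ^ (k - (a : ℕ) - 1) := by
      intro t ht
      have h5 : k - (a : ℕ) - 1 = t + (k - (a : ℕ) - 1 - t) := by
        have := Finset.mem_range.1 ht
        omega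
      calc y l ^ t * y' l ^ (k - (a : ℕ) - 1 - t) ≤ (r l + 2 * η) ^ t * (r l + 2 * η) ^ (k - (a : ℕ) - 1 - t) :=
            mul_le_mul (pow_le_pow_left₀ hy0 (hy l).2 _) (pow_le_pow_left₀ hy0' (hy' l).2 _)
              (pow_nonneg hy0' _) (pow_nonneg (by linarith) _)
        _ = (r l + 2 * η) ^ (k - (a : ℕ) - 1) := by rw [← pow_add, ← h5]
    rw [h3, ← Finset.sum_sub_distrib, abs_of_nonneg (Finset.sum_nonneg fun t ht => sub_nonneg.2 (h4 t ht))]
    refine le_trans ?_ (hη2 a l)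
    refine (Finset.sum_le_sum fun t ht => sub_le_sub_right (h6 t ht) _).trans (le_of_eq ?_)
    rw [Finset.sum_const, Finset.card_range, nsmul_eq_mul]

private theorem Lip_all (k : ℕ) (r : ℕ → ℝ) (hr : ∀ i, 0 < r i) (hinj : Function.Injective r) (j : ℕ) (hj : j ≤ k) :
    ∃ η C : ℝ, 0 < η ∧ 0 < C ∧ ∀ n ≤ j, ∀ y y' : Fin n → ℝ,
      (∀ i : Fin n, r i ≤ y i ∧ y i ≤ r i + 2 * η) → (∀ i : Fin n, r i ≤ y' i ∧ y' i ≤ r i + 2 * η) →
      ∀ i, |y i - y' i| ≤ C * ∑ a : Fin n, |∑ l, y l ^ (k - (a : ℕ)) - ∑ l, y' l ^ (k - (a : ℕ))| := by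
  induction j with
  | zero =>
    refine ⟨1, 1, one_pos, one_pos, fun n hn y y' _ _ i => ?_⟩
    exact absurd i.2 (by omega)
  | succ j ih =>
    obtain ⟨η1, C1, h1, h2, h3⟩ := ih (by omega)
    obtain ⟨η2, C2, h4, h5, h6⟩ := Lip_one k (j + 1) hj r hr hinj
    refine ⟨min η1 η2, max C1 C2, lt_min h1 h4, lt_max_of_lt_left h2, fun n hn y y' hy hy' i => ?_⟩
    have h0 : 0 ≤ ∑ a : Fin n, |∑ l, y l ^ (k - (a : ℕ)) - ∑ l, y' l ^ (k - (a : ℕ))| :=
      Finset.sum_nonneg fun _ _ => abs_nonneg _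
    have hm1 := min_le_left η1 η2
    have hm2 := min_le_right η1 η2
    rcases Nat.lt_or_ge j n with h7 | h7
    · have h8 : n = j + 1 := by omega
      subst h8
      refine (h6 y y' (fun i => ⟨(hy i).1, (hy i).2.trans (by linarith)⟩)
        (fun i => ⟨(hy' i).1, (hy' i).2.trans (by linarith)⟩) i).trans ?_
      exact mul_le_mul_of_nonneg_right (le_max_right _ _) h0
    · refine (h3 n h7 y y' (fun i => ⟨(hy i).1, (hy i).2.trans (by linarith)⟩)
        (fun i => ⟨(hy' i).1, (hy' i).2.trans (by linarith)⟩) i).trans ?_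
      exact mul_le_mul_of_nonneg_right (le_max_left _ _) h0

theorem lip (k j : ℕ) (hjk : j + 1 ≤ k) (r : ℕ → ℝ) (hr : ∀ i, 0 < r i)
    (hinj : Function.Injective r) :
    ∃ η : ℝ, 0 < η ∧ ∀ η' : ℝ, 0 < η' → η' ≤ η → Lips k j r η' := by
  obtain ⟨η, C, h1, h2, h3⟩ := Lip_all k r hr hinj j (by omega)
  refine ⟨η, h1, fun η' h4 h5 => ⟨C, h2, fun n hn y y' hy hy' i => ?_⟩⟩
  exact h3 n hn y y' (fun i => ⟨(hy i).1, (hy i).2.trans (by linarith)⟩)
    (fun i => ⟨(hy' i).1, (hy' i).2.trans (by linarith)⟩) i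

end Pool.Agent.Lib.MP_570bef_ntWD
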