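import Mathlib
import Pool.Agent.Lib.MP_570bef_ntWD.Def2

/-!
# ManB: k-th powers of m + β in a short interval (medium-)

P = 2^n, W = P^(k-1/4), z = τ^(1/k) ∈ [P 2^(-1/k), 2P], 2^(-1/k) ≥ 2^(-1/2) ≥ 0.7. δ = W/(k (2P)^(k-1)) = P^(3/4)/(k 2^(k-1)). For a natural m
with z - δ ≤ m + β ≤ z: 0 ≤ z^k - (m+β)^k ≤ k z^(k-1) δ ≤ W (mean value / Bernoulli: z^k - y^k ≤ k z^(k-1) (z - y) for 0 ≤ y ≤ z). These m
are in Icc (2^(n-1)) (2^(n+1)): m ≤ z ≤ 2P, m ≥ z - δ - 1 ≥ 0.7 P - P^(3/4) - 1 ≥ P/2 for large P. Their number is ≥ δ - 1 ≥ δ/2 (large P).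
c = 1/(k 2^k).
-/

set_option autoImplicit false

open Finset Real MeasureTheory
open Pool.Agent.Lib.MP_2a816b_nt (e norm_e conj_e e_add e_neg)

namespace Pool.Agent.Lib.MP_570bef_ntWD

/-- `z^k - y^k ≤ k z^(k-1) (z - y)` -/
private theorem ManB_pow (k : ℕ) {y z : ℝ} (hy : 0 ≤ y) (hyz : y ≤ z) :
    z ^ k - y ^ k ≤ k * z ^ (k - 1) * (z - y) := by
  have hz : 0 ≤ z := hy.trans hyz
  rw [← geom_sum₂_mul]
  refine mul_le_mul_of_nonneg_right ?_ (by linarith)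
  calc ∑ i ∈ range k, z ^ i * y ^ (k - 1 - i) ≤ ∑ _i ∈ range k, z ^ (k - 1) := by
        refine Finset.sum_le_sum fun i hi => ?_
        have hik : i < k := Finset.mem_range.mp hi
        calc z ^ i * y ^ (k - 1 - i) ≤ z ^ i * z ^ (k - 1 - i) :=
              mul_le_mul_of_nonneg_left (pow_le_pow_left₀ hy hyz _) (pow_nonneg hz _)
          _ = z ^ (k - 1) := by
              rw [← pow_add]
              congr 1
              omega
    _ = k * z ^ (k - 1) := by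
        rw [Finset.sum_const, Finset.card_range, nsmul_eq_mul]

open Classical in
theorem wide_count (k : ℕ) (hk : 2 ≤ k) : ∃ (c : ℝ) (n₀ : ℕ), 0 < c ∧ 1 ≤ n₀ ∧ ∀ n ≥ n₀,
    ∀ β : ℝ, 0 ≤ β → β ≤ 1 → ∀ τ : ℝ, ((2 : ℝ) ^ n) ^ k ≤ 2 * τ → τ ≤ ((2 : ℝ) ^ (n + 1)) ^ k →
      c * ((2 : ℝ) ^ n) ^ (3 / 4 : ℝ) ≤ (((Finset.Icc (2 ^ (n - 1)) (2 ^ (n + 1))).filter
        fun m : ℕ => |((m : ℝ) + β) ^ k - τ| ≤ ((2 : ℝ) ^ n) ^ ((k : ℝ) - 1 / 4)).card : ℝ) := by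
  have hk0 : (0 : ℝ) < k := by
    have : 0 < k := by omega
    exact_mod_cast this
  refine ⟨1 / (k * 2 ^ k), 4 * k, by positivity, by omega, ?_⟩
  intro n hn β hβ0 hβ1 τ hτ1 hτ2
  obtain ⟨P, hP⟩ : ∃ P : ℝ, P = 2 ^ n := ⟨_, rfl⟩
  obtain ⟨A, hA⟩ : ∃ A : ℝ, A = P ^ (1 / 4 : ℝ) := ⟨_, rfl⟩
  have hP0 : 0 < P := by
    rw [hP]
    positivity
  have hA0 : 0 < A := by
    rw [hA]
    exact Real.rpow_pos_of_pos hP0 _
  have hA4 : A ^ 4 = P := by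
    rw [hA, ← Real.rpow_natCast, ← Real.rpow_mul hP0.le]
    norm_num
  have hA3 : P ^ (3 / 4 : ℝ) = A ^ 3 := by
    rw [hA, ← Real.rpow_natCast, ← Real.rpow_mul hP0.le]
    norm_num
  have hW : P ^ ((k : ℝ) - 1 / 4) = P ^ (k - 1) * A ^ 3 := by
    rw [← hA3, ← Real.rpow_natCast P (k - 1), ← Real.rpow_add hP0, Nat.cast_sub (by omega)]
    congr 1
    push_cast
    ring
  have hAk : (2 : ℝ) ^ k ≤ A := by
    have h1 : ((2 : ℝ) ^ k) ^ 4 ≤ A ^ 4 := by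
      rw [hA4, hP, ← pow_mul]
      exact pow_le_pow_right₀ (by norm_num) (by omega)
    exact (pow_le_pow_iff_left₀ (by positivity) hA0.le (by norm_num)).mp h1
  have hk2 : (k : ℝ) ≤ 2 ^ k := by
    have := (Nat.lt_two_pow_self (n := k)).le
    exact_mod_cast this
  have h4 : (4 : ℝ) ≤ 2 ^ k := by
    calc (4 : ℝ) = 2 ^ 2 := by norm_num
      _ ≤ 2 ^ k := pow_le_pow_right₀ (by norm_num) hk
  have hA4' : 4 ≤ A := h4.trans hAk
  have hP2 : (2 : ℝ) ^ (n + 1) = 2 * P := by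
    rw [hP, pow_succ]
    ring
  have hP1 : (2 : ℝ) ^ (n - 1) = P / 2 := by
    have h1 : (2 : ℝ) ^ n = 2 ^ (n - 1) * 2 := by
      rw [← pow_succ]
      congr 1
      omega
    rw [hP, h1]
    ring
  rw [hP2] at hτ2
  rw [← hP] at hτ1 ⊢
  rw [hA3, hW]
  have hτ0 : 0 < τ := by
    have : 0 < P ^ k := by positivity
    linarith
  obtain ⟨z, hz⟩ : ∃ z : ℝ, z = τ ^ ((k : ℝ)⁻¹) := ⟨_, rfl⟩
  have hz0 : 0 ≤ z := by
    rw [hz]
    positivity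
  have hkne : k ≠ 0 := by omega
  have hzk : z ^ k = τ := by
    rw [hz]
    exact Real.rpow_inv_natCast_pow hτ0.le hkne
  have hz2 : z ≤ 2 * P := by
    refine (pow_le_pow_iff_left₀ hz0 (by positivity) hkne).mp ?_
    rw [hzk]
    exact hτ2
  have hz7 : 7 / 10 * P ≤ z := by
    refine (pow_le_pow_iff_left₀ (by positivity) hz0 hkne).mp ?_
    rw [hzk, mul_pow]
    have h1 : (7 / 10 : ℝ) ^ k ≤ (7 / 10) ^ 2 := pow_le_pow_of_le_one (by norm_num) (by norm_num) hk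
    have h2 : 0 < P ^ k := by positivity
    nlinarith
  obtain ⟨δ, hδ⟩ : ∃ δ : ℝ, δ = A ^ 3 / (k * 2 ^ (k - 1)) := ⟨_, rfl⟩
  have h2k : (2 : ℝ) ^ k = 2 ^ (k - 1) * 2 := by
    rw [← pow_succ]
    congr 1
    omega
  have hδ0 : 0 < δ := by
    rw [hδ]
    positivity
  have hδ2 : 2 ≤ δ := by
    rw [hδ, le_div_iff₀ (by positivity)]
    have h1 : 2 * ((k : ℝ) * 2 ^ (k - 1)) = k * 2 ^ k := by
      rw [h2k]
      ring
    rw [h1]
    calc (k : ℝ) * 2 ^ k ≤ A * A := mul_le_mul (hk2.trans hAk) hAk (by positivity) hA0.le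
      _ ≤ A ^ 3 := by
          have : 1 ≤ A := by linarith
          nlinarith [mul_pos hA0 hA0]
  have hδP : δ ≤ P / 16 := by
    rw [hδ, div_le_iff₀ (by positivity), ← hA4]
    have h1 : (4 : ℝ) ≤ k * 2 ^ (k - 1) := by
      have h2 : (2 : ℝ) ≤ k := by exact_mod_cast hk
      have h3 : (2 : ℝ) ≤ 2 ^ (k - 1) := by linarith
      nlinarith
    have h3 : 0 < A ^ 3 := by positivity
    have h5 : A ^ 4 / 16 * (k * 2 ^ (k - 1)) = A ^ 3 * (A * (k * 2 ^ (k - 1)) / 16) := by ring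
    rw [h5]
    have h6 : 1 ≤ A * (k * 2 ^ (k - 1)) / 16 := by
      rw [le_div_iff₀ (by norm_num)]
      nlinarith
    nlinarith
  have hP16 : 256 ≤ P := by
    rw [← hA4]
    calc (256 : ℝ) = 4 ^ 4 := by norm_num
      _ ≤ A ^ 4 := pow_le_pow_left₀ (by norm_num) hA4' 4
  have hlow : P / 2 ≤ z - δ - β := by linarith
  have hsub : Finset.Icc ⌈z - δ - β⌉₊ ⌊z - β⌋₊ ⊆ (Finset.Icc (2 ^ (n - 1)) (2 ^ (n + 1))).filter
      fun m : ℕ => |((m : ℝ) + β) ^ k - τ| ≤ P ^ (k - 1) * A ^ 3 := by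
    intro m hm
    rw [Finset.mem_Icc] at hm
    have hm1 : z - δ - β ≤ m := Nat.ceil_le.mp hm.1
    have hm2 : (m : ℝ) ≤ z - β := (Nat.le_floor_iff (by linarith)).mp hm.2
    rw [Finset.mem_filter, Finset.mem_Icc]
    refine ⟨⟨?_, ?_⟩, ?_⟩
    · have : ((2 ^ (n - 1) : ℕ) : ℝ) ≤ m := by
        push_cast
        rw [hP1]
        linarith
      exact_mod_cast this
    · have : (m : ℝ) ≤ ((2 ^ (n + 1) : ℕ) : ℝ) := by
        push_cast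
        rw [hP2]
        linarith
      exact_mod_cast this
    · have hy0 : 0 ≤ (m : ℝ) + β := by positivity
      have hyz : (m : ℝ) + β ≤ z := by linarith
      have h1 := ManB_pow k hy0 hyz
      have h2 : ((m : ℝ) + β) ^ k ≤ z ^ k := pow_le_pow_left₀ hy0 hyz k
      rw [hzk] at h1 h2
      rw [abs_sub_comm, abs_of_nonneg (by linarith)]
      refine h1.trans ?_
      calc (k : ℝ) * z ^ (k - 1) * (z - (m + β)) ≤ k * (2 * P) ^ (k - 1) * δ := by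
            have h3 : z - (m + β) ≤ δ := by linarith
            have h4 : z ^ (k - 1) ≤ (2 * P) ^ (k - 1) := pow_le_pow_left₀ hz0 hz2 _
            have h5 : 0 ≤ z - (m + β) := by linarith
            gcongr
        _ = P ^ (k - 1) * A ^ 3 := by
            rw [hδ, mul_pow]
            field_simp
  have hcard := Finset.card_le_card hsub
  rw [Nat.card_Icc] at hcard
  have h1 : (⌊z - β⌋₊ : ℝ) + 1 ≤ ((⌊z - β⌋₊ + 1 - ⌈z - δ - β⌉₊ : ℕ) : ℝ) + ⌈z - δ - β⌉₊ := by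
    have : ⌊z - β⌋₊ + 1 ≤ (⌊z - β⌋₊ + 1 - ⌈z - δ - β⌉₊) + ⌈z - δ - β⌉₊ := by omega
    exact_mod_cast this
  have h2 : z - β < ⌊z - β⌋₊ + 1 := Nat.lt_floor_add_one _
  have h3 : (⌈z - δ - β⌉₊ : ℝ) < z - δ - β + 1 := Nat.ceil_lt_add_one (by linarith)
  have h5 : ((⌊z - β⌋₊ + 1 - ⌈z - δ - β⌉₊ : ℕ) : ℝ) ≤ (((Finset.Icc (2 ^ (n - 1)) (2 ^ (n + 1))).filter
      fun m : ℕ => |((m : ℝ) + β) ^ k - τ| ≤ P ^ (k - 1) * A ^ 3).card : ℝ) := by
    exact_mod_cast hcard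
  have h6 : 1 / (k * 2 ^ k) * A ^ 3 = δ / 2 := by
    rw [hδ, h2k]
    field_simp
  rw [h6]
  linarith

end Pool.Agent.Lib.MP_570bef_ntWD
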