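import Mathlib
import Pool.Agent.Lib.MP_570bef_ntWD.LevA

/-!
# ParA: numbers of levels and variables (easy)

la_exp: 0 ≤ 1 - 1/K ≤ exp(-1/K) (Real.add_one_le_exp), so la K v ≤ exp(-v/K) ≤ exp(-log(1/ε)) = ε, as v ≥ K log(1/ε).
sum_nB: nB j K l ≤ j la K l + 1 (Nat.ceil_lt_add_one) and ∑_(l<v) la K l = K (1 - la K v) ≤ K (la K l = K (la K l - la K (l+1)); or
geometric sum).
num: 3 log (12 m (m+1)) + 2 ≤ m for m ≥ 50: 12 m (m+1) ≤ 12.24 m², log (12.24 m²) = log 12.24 + 2 log m, log 12.24 ≤ 2.51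
(12.24 ≤ e^2.51; e ≥ 2.7182), log m ≤ log 50 + (m - 50)/50 (log x ≤ x - 1), log 50 ≤ 3.92 (50 ≤ e^3.92); so the left side is
≤ 7.53 + 2 + 6 (3.92) + 0.12 (m - 50) = 33.05 + 0.12 (m - 50) ≤ m. Simpler: by induction on m (for the step
log((m+1)(m+2)/(m(m+1))) = log(1 + 2/m) ≤ 2/m ≤ 1/3), with the value at 50: 12 * 50 * 51 = 30600 ≤ e^16 (e^16 = (e^4)^4, e^4 ≥ 2.7^4 ≥ 53).
-/

set_option autoImplicit false

open Finset Real MeasureTheory

namespace Pool.Agent.Lib.MP_570bef_ntWD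

theorem la_exp (K : ℕ) (hK : 1 ≤ K) (ε : ℝ) (hε : 0 < ε) (hε1 : ε ≤ 1) :
    la K ⌈(K : ℝ) * Real.log (1 / ε)⌉₊ ≤ ε := by
  have hK1 : (1 : ℝ) ≤ K := by exact_mod_cast hK
  have hK0 : (0 : ℝ) < K := by linarith
  have h1 : (K : ℝ) * Real.log (1 / ε) ≤ (⌈(K : ℝ) * Real.log (1 / ε)⌉₊ : ℝ) := Nat.le_ceil _
  generalize ⌈(K : ℝ) * Real.log (1 / ε)⌉₊ = v at h1 ⊢
  unfold la
  have h2 : 0 ≤ 1 - 1 / (K : ℝ) := by
    have : 1 / (K : ℝ) ≤ 1 := by
      rw [div_le_one hK0]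
      exact hK1
    linarith
  have h3 : 1 - 1 / (K : ℝ) ≤ Real.exp (-(1 / (K : ℝ))) := by
    have := Real.add_one_le_exp (-(1 / (K : ℝ)))
    linarith
  have h4 : (1 - 1 / (K : ℝ)) ^ v ≤ Real.exp (-(1 / (K : ℝ))) ^ v := pow_le_pow_left₀ h2 h3 v
  have h5 : Real.exp (-(1 / (K : ℝ))) ^ v = Real.exp ((v : ℝ) * -(1 / (K : ℝ))) :=
    (Real.exp_nat_mul _ v).symm
  have h6 : Real.exp ((v : ℝ) * -(1 / (K : ℝ))) ≤ Real.exp (Real.log ε) := by
    apply Real.exp_le_exp.2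
    have h7 : Real.log (1 / ε) = -Real.log ε := by
      rw [one_div, Real.log_inv]
    rw [h7] at h1
    have h8 : (v : ℝ) * -(1 / (K : ℝ)) = -((v : ℝ) / K) := by ring
    rw [h8]
    have h9 : -Real.log ε ≤ (v : ℝ) / K := by
      rw [le_div_iff₀ hK0]
      linarith
    linarith
  rw [Real.exp_log hε] at h6
  linarith [h5 ▸ h4]

theorem sum_nB (j K v : ℕ) (hK : 1 ≤ K) :
    ((∑ l ∈ range v, nB j K l : ℕ) : ℝ) ≤ j * K + v := by
  have hK1 : (1 : ℝ) ≤ K := by exact_mod_cast hK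
  have hK0 : (0 : ℝ) < K := by linarith
  have key : ∀ v : ℕ, ((∑ l ∈ range v, nB j K l : ℕ) : ℝ) ≤ j * (K * (1 - la K v)) + v := by
    intro v
    induction v with
    | zero => simp [la]
    | succ v ih =>
      rw [Finset.sum_range_succ]
      have h1 : (nB j K v : ℝ) < (j : ℝ) * la K v + 1 :=
        Nat.ceil_lt_add_one (mul_nonneg (Nat.cast_nonneg j) (la_nonneg hK v))
      have h2 : (K : ℝ) * (1 - la K (v + 1)) = K * (1 - la K v) + la K v := by
        unfold la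
        rw [pow_succ]
        field_simp
        ring
      rw [h2]
      push_cast at ih ⊢
      nlinarith [ih, h1]
  have h3 := key v
  have h4 : (j : ℝ) * (K * (1 - la K v)) ≤ j * K := by
    apply mul_le_mul_of_nonneg_left _ (Nat.cast_nonneg j)
    have := la_nonneg hK v
    nlinarith
  linarith

theorem num (m : ℕ) (hm : 50 ≤ m) : 3 * Real.log (12 * m * (m + 1)) + 2 ≤ (m : ℝ) := by
  induction m, hm using Nat.le_induction with
  | base =>
    have h1 : Real.log (12 * ((50 : ℕ) : ℝ) * (((50 : ℕ) : ℝ) + 1)) ≤ 16 := by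
      rw [Real.log_le_iff_le_exp (by norm_num)]
      have h2 : Real.exp 16 = Real.exp 1 ^ 16 := by
        rw [← Real.exp_nat_mul]
        norm_num
      rw [h2]
      have h3 : (2.7 : ℝ) ≤ Real.exp 1 := by
        have := Real.exp_one_gt_d9
        linarith
      have h4 : (2.7 : ℝ) ^ 16 ≤ Real.exp 1 ^ 16 := pow_le_pow_left₀ (by norm_num) h3 16
      refine le_trans ?_ h4
      norm_num
    push_cast at h1 ⊢
    linarith
  | succ m hm ih =>
    have hm1 : (50 : ℝ) ≤ m := by exact_mod_cast hm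
    have hm0 : (0 : ℝ) < m := by linarith
    have h1 : (12 : ℝ) * ((m + 1 : ℕ) : ℝ) * (((m + 1 : ℕ) : ℝ) + 1) =
        12 * m * (m + 1) * (1 + 2 / m) := by
      push_cast
      field_simp
      ring
    rw [h1, Real.log_mul (by positivity) (by positivity)]
    have h2 : Real.log (1 + 2 / (m : ℝ)) ≤ 2 / m := by
      have := Real.log_le_sub_one_of_pos (show (0 : ℝ) < 1 + 2 / (m : ℝ) by positivity)
      linarith
    have h3 : 2 / (m : ℝ) ≤ 1 / 25 := by
      rw [div_le_div_iff₀ hm0 (by norm_num)]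
      linarith
    push_cast
    linarith

end Pool.Agent.Lib.MP_570bef_ntWD
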