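import Mathlib
import Pool.Agent.Lib.MP_570bef_ntWD.Gau
import Pool.Agent.Lib.MP_570bef_ntWD.Cat
import Pool.Agent.Lib.MP_570bef_ntWD.Def2

/-!
# RwI: the smoothed number of representations as an integral, and the comparison of two widths (medium)

rw_int: gau_one with Y = 1/(2w): exp(-π (ξ/(2Y))²) = exp(-π (w ξ)²), ∫ exp(-π (w ξ)²) e(ξ Δ) dξ = (1/w) exp(-π (Δ/w)²),
Δ = Ps k β x - τ; e(ξ Ps) e(-(ξ τ)) = e(ξ (Ps - τ)); sum over x.
Jn_nonneg, Jn_int: 0 ≤ Jn ≤ w exp(-π (w ξ)²) card G, continuous.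
rw_cmp: Rw w τ - (w/W) Rw W τ = Re ∫ w (exp(-π (wξ)²) - exp(-π (Wξ)²)) Es(ξ) e(-(ξ τ)) dξ, since (w/W) W exp(-π (Wξ)²) =
w exp(-π (Wξ)²). And exp(-π (wξ)²) - exp(-π (Wξ)²) = exp(-π (wξ)²) (1 - exp(-y)), y = π (W² - w²) ξ² ∈ [0, π (W ξ)²],
0 ≤ 1 - exp(-y) ≤ min 1 y. So the absolute value of the integral is ≤ ∫ Jn.
-/

set_option autoImplicit false

open Finset Real MeasureTheory
open Pool.Agent.Lib.MP_2a816b_nt (e norm_e conj_e e_add e_neg)

namespace Pool.Agent.Lib.MP_570bef_ntWD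

private theorem RwI_term (k : ℕ) (β w τ : ℝ) (hw : 0 < w) (x : List ℕ) (ξ : ℝ) :
    ((w * Real.exp (-π * (w * ξ) ^ 2) : ℝ) : ℂ) * e (ξ * Ps k β x) * e (-(ξ * τ)) =
      (w : ℂ) * (((Real.exp (-π * (ξ / (2 * (1 / (2 * w)))) ^ 2) : ℝ) : ℂ) *
        e (ξ * (Ps k β x - τ))) := by
  have h1 : ξ / (2 * (1 / (2 * w))) = w * ξ := by
    field_simp
  have h2 : e (ξ * (Ps k β x - τ)) = e (ξ * Ps k β x) * e (-(ξ * τ)) := by
    rw [← e_add]
    congr 1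
    ring
  rw [h1, h2, Complex.ofReal_mul]
  ring

private theorem RwI_sum (k : ℕ) (β : ℝ) (G : Finset (List ℕ)) (w τ : ℝ) (hw : 0 < w) :
    (fun ξ : ℝ => ((w * Real.exp (-π * (w * ξ) ^ 2) : ℝ) : ℂ) * Es k β G ξ * e (-(ξ * τ))) =
      fun ξ : ℝ => ∑ x ∈ G, (w : ℂ) * (((Real.exp (-π * (ξ / (2 * (1 / (2 * w)))) ^ 2) : ℝ) : ℂ) *
        e (ξ * (Ps k β x - τ))) := by
  funext ξ
  unfold Es
  rw [Finset.mul_sum, Finset.sum_mul]
  exact Finset.sum_congr rfl fun x _ => RwI_term k β w τ hw x ξ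

private theorem RwI_exp_int (w : ℝ) (hw : 0 < w) :
    Integrable fun ξ : ℝ => Real.exp (-π * (w * ξ) ^ 2) := by
  have h1 : 0 < π * w ^ 2 := by positivity
  have h2 := integrable_exp_neg_mul_sq h1
  refine h2.congr (Filter.Eventually.of_forall fun ξ => ?_)
  show Real.exp (-(π * w ^ 2) * ξ ^ 2) = Real.exp (-π * (w * ξ) ^ 2)
  congr 1
  ring

private theorem RwI_diff (a b : ℝ) (ha : 0 ≤ a) :
    Real.exp (-a) - Real.exp (-b) ≤ min 1 b * Real.exp (-a) := by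
  have h1 : Real.exp (-b) = Real.exp (-a) * Real.exp (-(b - a)) := by
    rw [← Real.exp_add]
    congr 1
    ring
  have h2 : 1 - Real.exp (-(b - a)) ≤ min 1 b := by
    refine le_min ?_ ?_
    · have := (Real.exp_pos (-(b - a))).le
      linarith
    · have := Real.add_one_le_exp (-(b - a))
      linarith
  have h3 := mul_le_mul_of_nonneg_right h2 (Real.exp_pos (-a)).le
  rw [h1]
  linarith

theorem rw_int (k : ℕ) (β : ℝ) (G : Finset (List ℕ)) (w τ : ℝ) (hw : 0 < w) :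
    Integrable (fun ξ : ℝ => ((w * Real.exp (-π * (w * ξ) ^ 2) : ℝ) : ℂ) * Es k β G ξ *
      e (-(ξ * τ))) ∧
    ((Rw k β G w τ : ℝ) : ℂ) = ∫ ξ : ℝ, ((w * Real.exp (-π * (w * ξ) ^ 2) : ℝ) : ℂ) *
      Es k β G ξ * e (-(ξ * τ)) := by
  have hY : 0 < 1 / (2 * w) := by positivity
  have hi : ∀ x ∈ G, Integrable fun ξ : ℝ => (w : ℂ) *
      (((Real.exp (-π * (ξ / (2 * (1 / (2 * w)))) ^ 2) : ℝ) : ℂ) * e (ξ * (Ps k β x - τ))) :=
    fun x _ => (gau_one (1 / (2 * w)) (Ps k β x - τ) hY).1.const_mul _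
  rw [RwI_sum k β G w τ hw]
  refine ⟨integrable_finsetSum _ hi, ?_⟩
  rw [integral_finsetSum _ hi]
  unfold Rw
  rw [Complex.ofReal_sum]
  refine Finset.sum_congr rfl fun x _ => ?_
  rw [integral_const_mul, (gau_one (1 / (2 * w)) (Ps k β x - τ) hY).2, ← Complex.ofReal_mul]
  congr 1
  have h1 : 2 * (1 / (2 * w)) = 1 / w := by
    field_simp
  have h2 : 1 / w * (Ps k β x - τ) = (Ps k β x - τ) / w := by ring
  rw [h1, h2, ← mul_assoc, mul_one_div_cancel hw.ne', one_mul]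

theorem Jn_nonneg (k : ℕ) (β : ℝ) (G : Finset (List ℕ)) (w W ξ : ℝ) (hw : 0 ≤ w) :
    0 ≤ Jn k β G w W ξ := by
  unfold Jn
  have h1 : 0 ≤ min 1 (π * (W * ξ) ^ 2) := le_min zero_le_one (by positivity)
  have h2 := norm_nonneg (Es k β G ξ)
  positivity

theorem Jn_int (k : ℕ) (β : ℝ) (G : Finset (List ℕ)) (w W : ℝ) (hw : 0 < w) :
    Integrable (Jn k β G w W) := by
  have hcont : Continuous (Jn k β G w W) := by
    unfold Jn
    have h1 := (Es_cont k β G).norm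
    fun_prop
  have hb : Integrable fun ξ : ℝ => w * Real.exp (-π * (w * ξ) ^ 2) * (G.card : ℝ) :=
    ((RwI_exp_int w hw).const_mul w).mul_const _
  refine hb.mono' hcont.aestronglyMeasurable (Filter.Eventually.of_forall fun ξ => ?_)
  rw [Real.norm_of_nonneg (Jn_nonneg k β G w W ξ hw.le)]
  unfold Jn
  have h1 : min 1 (π * (W * ξ) ^ 2) ≤ 1 := min_le_left _ _
  have h2 := Es_norm_le k β G ξ
  have h3 := (Real.exp_pos (-π * (w * ξ) ^ 2)).le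
  have h4 : w * min 1 (π * (W * ξ) ^ 2) ≤ w := mul_le_of_le_one_right hw.le h1
  have h5 : w * min 1 (π * (W * ξ) ^ 2) * Real.exp (-π * (w * ξ) ^ 2) ≤
      w * Real.exp (-π * (w * ξ) ^ 2) := mul_le_mul_of_nonneg_right h4 h3
  exact mul_le_mul h5 h2 (norm_nonneg _) (by positivity)

theorem rw_cmp (k : ℕ) (β : ℝ) (G : Finset (List ℕ)) (w W τ : ℝ) (hw : 0 < w) (hW : w ≤ W) :
    w / W * Rw k β G W τ - ∫ ξ : ℝ, Jn k β G w W ξ ≤ Rw k β G w τ := by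
  have hW0 : 0 < W := by linarith
  obtain ⟨hi1, h1⟩ := rw_int k β G w τ hw
  obtain ⟨hi2, h2⟩ := rw_int k β G W τ hW0
  have h3 : ((w / W * Rw k β G W τ - Rw k β G w τ : ℝ) : ℂ) =
      ∫ ξ : ℝ, (((w / W : ℝ) : ℂ) * (((W * Real.exp (-π * (W * ξ) ^ 2) : ℝ) : ℂ) * Es k β G ξ *
        e (-(ξ * τ))) - ((w * Real.exp (-π * (w * ξ) ^ 2) : ℝ) : ℂ) * Es k β G ξ *
        e (-(ξ * τ))) := by
    rw [integral_sub (hi2.const_mul _) hi1, integral_const_mul, ← h1, ← h2]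
    push_cast
    ring
  have h4 : w / W * Rw k β G W τ - Rw k β G w τ ≤
      ‖((w / W * Rw k β G W τ - Rw k β G w τ : ℝ) : ℂ)‖ := by
    rw [Complex.norm_real]
    exact Real.le_norm_self _
  have h5 : ‖((w / W * Rw k β G W τ - Rw k β G w τ : ℝ) : ℂ)‖ ≤ ∫ ξ : ℝ, Jn k β G w W ξ := by
    rw [h3]
    refine norm_integral_le_of_norm_le (Jn_int k β G w W hw)
      (Filter.Eventually.of_forall fun ξ => ?_)
    have h6 : ((w / W : ℝ) : ℂ) * (((W * Real.exp (-π * (W * ξ) ^ 2) : ℝ) : ℂ) * Es k β G ξ *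
        e (-(ξ * τ))) - ((w * Real.exp (-π * (w * ξ) ^ 2) : ℝ) : ℂ) * Es k β G ξ *
        e (-(ξ * τ)) = (((-(w * (Real.exp (-π * (w * ξ) ^ 2) - Real.exp (-π * (W * ξ) ^ 2)))) : ℝ) : ℂ) *
          Es k β G ξ * e (-(ξ * τ)) := by
      have h7 : ((w / W : ℝ) : ℂ) * ((W * Real.exp (-π * (W * ξ) ^ 2) : ℝ) : ℂ) =
          ((w * Real.exp (-π * (W * ξ) ^ 2) : ℝ) : ℂ) := by
        rw [← Complex.ofReal_mul]
        congr 1
        field_simp
      rw [← mul_assoc, ← mul_assoc, h7]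
      push_cast
      ring
    have h8 : π * (w * ξ) ^ 2 ≤ π * (W * ξ) ^ 2 := by
      rw [mul_pow, mul_pow]
      have h9 : w ^ 2 ≤ W ^ 2 := pow_le_pow_left₀ hw.le hW 2
      have h10 := mul_le_mul_of_nonneg_right h9 (sq_nonneg ξ)
      exact mul_le_mul_of_nonneg_left h10 pi_pos.le
    have h9 := RwI_diff (π * (w * ξ) ^ 2) (π * (W * ξ) ^ 2) (by positivity)
    have h10 : Real.exp (-(π * (W * ξ) ^ 2)) ≤ Real.exp (-(π * (w * ξ) ^ 2)) :=
      Real.exp_le_exp.2 (by linarith)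
    rw [h6, norm_mul, norm_mul, norm_e, mul_one, Complex.norm_real, norm_neg, norm_mul,
      Real.norm_of_nonneg hw.le]
    have h11 : -π * (w * ξ) ^ 2 = -(π * (w * ξ) ^ 2) := by ring
    have h12 : -π * (W * ξ) ^ 2 = -(π * (W * ξ) ^ 2) := by ring
    unfold Jn
    rw [h11, h12, Real.norm_of_nonneg (sub_nonneg.2 h10)]
    have h13 := mul_le_mul_of_nonneg_right (mul_le_mul_of_nonneg_left h9 hw.le)
      (norm_nonneg (Es k β G ξ))
    refine h13.trans (le_of_eq ?_)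
    ring
  linarith

end Pool.Agent.Lib.MP_570bef_ntWD
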