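import Mathlib

/-!
# Sep: maximal separated sets (easy)

Among the finite subsets F of S with pairwise distances > ρ (the empty set is one) all cards are ≤ M, so there is one with the
greatest card (Nat.find on the bound ⌊M⌋₊, or Nat.sSup, or by strong induction). For x ∈ S there is y ∈ F with |x - y| ≤ ρ: otherwise
insert x F is a larger one.
-/

set_option autoImplicit false

namespace Pool.Agent.Lib.MP_570bef_ntWD

theorem sepcov (S : Set ℝ) (ρ M : ℝ) (hρ : 0 < ρ)
    (h : ∀ F : Finset ℝ, (∀ x ∈ F, x ∈ S) → (∀ x ∈ F, ∀ y ∈ F, x ≠ y → ρ < |x - y|) →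
      (F.card : ℝ) ≤ M) :
    ∃ F : Finset ℝ, (F.card : ℝ) ≤ M ∧ ∀ x ∈ S, ∃ y ∈ F, |x - y| ≤ ρ := by
  classical
  let Good : Finset ℝ → Prop := fun F =>
    (∀ x ∈ F, x ∈ S) ∧ (∀ x ∈ F, ∀ y ∈ F, x ≠ y → ρ < |x - y|)
  let Q : ℕ → Prop := fun n => ∃ F : Finset ℝ, Good F ∧ F.card = n
  have hQ0 : Q 0 := ⟨∅, ⟨by simp, by simp⟩, by simp⟩
  have hb : ∀ n, Q n → n ≤ ⌊M⌋₊ := by
    rintro n ⟨F, hF, rfl⟩
    exact Nat.le_floor (h F hF.1 hF.2)
  obtain ⟨F, hF, hFc⟩ : Q (Nat.findGreatest Q ⌊M⌋₊) :=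
    Nat.findGreatest_spec (P := Q) (m := 0) (Nat.zero_le _) hQ0
  refine ⟨F, h F hF.1 hF.2, fun x hx => ?_⟩
  by_contra hcon
  push Not at hcon
  have hxF : x ∉ F := by
    intro hxF
    have := hcon x hxF
    rw [sub_self, abs_zero] at this
    linarith
  have hG : Good (insert x F) := by
    refine ⟨fun y hy => ?_, fun y hy z hz hyz => ?_⟩
    · rcases Finset.mem_insert.1 hy with rfl | hy
      · exact hx
      · exact hF.1 y hy
    · rcases Finset.mem_insert.1 hy with hy1 | hy1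
      · rcases Finset.mem_insert.1 hz with hz1 | hz1
        · exact absurd (hy1.trans hz1.symm) hyz
        · rw [hy1]
          exact hcon z hz1
      · rcases Finset.mem_insert.1 hz with hz1 | hz1
        · rw [hz1, abs_sub_comm]
          exact hcon y hy1
        · exact hF.2 y hy1 z hz1 hyz
  have hQ1 : Q (F.card + 1) := ⟨insert x F, hG, Finset.card_insert_of_notMem hxF⟩
  have h1 : F.card + 1 ≤ Nat.findGreatest Q ⌊M⌋₊ := Nat.le_findGreatest (hb _ hQ1) hQ1
  omega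

end Pool.Agent.Lib.MP_570bef_ntWD
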