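import Mathlib
import Pool.Agent.Lib.MP_570bef_ntWD.Def2

/-!
# SufA: elementary properties of Suff (easy)

suff_list: z i = the i-th entry of the list, as an integer (List.get, List.sum_ofFn; Fin s with s = x.length).
suff_mono: let c = ⌈-β⌉, y = c + β ∈ [0, 1); for τ ≥ τ₀ + (s' - s) y^k append s' - s terms equal to c to the z for τ - (s' - s) y^k
(Fin.append or induction on s' - s with Fin.snoc / Fin.cons).
suff_shift: z i ↦ z i - m.
suff_all: {β | ¬ Suff k β s} is the union over m ∈ ℤ of the images of {β ∈ [0,1] | ¬ Suff k β s} under β ↦ β + m (suff_shift with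
m = ⌊β⌋), which are isometries (Isometry.dimH_image, or IsometryEquiv.addRight); dimH_iUnion, iSup_le.
-/

set_option autoImplicit false

open Finset Real MeasureTheory

namespace Pool.Agent.Lib.MP_570bef_ntWD

theorem suff_list {k s : ℕ} {β : ℝ} (hβ : 0 ≤ β)
    (h : ∀ δ : ℝ, 0 < δ → ∃ τ₀ : ℝ, ∀ τ : ℝ, τ₀ ≤ τ → ∃ x : List ℕ, x.length = s ∧
      |Ps k β x - τ| < δ) : Suff k β s := by
  intro δ hδ
  obtain ⟨τ₀, h0⟩ := h δ hδ
  refine ⟨τ₀, fun τ hτ => ?_⟩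
  obtain ⟨x, hx, hd⟩ := h0 τ hτ
  subst hx
  refine ⟨fun i => ((x[(i : ℕ)] : ℕ) : ℤ), fun i => by positivity, ?_⟩
  have e1 : ∑ i : Fin x.length, (((((x[(i : ℕ)] : ℕ) : ℤ)) : ℝ) + β) ^ k = Ps k β x := by
    have e2 : Ps k β x = (List.map (fun n : ℕ => ((n : ℝ) + β) ^ k) x).sum := by
      simp only [Ps, List.bind_eq_flatMap, List.pure_def, ← List.map_eq_flatMap, List.map_map]
      rfl
    rw [e2, ← Fin.sum_univ_fun_getElem x (fun n : ℕ => ((n : ℝ) + β) ^ k)]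
    refine Finset.sum_congr rfl fun i _ => ?_
    rw [Int.cast_natCast]
  rw [e1]
  exact hd

private theorem SufA_step {k s : ℕ} {β : ℝ} (h : Suff k β s) : Suff k β (s + 1) := by
  intro δ hδ
  obtain ⟨τ₀, h0⟩ := h δ hδ
  have hc : 0 ≤ ((⌈-β⌉ : ℤ) : ℝ) + β := by
    have := Int.le_ceil (-β)
    linarith
  refine ⟨τ₀ + (((⌈-β⌉ : ℤ) : ℝ) + β) ^ k, fun τ hτ => ?_⟩
  obtain ⟨z, hz, hd⟩ := h0 (τ - (((⌈-β⌉ : ℤ) : ℝ) + β) ^ k) (by linarith)
  refine ⟨Fin.cons ⌈-β⌉ z, fun i => ?_, ?_⟩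
  · refine Fin.cases ?_ (fun j => ?_) i
    · rw [Fin.cons_zero]
      exact hc
    · rw [Fin.cons_succ]
      exact hz j
  · rw [Fin.sum_univ_succ]
    simp only [Fin.cons_zero, Fin.cons_succ]
    rw [show (((⌈-β⌉ : ℤ) : ℝ) + β) ^ k + ∑ i : Fin s, ((z i : ℝ) + β) ^ k - τ =
      ∑ i : Fin s, ((z i : ℝ) + β) ^ k - (τ - (((⌈-β⌉ : ℤ) : ℝ) + β) ^ k) by ring]
    exact hd

theorem suff_mono {k s s' : ℕ} {β : ℝ} (hs : s ≤ s') (h : Suff k β s) : Suff k β s' := by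
  induction s', hs using Nat.le_induction with
  | base => exact h
  | succ n _ ih => exact SufA_step ih

theorem suff_shift {k s : ℕ} {β : ℝ} (m : ℤ) (h : Suff k β s) : Suff k (β + m) s := by
  intro δ hδ
  obtain ⟨τ₀, h0⟩ := h δ hδ
  refine ⟨τ₀, fun τ hτ => ?_⟩
  obtain ⟨z, hz, hd⟩ := h0 τ hτ
  have e : ∀ i, ((z i - m : ℤ) : ℝ) + (β + m) = (z i : ℝ) + β := by
    intro i
    rw [Int.cast_sub]
    ring
  refine ⟨fun i => z i - m, fun i => ?_, ?_⟩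
  · rw [e]
    exact hz i
  · rw [Finset.sum_congr rfl fun i _ => by rw [e]]
    exact hd

theorem suff_all (k s : ℕ) (d : ENNReal)
    (h : dimH {β : ℝ | (0 ≤ β ∧ β ≤ 1) ∧ ¬ Suff k β s} ≤ d) : dimH {β : ℝ | ¬ Suff k β s} ≤ d := by
  have hsub : {β : ℝ | ¬ Suff k β s} ⊆
      ⋃ m : ℤ, (IsometryEquiv.addRight (m : ℝ)) '' {β : ℝ | (0 ≤ β ∧ β ≤ 1) ∧ ¬ Suff k β s} := by
    intro β hβ
    rw [Set.mem_iUnion]
    refine ⟨⌊β⌋, β - (⌊β⌋ : ℝ), ⟨⟨?_, ?_⟩, ?_⟩, ?_⟩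
    · have := Int.floor_le β
      linarith
    · have := Int.lt_floor_add_one β
      linarith
    · intro hS
      apply hβ
      have h2 := suff_shift ⌊β⌋ hS
      rw [sub_add_cancel] at h2
      exact h2
    · exact sub_add_cancel β (⌊β⌋ : ℝ)
  refine (dimH_mono hsub).trans ?_
  rw [dimH_iUnion]
  refine iSup_le fun m => ?_
  rw [IsometryEquiv.dimH_image]
  exact h

end Pool.Agent.Lib.MP_570bef_ntWD
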