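import Mathlib
import Pool.Agent.Lib.MP_570bef_ntWD.Defs

/-!
# Tele: telescoping (easy+)

If X ≥ 1 the left side is ≤ 0 and the right side is ≥ 0 (f ≥ 0). Let m be the least index with la K m ≤ X (m ≤ v by
hv; Nat.find). For l < m: X < la K l, so la K l ≤ f l, and la K l = K (la K l - la K (l+1)) since
la K (l+1) = (1 - 1/K) la K l. So ∑_(l<v) f l ≥ ∑_(l<m) la K l = K (la K 0 - la K m) = K (1 - la K m) ≥ K (1 - X).
-/

set_option autoImplicit false

open Finset Real
open Pool.Agent.Lib.MP_2a816b_nt (e norm_e conj_e e_add e_neg)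

namespace Pool.Agent.Lib.MP_570bef_ntWD

theorem tele (K v : ℕ) (hK : 1 ≤ K) (X : ℝ) (hv : la K v ≤ X) (f : ℕ → ℝ)
    (hf0 : ∀ l < v, 0 ≤ f l) (hf : ∀ l < v, X < la K l → la K l ≤ f l) :
    (K : ℝ) * (1 - X) ≤ ∑ l ∈ range v, f l := by
  have hK0 : (0 : ℝ) < K := by exact_mod_cast hK
  have hla : ∀ l, (K : ℝ) * (la K l - la K (l + 1)) = la K l := by
    intro l
    unfold la
    rw [pow_succ]
    field_simp
    ring
  have hterm : ∀ l ∈ range v, (K : ℝ) * (max (la K l) X - max (la K (l + 1)) X) ≤ f l := by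
    intro l hl
    rw [mem_range] at hl
    by_cases hX : X < la K l
    · have h1 : max (la K l) X = la K l := max_eq_left hX.le
      have h2 : la K (l + 1) ≤ max (la K (l + 1)) X := le_max_left _ _
      have h3 : (K : ℝ) * (max (la K l) X - max (la K (l + 1)) X) ≤ (K : ℝ) * (la K l - la K (l + 1)) := by
        rw [h1]
        exact mul_le_mul_of_nonneg_left (by linarith) hK0.le
      rw [hla] at h3
      exact h3.trans (hf l hl hX)
    · push Not at hX
      have h1 : max (la K l) X = X := max_eq_right hX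
      have h2 : X ≤ max (la K (l + 1)) X := le_max_right _ _
      rw [h1]
      exact (mul_nonpos_of_nonneg_of_nonpos hK0.le (by linarith)).trans (hf0 l hl)
  have hsum := sum_le_sum hterm
  rw [← mul_sum, sum_range_sub' (fun l => max (la K l) X)] at hsum
  refine le_trans (mul_le_mul_of_nonneg_left ?_ hK0.le) hsum
  have h1 : max (la K v) X = X := max_eq_right hv
  have h2 : (1 : ℝ) ≤ max (la K 0) X := by
    refine le_trans (le_of_eq ?_) (le_max_left _ _)
    unfold la
    rw [pow_zero]
  rw [h1]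
  linarith

end Pool.Agent.Lib.MP_570bef_ntWD
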