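import Mathlib
import Pool.Agent.Lib.MP_570bef_ntWD.ItL

/-!
# WeL: the middle range, all shifts (easy+; model weyl_low in MP_570bef_ntS/ItS.lean)

For α < 0: VS k β P (-α) is the complex conjugate of VS k β P α, so let α > 0 (α ≠ 0 by the lower bound). Choose q ≤ b₀ with
P^(q+1/4) ≤ α P^k ≤ P^(q+5/4) (ItS_choose in the model), it_low, and 1 - 1/(8 (q+1) 2^q) ≤ 1 - sg b₀ for q ≤ b₀. C = sum of the
constants for q ≤ b₀.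
-/

set_option autoImplicit false

open Finset Real MeasureTheory
open Pool.Agent.Lib.MP_2a816b_nt (e norm_e conj_e e_add e_neg)

namespace Pool.Agent.Lib.MP_570bef_ntWD

open Pool.Agent.Lib.MP_570bef_ntS

private theorem WeL_choose {P X : ℝ} (hX : P ^ (1 / 4 : ℝ) ≤ X) (Q : ℕ) :
    X ≤ P ^ ((Q : ℝ) + 5 / 4) →
      ∃ q ≤ Q, P ^ ((q : ℝ) + 1 / 4) ≤ X ∧ X ≤ P ^ ((q : ℝ) + 5 / 4) := by
  induction Q with
  | zero =>
    intro h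
    refine ⟨0, le_rfl, ?_, h⟩
    simpa using hX
  | succ Q ih =>
    intro h
    rcases le_total X (P ^ ((Q : ℝ) + 5 / 4)) with h1 | h1
    · obtain ⟨q, hq, h2, h3⟩ := ih h1
      exact ⟨q, hq.trans (Nat.le_succ Q), h2, h3⟩
    · refine ⟨Q + 1, le_rfl, le_trans (le_of_eq ?_) h1, h⟩
      congr 1
      push_cast
      ring

private theorem WeL_neg (k : ℕ) (β : ℝ) (P : ℕ) (α : ℝ) : ‖VS k β P (-α)‖ = ‖VS k β P α‖ := by
  have h : VS k β P (-α) = (starRingEnd ℂ) (VS k β P α) := by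
    unfold VS
    rw [map_sum]
    refine Finset.sum_congr rfl fun n _ => ?_
    rw [conj_e, neg_mul]
  rw [h, Complex.norm_conj]

private theorem WeL_sg {q b₀ : ℕ} (h : q ≤ b₀) : sg b₀ ≤ 1 / (8 * ((q : ℝ) + 1) * 2 ^ q) := by
  unfold sg
  have h1 : (q : ℝ) ≤ b₀ := by exact_mod_cast h
  have h2 : (2 : ℝ) ^ q ≤ 2 ^ b₀ := pow_le_pow_right₀ (by norm_num) h
  refine one_div_le_one_div_of_le (by positivity) ?_
  exact mul_le_mul (by linarith) h2 (by positivity) (by positivity)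

theorem weyl_mid (k b₀ : ℕ) (h : b₀ + 2 ≤ k) :
    ∃ C : ℝ, 0 < C ∧ ∀ (P : ℕ) (α β : ℝ), 1 ≤ P → 0 ≤ β → β ≤ 1 →
      (P : ℝ) ^ (1 / 4 : ℝ) ≤ |α| * (P : ℝ) ^ k → |α| * (P : ℝ) ^ k ≤ (P : ℝ) ^ ((b₀ : ℝ) + 5 / 4) →
      ‖VS k β P α‖ ≤ C * (P : ℝ) ^ (1 - sg b₀) := by
  have H : ∀ q : ℕ, ∃ C : ℝ, 0 < C ∧ (q ≤ b₀ → ∀ (P : ℕ) (α β : ℝ), 1 ≤ P → 0 < α → 0 ≤ β →
      β ≤ 1 → (P : ℝ) ^ ((q : ℝ) + 1 / 4) ≤ α * (P : ℝ) ^ k →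
      α * (P : ℝ) ^ k ≤ (P : ℝ) ^ ((q : ℝ) + 5 / 4) →
      ‖VS k β P α‖ ≤ C * (P : ℝ) ^ (1 - 1 / (8 * ((q : ℝ) + 1) * 2 ^ q) : ℝ)) := by
    intro q
    by_cases hq : q ≤ b₀
    · obtain ⟨C, hC, h'⟩ := it_low k q (by omega)
      exact ⟨C, hC, fun _ => h'⟩
    · exact ⟨1, one_pos, fun h => absurd h hq⟩
  choose C hC0 hC using H
  have hpos : ∀ (P : ℕ) (α β : ℝ), 1 ≤ P → 0 < α → 0 ≤ β → β ≤ 1 →
      (P : ℝ) ^ (1 / 4 : ℝ) ≤ α * (P : ℝ) ^ k → α * (P : ℝ) ^ k ≤ (P : ℝ) ^ ((b₀ : ℝ) + 5 / 4) →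
      ‖VS k β P α‖ ≤ (∑ q ∈ range (b₀ + 1), C q) * (P : ℝ) ^ (1 - sg b₀) := by
    intro P α β hP hα hβ0 hβ1 h1 h2
    have hP1 : (1 : ℝ) ≤ (P : ℝ) := by exact_mod_cast hP
    obtain ⟨q, hq, h3, h4⟩ := WeL_choose h1 b₀ h2
    refine (hC q hq P α β hP hα hβ0 hβ1 h3 h4).trans ?_
    have h5 : (P : ℝ) ^ (1 - 1 / (8 * ((q : ℝ) + 1) * 2 ^ q) : ℝ) ≤ (P : ℝ) ^ (1 - sg b₀) := by
      refine Real.rpow_le_rpow_of_exponent_le hP1 ?_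
      have := WeL_sg hq
      linarith
    have h6 : C q ≤ ∑ q ∈ range (b₀ + 1), C q :=
      Finset.single_le_sum (f := C) (fun i _ => (hC0 i).le) (Finset.mem_range.2 (by omega))
    exact mul_le_mul h6 h5 (by positivity)
      (Finset.sum_nonneg fun i _ => (hC0 i).le)
  refine ⟨∑ q ∈ range (b₀ + 1), C q, Finset.sum_pos (fun q _ => hC0 q) ⟨0, by simp⟩, ?_⟩
  intro P α β hP hβ0 hβ1 h1 h2
  have hP1 : (1 : ℝ) ≤ (P : ℝ) := by exact_mod_cast hP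
  have hP0 : (0 : ℝ) < (P : ℝ) := by linarith
  have hα : 0 < |α| := by
    rcases (abs_nonneg α).lt_or_eq with h3 | h3
    · exact h3
    · exfalso
      rw [← h3, zero_mul] at h1
      exact absurd h1 (not_le.2 (Real.rpow_pos_of_pos hP0 _))
  have h3 := hpos P |α| β hP hα hβ0 hβ1 h1 h2
  rcases abs_choice α with h4 | h4
  · rw [h4] at h3
    exact h3
  · rw [h4, WeL_neg] at h3
    exact h3

end Pool.Agent.Lib.MP_570bef_ntWD
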